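import Pool.Agent.TPer.Main

/-! Error form of the upper bound. `w! ≤ (w+1)! ≤ n` (`factorial_le_pr`, `pr_le`), so
`(w+1) log (w+1) ≤ log n + w + 1` (e.g. from `k! ≥ (k/e)^k`) and `w ≤ log n / log 2`; hence `w log (w+1)` and `w` are
`O(log d)`. If `n ≤ d` use `le_mainTerm`; if `n = d + 1` the term `w (log d - log n)` is `≤ 0`. -/

namespace Pool.Agent.TPer

open Finset

theorem asy1_log (w n : ℕ) (h : w.factorial ≤ n) :
    (w : ℝ) * Real.log w - w ≤ Real.log n := by
  rcases Nat.eq_zero_or_pos w with rfl | hw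
  · simp only [Nat.cast_zero, Real.log_zero, mul_zero, sub_zero]
    rcases Nat.eq_zero_or_pos n with rfl | hn
    · simp
    · exact Real.log_nonneg (by exact_mod_cast hn)
  · have hw' : (0 : ℝ) < w := by exact_mod_cast hw
    have hf : (0 : ℝ) < (w.factorial : ℝ) := by exact_mod_cast w.factorial_pos
    have h1 := Real.pow_div_factorial_le_exp (w : ℝ) hw'.le w
    rw [div_le_iff₀ hf] at h1
    have h2 := Real.log_le_log (by positivity) h1
    rw [Real.log_mul (Real.exp_pos _).ne' hf.ne', Real.log_exp, Real.log_pow] at h2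
    have h3 : Real.log (w.factorial : ℝ) ≤ Real.log n :=
      Real.log_le_log hf (by exact_mod_cast h)
    linarith

/-- `ω(n) log 2 ≤ log n`. -/
theorem asy1_omega_two (n : ℕ) (hn : 1 ≤ n) :
    n.primeFactors.card * Real.log 2 ≤ Real.log n := by
  have h1 : 2 ^ n.primeFactors.card ≤ n := by
    calc 2 ^ n.primeFactors.card = ∏ _p ∈ n.primeFactors, 2 := by rw [Finset.prod_const]
      _ ≤ ∏ p ∈ n.primeFactors, p :=
          Finset.prod_le_prod' fun p hp => (Nat.prime_of_mem_primeFactors hp).two_le
      _ ≤ n := Nat.le_of_dvd hn (Nat.prod_primeFactors_dvd n)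
  have h2 : ((2 : ℝ)) ^ n.primeFactors.card ≤ n := by exact_mod_cast h1
  have h3 := Real.log_le_log (by positivity) h2
  rwa [Real.log_pow] at h3

/-- `ω(n) log (ω(n) + 1) = O(log n)`. -/
theorem omega_log (n : ℕ) (hn : 1 ≤ n) :
    n.primeFactors.card * Real.log (n.primeFactors.card + 1) ≤ 4 * Real.log n := by
  have hx0 : 0 ≤ Real.log n := Real.log_nonneg (by exact_mod_cast hn)
  have h2 := asy1_omega_two n hn
  have h1 := asy1_log (n.primeFactors.card + 1) n ((factorial_le_pr _).trans (pr_le hn))
  set w := n.primeFactors.card with hw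
  push_cast at h1
  have hl := Real.log_two_gt_d9
  rcases Nat.eq_zero_or_pos w with h0 | h0
  · rw [h0]
    simp only [Nat.cast_zero, zero_mul]
    positivity
  · have hw1 : (1 : ℝ) ≤ w := by exact_mod_cast h0
    have h3 : Real.log 2 ≤ Real.log ((w : ℝ) + 1) := Real.log_le_log (by norm_num) (by linarith)
    nlinarith

theorem asy_err : ∃ C : ℝ, ∀ d : ℕ, 2 ≤ d → ∀ n : ℕ, 1 ≤ n → n ≤ d + 1 →
    n.primeFactors.card * Real.log 2 + Real.log d + Real.log n +
      n.primeFactors.card *
        (Real.log 2 + Real.log (n.primeFactors.card + 1) + Real.log d - Real.log n) ≤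
      mainTerm d + C * Real.log d := by
  refine ⟨15, fun d hd n hn hnd => ?_⟩
  have hd' : (2 : ℝ) ≤ d := by exact_mod_cast hd
  have hn' : (1 : ℝ) ≤ n := by exact_mod_cast hn
  have hnd' : (n : ℝ) ≤ d + 1 := by exact_mod_cast hnd
  have h1 := omega_log n hn
  have h2 := asy1_omega_two n hn
  have h3 : n.primeFactors.card * (Real.log d - Real.log n) ≤ mainTerm d := by
    rcases Nat.lt_or_ge d n with h | h
    · have h4 : Real.log d ≤ Real.log n :=
        Real.log_le_log (by linarith) (by exact_mod_cast h.le)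
      have h5 : (n.primeFactors.card : ℝ) * (Real.log d - Real.log n) ≤ 0 :=
        mul_nonpos_of_nonneg_of_nonpos (Nat.cast_nonneg _) (by linarith)
      exact h5.trans (mainTerm_nonneg (by omega))
    · exact le_mainTerm hn h
  have h6 : Real.log n ≤ 2 * Real.log d := by
    have h7 : (n : ℝ) ≤ (d : ℝ) ^ 2 := by nlinarith
    have h8 := Real.log_le_log (by linarith) h7
    rw [Real.log_pow] at h8
    exact_mod_cast h8
  have h9 : (n.primeFactors.card : ℝ) * Real.log 2 + Real.log d + Real.log n +
      n.primeFactors.card *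
        (Real.log 2 + Real.log (n.primeFactors.card + 1) + Real.log d - Real.log n) =
      2 * (n.primeFactors.card * Real.log 2) + Real.log d + Real.log n +
      n.primeFactors.card * Real.log (n.primeFactors.card + 1) +
      n.primeFactors.card * (Real.log d - Real.log n) := by ring
  rw [h9]
  linarith

end Pool.Agent.TPer
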