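import Pool.Agent.TPer.Main

/-! Asymptotics of the main term: `mainTerm d ~ (log d)^2 / (4 log log d)`.
Upper half: `w! ≤ n` for `w = ω(n)`; `D = log d`, `x = log n ≤ D`; if `w ≤ D / (log D)^2` then
`w (D - x) ≤ D^2 / (log D)^2`; otherwise `log w ≥ log D - 2 log log D`, `w (log w - 1) ≤ log (w!) ≤ x`, so
`w ≤ (1 + ε) x / log D` and `x (D - x) ≤ D^2 / 4`. -/

namespace Pool.Agent.TPer

open Filter

private theorem asy2_log (w n : ℕ) (h : w.factorial ≤ n) :
    (w : ℝ) * Real.log w - w ≤ Real.log n := by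
  rcases Nat.eq_zero_or_pos w with rfl | hw
  · simp only [Nat.cast_zero, Real.log_zero, mul_zero, sub_zero]
    rcases Nat.eq_zero_or_pos n with rfl | hn
    · simp
    · exact Real.log_nonneg (by exact_mod_cast hn)
  · have hw' : (0 : ℝ) < w := by exact_mod_cast hw
    have hf : (0 : ℝ) < (w.factorial : ℝ) := by exact_mod_cast w.factorial_pos
    have h1 := Real.pow_div_factorial_le_exp (w : ℝ) hw'.le w
    rw [div_le_iff₀ hf] at h1
    have h2 := Real.log_le_log (by positivity) h1
    rw [Real.log_mul (Real.exp_pos _).ne' hf.ne', Real.log_exp, Real.log_pow] at h2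
    have h3 : Real.log (w.factorial : ℝ) ≤ Real.log n :=
      Real.log_le_log hf (by exact_mod_cast h)
    linarith

private theorem asy2_core {ε δ D L x w : ℝ} (hε : 0 < ε) (hδ : 0 < δ) (hδ1 : δ ≤ 1) (hδε : δ ≤ ε)
    (hD : 2 ≤ D) (hL : 1 ≤ L) (hlL : Real.log D = L)
    (hlog : 2 * Real.log L + 1 ≤ δ / 2 * L) (hLε : 4 ≤ L)
    (hx0 : 0 ≤ x) (hxD : x ≤ D) (hw0 : 0 ≤ w) (hw : w * Real.log w - w ≤ x) :
    w * (D - x) ≤ (1 / 4 + ε) * D ^ 2 / L := by
  have hL0 : 0 < L := by linarith
  have hD0 : 0 < D := by linarith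
  set Q : ℝ := D ^ 2 / L with hQ
  have hQ0 : 0 < Q := by positivity
  have hgoal : (1 / 4 + ε) * D ^ 2 / L = (1 / 4 + ε) * Q := by rw [hQ]; ring
  rw [hgoal]
  rcases le_or_gt w (D / L ^ 2) with hA | hB
  · have h3 : w * (D - x) ≤ w * D := mul_le_mul_of_nonneg_left (by linarith) hw0
    have h4 : w * D ≤ D / L ^ 2 * D := mul_le_mul_of_nonneg_right hA hD0.le
    have h5 : D / L ^ 2 * D = 1 / L * Q := by rw [hQ]; field_simp
    rw [h5] at h4
    have h6 : 1 / L * Q ≤ (1 / 4 + ε) * Q := by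
      apply mul_le_mul_of_nonneg_right _ hQ0.le
      have : 1 / L ≤ 1 / 4 := by
        rw [div_le_div_iff₀ hL0 (by norm_num)]
        linarith
      linarith
    linarith
  · have hw1 : 0 < w := lt_trans (by positivity) hB
    have h1 : L - 2 * Real.log L ≤ Real.log w := by
      have h2 := Real.log_le_log (by positivity) hB.le
      rw [Real.log_div hD0.ne' (by positivity), Real.log_pow, hlL] at h2
      push_cast at h2
      exact h2
    have h3 : L ≤ (1 + δ) * (L - 2 * Real.log L - 1) := by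
      have h4 : L - 2 * Real.log L - 1 ≥ L - δ / 2 * L := by linarith
      have h5 : (1 + δ) * (L - δ / 2 * L) ≤ (1 + δ) * (L - 2 * Real.log L - 1) :=
        mul_le_mul_of_nonneg_left h4 (by linarith)
      have h6 : L ≤ (1 + δ) * (L - δ / 2 * L) := by
        have : (1 + δ) * (L - δ / 2 * L) = L + δ / 2 * (1 - δ) * L := by ring
        rw [this]
        have : 0 ≤ δ / 2 * (1 - δ) * L := by
          have : 0 ≤ 1 - δ := by linarith
          positivity
        linarith
      linarith
    have h7 : w * (L - 2 * Real.log L - 1) ≤ x := by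
      have h8 : w * (L - 2 * Real.log L) ≤ w * Real.log w := mul_le_mul_of_nonneg_left h1 hw0
      linarith
    have h9 : w * L ≤ (1 + δ) * x := by
      calc w * L ≤ w * ((1 + δ) * (L - 2 * Real.log L - 1)) := mul_le_mul_of_nonneg_left h3 hw0
        _ = (1 + δ) * (w * (L - 2 * Real.log L - 1)) := by ring
        _ ≤ (1 + δ) * x := mul_le_mul_of_nonneg_left h7 (by linarith)
    have h10 : w * (D - x) * L ≤ (1 + δ) * (x * (D - x)) := by
      calc w * (D - x) * L = (w * L) * (D - x) := by ring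
        _ ≤ ((1 + δ) * x) * (D - x) := mul_le_mul_of_nonneg_right h9 (by linarith)
        _ = _ := by ring
    have h11 : x * (D - x) ≤ D ^ 2 / 4 := by nlinarith [sq_nonneg (D - 2 * x)]
    have h12 : w * (D - x) * L ≤ (1 / 4 + ε) * D ^ 2 := by
      have h13 : (1 + δ) * (x * (D - x)) ≤ (1 + ε) * (D ^ 2 / 4) := by
        calc (1 + δ) * (x * (D - x)) ≤ (1 + δ) * (D ^ 2 / 4) :=
              mul_le_mul_of_nonneg_left h11 (by linarith)
          _ ≤ _ := mul_le_mul_of_nonneg_right (by linarith) (by positivity)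
      have h14 : 0 ≤ ε * D ^ 2 := by positivity
      linarith
    rw [hQ, mul_div_assoc', le_div_iff₀ hL0]
    exact h12

theorem mainTerm_upper (ε : ℝ) (hε : 0 < ε) : ∀ᶠ d : ℕ in atTop,
    mainTerm d ≤ (1 / 4 + ε) * (Real.log d) ^ 2 / Real.log (Real.log d) := by
  set δ : ℝ := min ε 1 with hδ
  have hδ0 : 0 < δ := lt_min hε one_pos
  have hD : Tendsto (fun d : ℕ => Real.log (d : ℝ)) atTop atTop :=
    Real.tendsto_log_atTop.comp tendsto_natCast_atTop_atTop
  have hLD : Tendsto (fun d : ℕ => Real.log (Real.log (d : ℝ))) atTop atTop :=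
    Real.tendsto_log_atTop.comp hD
  have hev1 : ∀ᶠ L : ℝ in atTop, 2 * Real.log L + 1 ≤ δ / 2 * L := by
    have h1 := Real.isLittleO_log_id_atTop.bound (show (0 : ℝ) < δ / 8 by positivity)
    filter_upwards [h1, eventually_ge_atTop (4 / δ), eventually_ge_atTop (1 : ℝ)] with L hL hL2 hL3
    rw [Real.norm_eq_abs, id, Real.norm_eq_abs, abs_of_nonneg (show (0 : ℝ) ≤ L by linarith)] at hL
    have h3 := le_abs_self (Real.log L)
    rw [div_le_iff₀ hδ0] at hL2
    linarith
  filter_upwards [hLD.eventually hev1, hLD.eventually (eventually_ge_atTop 4),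
    hD.eventually (eventually_ge_atTop (2 : ℝ)), eventually_ge_atTop 1] with d g1 g3 g4 g5
  refine mainTerm_le g5 fun n hn hnd => ?_
  have hnn : (1 : ℝ) ≤ n := by exact_mod_cast hn
  have hf : n.primeFactors.card.factorial ≤ n :=
    (Nat.factorial_le (Nat.le_succ _)).trans ((factorial_le_pr _).trans (pr_le hn))
  exact asy2_core hε hδ0 (min_le_right _ _) (min_le_left _ _) g4 (by linarith) rfl
    g1 g3 (Real.log_nonneg hnn) (Real.log_le_log (by linarith) (by exact_mod_cast hnd))
    (Nat.cast_nonneg _) (asy2_log _ _ hf)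

end Pool.Agent.TPer
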