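import Pool.Agent.TPer.Main

/-! Lower half of the asymptotics of the main term. `D = log d`. Let `x` be the largest integer with
`θ(x) ≤ D / 2` (`θ(x) = log (primorial x)`, `Chebyshev.theta_eq_log_primorial`), `n = primorial x`, `w = π(x)`
(`primorial_eq_pr`, `card_primeFactors_pr`). Then `θ(x) ≥ D / 2 - log (x + 1)`, `w ≥ θ(x) / log x`
(`Chebyshev.theta_le_pi_mul_log`), and `x ≤ 4 D` for large `D` (`Chebyshev.theta_ge`: `θ(x) ≥ x / 2` for large `x`),
so `log x ≤ log D + log 4` and `w (D - log n) ≥ (D/2 - log (x+1)) / (log D + log 4) * (D / 2)`. -/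

namespace Pool.Agent.TPer

open Filter

theorem asy3_theta : ∀ᶠ m : ℕ in atTop, (m : ℝ) / 2 < Chebyshev.theta m := by
  have h1 : ∀ᶠ x : ℝ in atTop, |Real.log x| ≤ 1 / 40 * |x ^ (1 / 2 : ℝ)| := by
    have := (isLittleO_log_rpow_atTop (r := 1 / 2) (by norm_num)).bound
      (show (0 : ℝ) < 1 / 40 by norm_num)
    simpa [Real.norm_eq_abs] using this
  have h2 := tendsto_natCast_atTop_atTop.eventually h1
  filter_upwards [h2, eventually_ge_atTop 2] with m hm hm2
  have hm2' : (2 : ℝ) ≤ m := by exact_mod_cast hm2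
  have h3 := Chebyshev.theta_ge m
  have h4 : Real.log ((m : ℝ) + 1) ≤ 2 * Real.log m := by
    have h5 : Real.log ((m : ℝ) + 1) ≤ Real.log ((m : ℝ) ^ 2) :=
      Real.log_le_log (by positivity) (by nlinarith)
    rw [Real.log_pow] at h5
    exact_mod_cast h5
  have h6 : (m : ℝ) ^ (1 / 2 : ℝ) = √m := (Real.sqrt_eq_rpow _).symm
  have h7 : 0 ≤ Real.log m := Real.log_nonneg (by linarith)
  rw [h6, abs_of_nonneg h7, abs_of_nonneg (Real.sqrt_nonneg _)] at hm
  have h8 : √(m : ℝ) * √m = m := Real.mul_self_sqrt (by linarith)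
  have h9 : 1 ≤ √(m : ℝ) := by
    rw [Real.one_le_sqrt]
    linarith
  have h10 : √(m : ℝ) * Real.log m ≤ 1 / 40 * m := by
    calc √(m : ℝ) * Real.log m ≤ √(m : ℝ) * (1 / 40 * √m) :=
          mul_le_mul_of_nonneg_left hm (Real.sqrt_nonneg _)
      _ = 1 / 40 * m := by rw [← h8]; ring_nf; rw [Real.sq_sqrt (by positivity)]
  have h11 : Real.log m ≤ √(m : ℝ) * Real.log m := le_mul_of_one_le_left h7 h9
  have h12 := Real.log_two_gt_d9
  nlinarith

theorem asy3_succ (x : ℕ) :
    Chebyshev.theta ((x + 1 : ℕ) : ℝ) ≤ Chebyshev.theta x + Real.log ((x : ℝ) + 1) := by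
  rw [Chebyshev.theta_eq_log_primorial, Chebyshev.theta_eq_log_primorial, Nat.floor_natCast,
    Nat.floor_natCast]
  have h1 : primorial (x + 1) ≤ primorial x * (x + 1) := by
    unfold primorial
    rw [Finset.range_add_one (n := x + 1), Finset.filter_insert]
    split_ifs with h
    · rw [Finset.prod_insert (by simp), mul_comm]
    · exact Nat.le_mul_of_pos_right _ (Nat.succ_pos x)
  have h2 : (0 : ℝ) < primorial x := by exact_mod_cast primorial_pos x
  have h3 : (0 : ℝ) < primorial (x + 1) := by exact_mod_cast primorial_pos (x + 1)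
  rw [← Real.log_mul h2.ne' (by positivity)]
  refine Real.log_le_log h3 ?_
  exact_mod_cast h1

theorem mainTerm_lower (ε : ℝ) (hε : 0 < ε) : ∀ᶠ d : ℕ in atTop,
    (1 / 4 - ε) * (Real.log d) ^ 2 / Real.log (Real.log d) ≤ mainTerm d := by
  have hL : Tendsto (fun d : ℕ => Real.log d) atTop atTop :=
    Real.tendsto_log_atTop.comp tendsto_natCast_atTop_atTop
  have h1 : ∀ᶠ L : ℝ in atTop, L / 2 < Chebyshev.theta ((⌊L⌋₊ + 1 : ℕ) : ℝ) := by
    have h2 : Tendsto (fun L : ℝ => ⌊L⌋₊ + 1) atTop atTop :=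
      tendsto_atTop_mono (fun L => Nat.le_succ _) tendsto_nat_floor_atTop
    filter_upwards [h2.eventually asy3_theta] with L hL
    refine lt_of_le_of_lt ?_ hL
    have h3 : L ≤ ((⌊L⌋₊ + 1 : ℕ) : ℝ) := by
      push_cast
      exact (Nat.lt_floor_add_one L).le
    linarith
  have h2 : ∀ᶠ L : ℝ in atTop, Real.log (L + 1) ≤ 2 * ε * L := by
    have h3 : ∀ᶠ x : ℝ in atTop, |Real.log x| ≤ ε * |x| := by
      have := Real.isLittleO_log_id_atTop.bound hε
      simpa [Real.norm_eq_abs] using this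
    have h4 : Tendsto (fun L : ℝ => L + 1) atTop atTop := tendsto_atTop_add_const_right _ _ tendsto_id
    filter_upwards [h4.eventually h3, eventually_ge_atTop 1] with L hL hL1
    rw [abs_of_nonneg (by linarith : (0 : ℝ) ≤ L + 1)] at hL
    calc Real.log (L + 1) ≤ |Real.log (L + 1)| := le_abs_self _
      _ ≤ ε * (L + 1) := hL
      _ ≤ 2 * ε * L := by nlinarith
  filter_upwards [hL.eventually h1, hL.eventually h2, hL.eventually (eventually_gt_atTop 3),
    eventually_ge_atTop 1] with d hd1 hd2 hd3 hd4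
  obtain ⟨L, hLdef⟩ : ∃ L, L = Real.log d := ⟨_, rfl⟩
  rw [← hLdef] at hd1 hd2 hd3 ⊢
  classical
  have hex : ∃ y : ℕ, L / 2 < Chebyshev.theta (y : ℝ) := ⟨⌊L⌋₊ + 1, hd1⟩
  set y := Nat.find hex with hy
  have hy1 : L / 2 < Chebyshev.theta (y : ℝ) := Nat.find_spec hex
  have hy2 : y ≤ ⌊L⌋₊ + 1 := Nat.find_min' hex hd1
  obtain ⟨x, hx⟩ : ∃ x, y = x + 1 := by
    rcases y with _ | x
    · simp only [Nat.cast_zero, Chebyshev.theta_zero] at hy1
      linarith
    · exact ⟨x, rfl⟩
  have hx1 : Chebyshev.theta (x : ℝ) ≤ L / 2 :=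
    not_lt.1 (Nat.find_min hex (show x < Nat.find hex by rw [← hy, hx]; exact Nat.lt_succ_self x))
  have hxL : (x : ℝ) ≤ L := by
    have h3 : x ≤ ⌊L⌋₊ := by omega
    exact (Nat.le_floor_iff (by linarith)).1 h3
  rw [hx] at hy1
  have h5 := asy3_succ x
  have h6 : Real.log ((x : ℝ) + 1) ≤ Real.log (L + 1) :=
    Real.log_le_log (by positivity) (by linarith)
  have h7 : L / 2 - Real.log (L + 1) ≤ Chebyshev.theta (x : ℝ) := by linarith
  have hlogL : 0 < Real.log L := Real.log_pos (by linarith)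
  -- the number of primes
  have h8 : Chebyshev.theta (x : ℝ) ≤ Nat.primeCounting x * Real.log L := by
    refine (Chebyshev.theta_le_pi_mul_log x).trans ?_
    refine mul_le_mul_of_nonneg_left ?_ (Nat.cast_nonneg _)
    rcases Nat.eq_zero_or_pos x with h0 | h0
    · rw [h0]
      simpa using hlogL.le
    · exact Real.log_le_log (by exact_mod_cast h0) hxL
  have h9 : Real.log (primorial x : ℝ) = Chebyshev.theta (x : ℝ) := by
    rw [Chebyshev.theta_eq_log_primorial, Nat.floor_natCast]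
  have hpos : (0 : ℝ) < primorial x := by exact_mod_cast primorial_pos x
  have hd0 : (0 : ℝ) < d := by exact_mod_cast hd4
  have h10 : primorial x ≤ d := by
    have h11 : Real.log (primorial x : ℝ) ≤ Real.log d := by
      rw [h9, ← hLdef]
      linarith
    have h12 := (Real.log_le_log_iff hpos hd0).1 h11
    exact_mod_cast h12
  have h13 := le_mainTerm (d := d) (n := primorial x) (primorial_pos x) h10
  have h14 : (primorial x).primeFactors.card = Nat.primeCounting x := by
    rw [primorial_eq_pr, card_primeFactors_pr]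
  rw [h14, h9, ← hLdef] at h13
  refine le_trans ?_ h13
  rw [div_le_iff₀ hlogL]
  have h15 : L / 2 ≤ L - Chebyshev.theta (x : ℝ) := by linarith
  calc (1 / 4 - ε) * L ^ 2 ≤ (L / 2 - Real.log (L + 1)) * (L / 2) := by nlinarith
    _ ≤ Chebyshev.theta (x : ℝ) * (L / 2) := mul_le_mul_of_nonneg_right h7 (by linarith)
    _ ≤ (Nat.primeCounting x * Real.log L) * (L / 2) :=
        mul_le_mul_of_nonneg_right h8 (by linarith)
    _ ≤ (Nat.primeCounting x * Real.log L) * (L - Chebyshev.theta (x : ℝ)) :=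
        mul_le_mul_of_nonneg_left h15 (mul_nonneg (Nat.cast_nonneg _) hlogL.le)
    _ = Nat.primeCounting x * (L - Chebyshev.theta (x : ℝ)) * Real.log L := by ring

end Pool.Agent.TPer
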