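import Mathlib

/-! A sum over multiples with weights depending on valuations (note 2688 (6)). Induction on `S`: split by
the exact valuation `v` at `q`; the numbers with valuation `v` are among the multiples of `q^v m`. -/

namespace Pool.Agent.TPer

open Finset

theorem sum_le (S : Finset ℕ) (hS : ∀ q ∈ S, q.Prime) (f : ℕ → ℕ → ℝ) (hf : ∀ q v, 0 ≤ f q v)
    (C : ℕ → ℝ) (hC : ∀ q ∈ S, ∀ N : ℕ, ∑ v ∈ range N, f q v / (q : ℝ) ^ v ≤ C q)
    (D m : ℕ) (hm : 0 < m) (hmS : ∀ q ∈ S, ¬ q ∣ m) :
    ∑ x ∈ (Icc 1 D).filter (fun x => m ∣ x), ∏ q ∈ S, f q (padicValNat q x) ≤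
      (D : ℝ) / m * ∏ q ∈ S, C q := by
  classical
  induction S using Finset.induction_on generalizing m with
  | empty =>
    simp only [Finset.prod_empty, mul_one, Finset.sum_const, nsmul_eq_mul]
    have h1 : (Icc 1 D).filter (fun x => m ∣ x) = (Ioc 0 D).filter (fun x => m ∣ x) := by
      ext x
      simp only [Finset.mem_filter, Finset.mem_Icc, Finset.mem_Ioc]
      constructor
      · rintro ⟨⟨h1, h2⟩, h3⟩
        exact ⟨⟨by omega, h2⟩, h3⟩
      · rintro ⟨⟨h1, h2⟩, h3⟩
        exact ⟨⟨by omega, h2⟩, h3⟩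
    rw [h1, Nat.Ioc_filter_dvd_card_eq_div]
    exact Nat.cast_div_le
  | insert q S hqS ih =>
    have hq : q.Prime := hS q (Finset.mem_insert_self _ _)
    have hq1 : q ≠ 1 := hq.one_lt.ne'
    haveI : Fact q.Prime := ⟨hq⟩
    have hS' : ∀ q ∈ S, q.Prime := fun p hp => hS p (Finset.mem_insert_of_mem hp)
    have hC' : ∀ q ∈ S, ∀ N : ℕ, ∑ v ∈ range N, f q v / (q : ℝ) ^ v ≤ C q :=
      fun p hp => hC p (Finset.mem_insert_of_mem hp)
    have hC0 : ∀ p ∈ S, 0 ≤ C p := by
      intro p hp
      have := hC' p hp 0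
      simpa using this
    have hqm : ¬ q ∣ m := hmS q (Finset.mem_insert_self _ _)
    have hqr : (0 : ℝ) < q := by exact_mod_cast hq.pos
    have hmr : (0 : ℝ) < m := by exact_mod_cast hm
    -- one valuation
    have h1 : ∀ v : ℕ, ∑ x ∈ ((Icc 1 D).filter (fun x => m ∣ x)).filter
          (fun x => padicValNat q x = v), ∏ p ∈ S, f p (padicValNat p x) ≤
        (D : ℝ) / (q ^ v * m : ℕ) * ∏ p ∈ S, C p := by
      intro v
      refine le_trans ?_ (ih hS' hC' (q ^ v * m) (Nat.mul_pos (pow_pos hq.pos v) hm) ?_)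
      · refine Finset.sum_le_sum_of_subset_of_nonneg ?_ ?_
        · intro x hx
          rw [Finset.mem_filter, Finset.mem_filter] at hx
          rw [Finset.mem_filter]
          refine ⟨hx.1.1, ?_⟩
          refine Nat.Coprime.mul_dvd_of_dvd_of_dvd ?_ ?_ hx.1.2
          · exact Nat.Coprime.pow_left v ((Nat.Prime.coprime_iff_not_dvd hq).mpr hqm)
          · rw [← hx.2]
            exact pow_padicValNat_dvd
        · intro x _ _
          exact Finset.prod_nonneg fun p _ => hf p _
      · intro p hp hpd
        have hpp := hS' p hp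
        rcases (hpp.dvd_mul).mp hpd with h2 | h2
        · have h3 := hpp.dvd_of_dvd_pow h2
          have h4 := (Nat.prime_dvd_prime_iff_eq hpp hq).mp h3
          exact hqS (h4 ▸ hp)
        · exact hmS p (Finset.mem_insert_of_mem hp) h2
    have hmaps : ∀ x ∈ (Icc 1 D).filter (fun x => m ∣ x), padicValNat q x ∈ range (D + 1) := by
      intro x hx
      rw [Finset.mem_filter, Finset.mem_Icc] at hx
      rw [Finset.mem_range]
      have h2 : q ^ padicValNat q x ≤ x := Nat.le_of_dvd (by omega) pow_padicValNat_dvd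
      have h3 : padicValNat q x < q ^ padicValNat q x := Nat.lt_pow_self hq.one_lt
      omega
    rw [← Finset.sum_fiberwise_of_maps_to hmaps]
    have h2 : ∀ v ∈ range (D + 1), ∑ x ∈ ((Icc 1 D).filter (fun x => m ∣ x)).filter
          (fun x => padicValNat q x = v), ∏ p ∈ insert q S, f p (padicValNat p x) ≤
        (f q v / (q : ℝ) ^ v) * ((D : ℝ) / m * ∏ p ∈ S, C p) := by
      intro v _
      have h3 : ∑ x ∈ ((Icc 1 D).filter (fun x => m ∣ x)).filter
          (fun x => padicValNat q x = v), ∏ p ∈ insert q S, f p (padicValNat p x) =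
          f q v * ∑ x ∈ ((Icc 1 D).filter (fun x => m ∣ x)).filter
          (fun x => padicValNat q x = v), ∏ p ∈ S, f p (padicValNat p x) := by
        rw [Finset.mul_sum]
        refine Finset.sum_congr rfl fun x hx => ?_
        rw [Finset.prod_insert hqS, (Finset.mem_filter.mp hx).2]
      rw [h3]
      refine (mul_le_mul_of_nonneg_left (h1 v) (hf q v)).trans (le_of_eq ?_)
      push_cast
      field_simp
    refine (Finset.sum_le_sum h2).trans ?_
    rw [← Finset.sum_mul, Finset.prod_insert hqS]
    have h4 := hC q (Finset.mem_insert_self _ _) (D + 1)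
    have h5 : 0 ≤ (D : ℝ) / m * ∏ p ∈ S, C p :=
      mul_nonneg (by positivity) (Finset.prod_nonneg hC0)
    calc (∑ v ∈ range (D + 1), f q v / (q : ℝ) ^ v) * ((D : ℝ) / m * ∏ p ∈ S, C p)
        ≤ C q * ((D : ℝ) / m * ∏ p ∈ S, C p) := mul_le_mul_of_nonneg_right h4 h5
      _ = (D : ℝ) / m * (C q * ∏ p ∈ S, C p) := by ring

open Classical in
/-- The weights of the counting lemma: `J` the levels, `F v = q^(number of levels < v)` if `v` is not a
level and `0` otherwise; the sum is at most a geometric series (the `v` outside `J` are numbered by the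
number of `v' < v` outside `J`). -/
theorem weight_le {q : ℕ} (hq : 2 ≤ q) (J : Finset ℕ) (N : ℕ) :
    ∑ v ∈ range N, (if v ∈ J then (0 : ℝ) else (q : ℝ) ^ (J.filter (fun j => j < v)).card) /
      (q : ℝ) ^ v ≤ (q : ℝ) / (q - 1) := by
  have hqr : (0 : ℝ) < q := by exact_mod_cast (by omega : 0 < q)
  have hcard : ∀ N : ℕ, (J.filter (fun j => j < N)).card ≤ N := by
    intro N
    have h1 : J.filter (fun j => j < N) ⊆ range N := by
      intro j hj
      exact Finset.mem_range.mpr (Finset.mem_filter.mp hj).2
    simpa using Finset.card_le_card h1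
  have key : ∀ N : ℕ, ∑ v ∈ range N,
      (if v ∈ J then (0 : ℝ) else (q : ℝ) ^ (J.filter (fun j => j < v)).card) / (q : ℝ) ^ v =
      ∑ i ∈ range (N - (J.filter (fun j => j < N)).card), (1 / (q : ℝ)) ^ i := by
    intro N
    induction N with
    | zero => simp
    | succ N ih =>
      rw [Finset.sum_range_succ, ih]
      have h1 := hcard N
      by_cases hN : N ∈ J
      · have h2 : J.filter (fun j => j < N + 1) = insert N (J.filter (fun j => j < N)) := by
          ext j
          simp only [Finset.mem_filter, Finset.mem_insert]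
          constructor
          · rintro ⟨h3, h4⟩
            by_cases h5 : j = N
            · exact Or.inl h5
            · exact Or.inr ⟨h3, by omega⟩
          · rintro (h3 | h3)
            · rw [h3]
              exact ⟨hN, by omega⟩
            · exact ⟨h3.1, by omega⟩
        rw [h2, Finset.card_insert_of_notMem (by simp), if_pos hN, zero_div, add_zero]
        congr 2
        omega
      · have h2 : J.filter (fun j => j < N + 1) = J.filter (fun j => j < N) := by
          ext j
          simp only [Finset.mem_filter]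
          constructor
          · rintro ⟨h3, h4⟩
            refine ⟨h3, ?_⟩
            have h5 : j ≠ N := fun h => hN (h ▸ h3)
            omega
          · rintro ⟨h3, h4⟩
            exact ⟨h3, by omega⟩
        rw [h2, if_neg hN]
        have h3 : N + 1 - (J.filter (fun j => j < N)).card =
            (N - (J.filter (fun j => j < N)).card) + 1 := by omega
        rw [h3, Finset.sum_range_succ]
        congr 1
        have h4 : (q : ℝ) ^ N = (q : ℝ) ^ (J.filter (fun j => j < N)).card *
            (q : ℝ) ^ (N - (J.filter (fun j => j < N)).card) := by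
          rw [← pow_add]
          congr 1
          omega
        rw [h4, one_div, inv_pow]
        field_simp
  rw [key]
  generalize N - (J.filter (fun j => j < N)).card = g
  have hq1 : (1 : ℝ) < q := by exact_mod_cast (by omega : 1 < q)
  have h2 : ∀ g : ℕ, ∑ i ∈ range g, (1 / (q : ℝ)) ^ i =
      (q : ℝ) / (q - 1) - (q : ℝ) / (q - 1) * (1 / (q : ℝ)) ^ g := by
    intro g
    induction g with
    | zero => simp
    | succ g ih =>
      have h3 : (q : ℝ) - 1 ≠ 0 := by linarith
      rw [Finset.sum_range_succ, ih, pow_succ]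
      field_simp
      ring
  rw [h2]
  have h4 : (0 : ℝ) < (q : ℝ) - 1 := by linarith
  have h3 : (0 : ℝ) ≤ (q : ℝ) / (q - 1) * (1 / (q : ℝ)) ^ g := by positivity
  linarith

/-- The product of `q / (q - 1)` over `w` distinct primes is at most `w + 1`. -/
theorem prod_le (S : Finset ℕ) (hS : ∀ q ∈ S, 2 ≤ q) :
    ∏ q ∈ S, ((q : ℝ) / (q - 1)) ≤ S.card + 1 := by
  induction hn : S.card generalizing S with
  | zero =>
    rw [Finset.card_eq_zero] at hn
    subst hn
    simp
  | succ n ih =>
    have hne : S.Nonempty := by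
      rw [← Finset.card_pos]
      omega
    set m := S.max' hne with hm
    have hmS : m ∈ S := S.max'_mem hne
    have hsub : S ⊆ Finset.Icc 2 m := by
      intro x hx
      exact Finset.mem_Icc.mpr ⟨hS x hx, S.le_max' x hx⟩
    have hc := Finset.card_le_card hsub
    rw [hn, Nat.card_Icc] at hc
    have h2m := hS m hmS
    have hmn : n + 2 ≤ m := by omega
    have hr : ((n : ℝ) + 2) ≤ m := by exact_mod_cast hmn
    have h1 := ih (S.erase m) (fun q hq => hS q (Finset.mem_of_mem_erase hq))
      (by rw [Finset.card_erase_of_mem hmS, hn]; rfl)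
    rw [← Finset.mul_prod_erase S _ hmS]
    have hn0 : (0 : ℝ) ≤ n := Nat.cast_nonneg n
    have hm1 : (0 : ℝ) < (m : ℝ) - 1 := by linarith
    have h3 : (m : ℝ) / (m - 1) ≤ ((n : ℝ) + 2) / (n + 1) := by
      rw [div_le_div_iff₀ hm1 (by linarith)]
      nlinarith
    have h4 : (0 : ℝ) ≤ ∏ q ∈ S.erase m, ((q : ℝ) / (q - 1)) := by
      refine Finset.prod_nonneg fun q hq => ?_
      have h5 := hS q (Finset.mem_of_mem_erase hq)
      have h6 : (2 : ℝ) ≤ q := by exact_mod_cast h5
      have h7 : (0 : ℝ) < (q : ℝ) - 1 := by linarith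
      positivity
    calc (m : ℝ) / (m - 1) * ∏ q ∈ S.erase m, ((q : ℝ) / (q - 1))
        ≤ ((n : ℝ) + 2) / (n + 1) * (n + 1) :=
          mul_le_mul h3 h1 h4 (by positivity)
      _ = ((n + 1 : ℕ) : ℝ) + 1 := by
          push_cast
          field_simp
          ring

end Pool.Agent.TPer
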