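import Pool.Agent.TPer.Line
import Pool.Agent.TPer.SumB

/-! The counting lemma (note 2688 (6)). -/

namespace Pool.Agent.TPer

open Finset Pool.Agent.CMT

theorem cnt_modEq_succ {q j a a' : ℕ} (h1 : a' ≡ a [MOD q ^ j])
    (h2 : dig q j a' = dig q j a) : a' ≡ a [MOD q ^ (j + 1)] := by
  have key : ∀ x : ℕ, x % q ^ (j + 1) = x % q ^ j + q ^ j * (x / q ^ j % q) := by
    intro x
    rw [pow_succ, Nat.mod_mul]
  unfold Nat.ModEq at h1 ⊢
  unfold dig at h2
  rw [key, key, h1, h2]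

theorem cnt_dig_of_modEq {q j a a' : ℕ} (h : a' ≡ a [MOD q ^ (j + 1)]) :
    dig q j a' = dig q j a := by
  have key : ∀ x : ℕ, x / q ^ j % q = x % q ^ (j + 1) / q ^ j := by
    intro x
    rw [pow_succ, Nat.mod_mul_right_div_self]
  unfold Nat.ModEq at h
  unfold dig
  rw [key, key, h]

open Classical in
/-- The window through `a` with free digits `c`. -/
noncomputable def cwin (J : Finset (ℕ × ℕ)) (a : ℕ) (c : (x : ℕ × ℕ) → x ∈ J → ℕ) (q j x : ℕ) : ℕ :=
  if x = a % q ^ j then dig q j a else if h : (q, j) ∈ J then c (q, j) h else 0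

/-- Double counting over the windows through `a`: for `c` in `∏_{(q,j) ∈ J'} {0..q-1}`, `J'` = all levels
but `(g, l)`, take `s q j x = dig q j a` if `x = a % q^j` and `c (q, j)` otherwise. For each `c` and each
digit `i ≠ dig g l a` `line_exists` gives a point `a'` of the window with digit `i`, `a' = a` mod `g^l`
and collinear with `a`, so `a' = a` mod `K`. A given `a'` is in the window of `c` for at most
`∏ wt` of the `c`, `wt = q` if `a' = a` mod `q^(j+1)`, `0` if only mod `q^j`, `1` otherwise. -/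
theorem count_windows {M : ℕ} {A T : Finset ℕ} (h : Til M A T) {g l K : ℕ} (hg : g.Prime)
    (hl : Lev A g l) (hmax : ∀ j, Lev A g j → j ≤ l) (hC : Cst A g l K)
    (J : Finset (ℕ × ℕ)) (hJ : ∀ q j, (q, j) ∈ J ↔ q.Prime ∧ Lev A q j) {a : ℕ} (ha : a ∈ A) :
    (g - 1) * ∏ x ∈ J.erase (g, l), x.1 ≤
      ∑ a' ∈ A.filter (fun a' => a' ≠ a ∧ a' ≡ a [MOD K] ∧ a' ≡ a [MOD g ^ l]),
        ∏ x ∈ J.erase (g, l), (if a' ≡ a [MOD x.1 ^ (x.2 + 1)] then x.1
          else if a' ≡ a [MOD x.1 ^ x.2] then 0 else 1) := by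
  classical
  obtain ⟨J', hJ'⟩ : ∃ J', J' = J.erase (g, l) := ⟨_, rfl⟩
  rw [← hJ']
  have hmem : ∀ q j, (q, j) ∈ J' ↔ q.Prime ∧ Lev A q j ∧ ¬ (q = g ∧ j = l) := by
    intro q j
    rw [hJ', mem_erase, hJ, Ne, Prod.mk.injEq]
    tauto
  obtain ⟨P, hP⟩ : ∃ P, P = J'.pi (fun x => range x.1) := ⟨_, rfl⟩
  have hPc : P.card = ∏ x ∈ J', x.1 := by
    rw [hP, card_pi]
    exact prod_congr rfl fun x _ => card_range _
  obtain ⟨F, hF⟩ : ∃ F, F = A.filter (fun a' => a' ≠ a ∧ a' ≡ a [MOD K] ∧ a' ≡ a [MOD g ^ l]) :=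
    ⟨_, rfl⟩
  rw [← hF]
  obtain ⟨W, hW⟩ : ∃ W : ((x : ℕ × ℕ) → x ∈ J' → ℕ) → Finset ℕ,
      ∀ c, W c = win (fun q j => Lev A q j ∧ ¬ (q = g ∧ j = l)) (cwin J' a c) A :=
    ⟨_, fun _ => rfl⟩
  have hWm : ∀ c a', a' ∈ W c ↔ a' ∈ A ∧ ∀ q j, q.Prime → Lev A q j ∧ ¬ (q = g ∧ j = l) →
      dig q j a' = cwin J' a c q j (a' % q ^ j) := by
    intro c a'
    rw [hW, win, mem_filter]
  have hdl : dig g l a < g := Nat.mod_lt _ hg.pos
  have step1 : ∀ c ∈ P, g - 1 ≤ (F.filter (fun a' => a' ∈ W c)).card := by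
    intro c hc
    have hcr : ∀ x hx, c x hx < x.1 := by
      intro x hx
      rw [hP, mem_pi] at hc
      exact mem_range.1 (hc x hx)
    have hadm : Adm (cwin J' a c) := by
      intro q j x hq
      unfold cwin
      split_ifs with h1 h2
      · exact Nat.mod_lt _ hq.pos
      · exact hcr (q, j) h2
      · exact hq.pos
    have haW : a ∈ W c := by
      rw [hWm]
      refine ⟨ha, fun q j _ _ => ?_⟩
      unfold cwin
      rw [if_pos rfl]
    have hex : ∀ i ∈ (range g).erase (dig g l a), ∃ a' ∈ F.filter (fun a' => a' ∈ W c),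
        dig g l a' = i := by
      intro i hi
      rw [mem_erase, mem_range] at hi
      rw [hW] at haW
      obtain ⟨a', ha', hmod, hdig⟩ := line_exists h hg hl hmax (cwin J' a c) hadm haW hi.2
      rw [← hW] at ha'
      refine ⟨a', ?_, hdig⟩
      have ha'' := (hWm c a').1 ha'
      have hcoll : Coll A g l a a' := by
        intro q j hq hLj hne hm
        have h1 := ha''.2 q j hq ⟨hLj, hne⟩
        unfold cwin at h1
        rw [if_pos (show a' % q ^ j = a % q ^ j from hm.symm)] at h1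
        exact (cnt_modEq_succ hm.symm h1).symm
      have hK := hC a ha a' ha''.1 hcoll
      rw [mem_filter]
      refine ⟨?_, ha'⟩
      rw [hF, mem_filter]
      refine ⟨ha''.1, ?_, hK.symm, hmod⟩
      rintro rfl
      exact hi.1 hdig.symm
    choose! φ hφ1 hφ2 using hex
    calc g - 1 = ((range g).erase (dig g l a)).card := by
          rw [card_erase_of_mem (mem_range.2 hdl), card_range]
      _ ≤ _ := card_le_card_of_injOn φ (fun i hi => hφ1 i hi) (by
          intro i hi i' hi' hii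
          have h1 := hφ2 i hi
          rw [hii, hφ2 i' hi'] at h1
          exact h1.symm)
  have step2 : ∀ a' ∈ F, (P.filter (fun c => a' ∈ W c)).card ≤
      ∏ x ∈ J', (if a' ≡ a [MOD x.1 ^ (x.2 + 1)] then x.1
          else if a' ≡ a [MOD x.1 ^ x.2] then 0 else 1) := by
    intro a' ha'
    have hsub : P.filter (fun c => a' ∈ W c) ⊆ J'.pi (fun x =>
        if a' ≡ a [MOD x.1 ^ (x.2 + 1)] then range x.1
          else if a' ≡ a [MOD x.1 ^ x.2] then ∅ else {dig x.1 x.2 a'}) := by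
      intro c hc
      rw [mem_filter, hP, mem_pi, hWm] at hc
      rw [mem_pi]
      rintro ⟨q, j⟩ hx
      have hx' := (hmem q j).1 hx
      have h1 := hc.2.2 q j hx'.1 hx'.2
      simp only
      unfold cwin at h1
      split_ifs with h2 h3
      · exact hc.1 (q, j) hx
      · exfalso
        rw [if_pos (show a' % q ^ j = a % q ^ j from h3)] at h1
        exact h2 (cnt_modEq_succ h3 h1)
      · rw [if_neg (show ¬ a' % q ^ j = a % q ^ j from h3), dif_pos hx] at h1
        rw [mem_singleton, h1]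
    refine (card_le_card hsub).trans (le_of_eq ?_)
    rw [card_pi]
    refine prod_congr rfl fun x _ => ?_
    split_ifs
    · exact card_range _
    · exact card_empty
    · exact card_singleton _
  calc (g - 1) * ∏ x ∈ J', x.1 = ∑ c ∈ P, (g - 1) := by
        rw [sum_const, hPc, smul_eq_mul, mul_comm]
    _ ≤ ∑ c ∈ P, (F.filter (fun a' => a' ∈ W c)).card := sum_le_sum step1
    _ = ∑ a' ∈ F, (P.filter (fun c => a' ∈ W c)).card :=
        sum_card_bipartiteAbove_eq_sum_card_bipartiteBelow (fun c a' => a' ∈ W c)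
    _ ≤ _ := sum_le_sum step2

/-- The product of the weights at one prime. -/
theorem cnt_wt (q v : ℕ) (hq : q.Prime) (J : Finset ℕ) {x : ℕ} (hx : x ≠ 0)
    (hv : padicValNat q x = v) :
    ∏ j ∈ J, (if q ^ (j + 1) ∣ x then q else if q ^ j ∣ x then 0 else 1) =
      if v ∈ J then 0 else q ^ (J.filter (fun j => j < v)).card := by
  have : Fact q.Prime := ⟨hq⟩
  have hdv : ∀ i, q ^ i ∣ x ↔ i ≤ v := by
    intro i
    rw [← hv]
    exact padicValNat_dvd_iff_le hx
  simp only [hdv]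
  split_ifs with h
  · refine prod_eq_zero h ?_
    rw [if_neg (by omega), if_pos le_rfl]
  · rw [← prod_const, prod_filter]
    refine prod_congr rfl fun j hj => ?_
    have hjv : j ≠ v := fun h1 => h (h1 ▸ hj)
    by_cases h1 : j < v
    · rw [if_pos h1, if_pos (by omega)]
    · rw [if_neg h1, if_neg (by omega), if_neg (by omega)]

/-- The sum over the differences. -/
theorem cnt_sum (S : Finset ℕ) (hS : ∀ q ∈ S, q.Prime) (Jq : ℕ → Finset ℕ) (d m : ℕ) (hm : 0 < m)
    (hmS : ∀ q ∈ S, ¬ q ∣ m) (F : Finset ℕ) (a : ℕ) (ha : a ≤ d) (hF : ∀ a' ∈ F, a' ≤ d ∧ a' ≠ a ∧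
      m ∣ Nat.dist a' a) :
    ∑ a' ∈ F, ∏ q ∈ S, (if padicValNat q (Nat.dist a' a) ∈ Jq q then (0 : ℝ) else
      (q : ℝ) ^ ((Jq q).filter (fun j => j < padicValNat q (Nat.dist a' a))).card) ≤
      2 * ((d : ℝ) / m * ∏ q ∈ S, ((q : ℝ) / (q - 1))) := by
  classical
  obtain ⟨f, hf⟩ : ∃ f : ℕ → ℕ → ℝ, ∀ q v, f q v = if v ∈ Jq q then (0 : ℝ) else
      (q : ℝ) ^ ((Jq q).filter (fun j => j < v)).card := ⟨_, fun _ _ => rfl⟩
  have hf0 : ∀ q v, 0 ≤ f q v := by
    intro q v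
    rw [hf]
    split_ifs
    · exact le_rfl
    · positivity
  have hC : ∀ q ∈ S, ∀ N : ℕ, ∑ v ∈ range N, f q v / (q : ℝ) ^ v ≤
      (fun q : ℕ => (q : ℝ) / (q - 1)) q := by
    intro q hq N
    simp only [hf]
    exact weight_le (hS q hq).two_le (Jq q) N
  have hsum := sum_le S hS f hf0 (fun q : ℕ => (q : ℝ) / (q - 1)) hC d m hm hmS
  simp only [← hf]
  have hφ0 : ∀ x, 0 ≤ ∏ q ∈ S, f q (padicValNat q x) := fun x => prod_nonneg fun q _ => hf0 q _
  have hlt : ∑ a' ∈ F.filter (fun a' => a' < a), ∏ q ∈ S, f q (padicValNat q (Nat.dist a' a)) ≤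
      (d : ℝ) / m * ∏ q ∈ S, ((q : ℝ) / (q - 1)) := by
    refine le_trans ?_ hsum
    rw [← sum_image (s := F.filter (fun a' => a' < a)) (g := fun a' => Nat.dist a' a)
      (f := fun x => ∏ q ∈ S, f q (padicValNat q x))]
    · refine sum_le_sum_of_subset_of_nonneg ?_ fun x _ _ => hφ0 x
      intro x hx
      obtain ⟨a', ha', rfl⟩ := mem_image.1 hx
      rw [mem_filter] at ha'
      have h1 := hF a' ha'.1
      rw [mem_filter, mem_Icc]
      have h2 : Nat.dist a' a = a - a' := Nat.dist_eq_sub_of_le ha'.2.le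
      refine ⟨⟨?_, ?_⟩, h1.2.2⟩
      · rw [h2]
        omega
      · rw [h2]
        omega
    · intro x hx y hy hxy
      rw [mem_coe, mem_filter] at hx hy
      simp only [Nat.dist_eq_sub_of_le hx.2.le, Nat.dist_eq_sub_of_le hy.2.le] at hxy
      omega
  have hgt : ∑ a' ∈ F.filter (fun a' => ¬ a' < a), ∏ q ∈ S, f q (padicValNat q (Nat.dist a' a)) ≤
      (d : ℝ) / m * ∏ q ∈ S, ((q : ℝ) / (q - 1)) := by
    refine le_trans ?_ hsum
    rw [← sum_image (s := F.filter (fun a' => ¬ a' < a)) (g := fun a' => Nat.dist a' a)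
      (f := fun x => ∏ q ∈ S, f q (padicValNat q x))]
    · refine sum_le_sum_of_subset_of_nonneg ?_ fun x _ _ => hφ0 x
      intro x hx
      obtain ⟨a', ha', rfl⟩ := mem_image.1 hx
      rw [mem_filter] at ha'
      have h1 := hF a' ha'.1
      rw [mem_filter, mem_Icc]
      have h2 : Nat.dist a' a = a' - a := Nat.dist_eq_sub_of_le_right (not_lt.1 ha'.2)
      refine ⟨⟨?_, ?_⟩, h1.2.2⟩
      · rw [h2]
        omega
      · rw [h2]
        omega
    · intro x hx y hy hxy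
      rw [mem_coe, mem_filter] at hx hy
      simp only [Nat.dist_eq_sub_of_le_right (not_lt.1 hx.2),
        Nat.dist_eq_sub_of_le_right (not_lt.1 hy.2)] at hxy
      omega
  rw [← sum_filter_add_sum_filter_not F (fun a' => a' < a)]
  linarith

theorem cnt_dist_dvd {m a a' : ℕ} : m ∣ Nat.dist a' a ↔ a' ≡ a [MOD m] := by
  rcases le_total a' a with h | h
  · rw [Nat.dist_eq_sub_of_le h, Nat.modEq_iff_dvd' h]
  · rw [Nat.dist_eq_sub_of_le_right h, Nat.ModEq.comm, Nat.modEq_iff_dvd' h]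

/-- The counting lemma. From `count_windows`, with `n = ∏_{(q,j) ∈ J} q` (`card_levels`):
`(g - 1) n / g ≤ g^(e_g - 1) ∑_δ ∏_{q ≠ g} F_q(v_q δ)`, the sum over `0 < |δ| ≤ d`, `K g^l ∣ δ`; for `q ∣ K` the
weight is `q^(e_q)`; for the other `q` use `sum_le`, `weight_le` (`C q = q/(q-1)`); `g^l ≥ g^(e_g - 1)`;
finally `g/(g-1) ∏ q/(q-1) ≤ w + 1` (`prod_le`). -/
theorem cnt {M : ℕ} {A T : Finset ℕ} (h : Til M A T) {g l K d : ℕ} (hg : g.Prime)
    (hl : Lev A g l) (hmax : ∀ j, Lev A g j → j ≤ l) (hC : Cst A g l K) (hK : 0 < K)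
    (hgK : ¬ g ∣ K) (hKl : ∀ q j, q.Prime → q ∣ K → Lev A q j → q ^ (j + 1) ∣ K)
    (hd : ∀ a ∈ A, a ≤ d) :
    K * A.card ≤ 2 * (A.card.primeFactors.card + 1) * d *
      ∏ q ∈ A.card.primeFactors.filter (fun q => q ∣ K), q ^ (A.card.factorization q) := by
  classical
  have hM := h.1
  have hne : A.Nonempty := by
    have h1 := h.2 0
    obtain ⟨x, hx⟩ := card_pos.1 (h1 ▸ Nat.one_pos)
    exact ⟨x.1, (mem_product.1 (mem_filter.1 hx).1).1⟩
  have hn0 : A.card ≠ 0 := card_ne_zero.2 hne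
  obtain ⟨a, ha⟩ := hne
  -- the levels
  obtain ⟨Jq, hJq⟩ : ∃ Jq : ℕ → Finset ℕ, ∀ q, Jq q = (range (M + 1)).filter (fun j => Lev A q j) :=
    ⟨_, fun _ => rfl⟩
  have hJm : ∀ q, q.Prime → ∀ j, j ∈ Jq q ↔ Lev A q j := by
    intro q hq j
    rw [hJq, mem_filter, mem_range]
    refine ⟨fun h1 => h1.2, fun h1 => ⟨?_, h1⟩⟩
    have h2 := Nat.le_of_dvd hM (lev_dvd h hq h1)
    have h3 : j + 1 < q ^ (j + 1) := Nat.lt_pow_self hq.one_lt
    omega
  have hfac : ∀ q, q.Prime → A.card.factorization q = (Jq q).card := fun q hq =>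
    card_levels h hq (Jq q) (hJm q hq)
  obtain ⟨pF, hpF⟩ : ∃ pF, pF = A.card.primeFactors := ⟨_, rfl⟩
  have hpFp : ∀ q ∈ pF, q.Prime := fun q hq => Nat.prime_of_mem_primeFactors (hpF ▸ hq)
  have hpFm : ∀ q j, q.Prime → Lev A q j → q ∈ pF := by
    intro q j hq hL
    rw [hpF, ← Nat.support_factorization, Finsupp.mem_support_iff, hfac q hq]
    exact card_ne_zero.2 ⟨j, (hJm q hq j).2 hL⟩
  have hgF : g ∈ pF := hpFm g l hg hl
  obtain ⟨J, hJ⟩ : ∃ J : Finset (ℕ × ℕ), J = pF.biUnion (fun q => (Jq q).image (fun j => (q, j))) :=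
    ⟨_, rfl⟩
  have hJ' : ∀ q j, (q, j) ∈ J ↔ q.Prime ∧ Lev A q j := by
    intro q j
    rw [hJ, mem_biUnion]
    constructor
    · rintro ⟨q', hq', h1⟩
      obtain ⟨j', hj', h2⟩ := mem_image.1 h1
      rw [Prod.mk.injEq] at h2
      obtain ⟨rfl, rfl⟩ := h2
      exact ⟨hpFp q' hq', (hJm q' (hpFp q' hq') j').1 hj'⟩
    · rintro ⟨hq, hL⟩
      exact ⟨q, hpFm q j hq hL, mem_image.2 ⟨j, (hJm q hq j).2 hL, rfl⟩⟩
  have hprod : ∀ φ : ℕ × ℕ → ℕ, ∏ x ∈ J.erase (g, l), φ x =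
      (∏ j ∈ (Jq g).erase l, φ (g, j)) * ∏ q ∈ pF.erase g, ∏ j ∈ Jq q, φ (q, j) := by
    intro φ
    have h1 : ∏ x ∈ J.erase (g, l), φ x = ∏ x ∈ J, (if x = (g, l) then 1 else φ x) := by
      rw [← prod_erase J (a := (g, l)) (by rw [if_pos rfl])]
      refine prod_congr rfl fun x hx => ?_
      rw [if_neg (mem_erase.1 hx).1]
    rw [h1, hJ, prod_biUnion, ← mul_prod_erase pF _ hgF]
    · congr 1
      · rw [prod_image (by intro x _ y _ hxy; exact (Prod.mk.inj hxy).2)]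
        rw [← prod_erase (Jq g) (a := l) (by rw [if_pos rfl])]
        refine prod_congr rfl fun j hj => ?_
        rw [if_neg]
        intro h2
        exact (mem_erase.1 hj).1 (Prod.mk.inj h2).2
      · refine prod_congr rfl fun q hq => ?_
        rw [prod_image (by intro x _ y _ hxy; exact (Prod.mk.inj hxy).2)]
        refine prod_congr rfl fun j _ => ?_
        rw [if_neg]
        intro h2
        exact (mem_erase.1 hq).1 (Prod.mk.inj h2).1
    · intro q _ q' _ hqq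
      rw [Function.onFun, disjoint_left]
      intro x hx hx'
      obtain ⟨j, _, rfl⟩ := mem_image.1 hx
      obtain ⟨j', _, h2⟩ := mem_image.1 hx'
      exact hqq (Prod.mk.inj h2).1.symm
  have hlJ : l ∈ Jq g := (hJm g hg l).2 hl
  have hcount := count_windows h hg hl hmax hC J hJ' ha
  rw [hprod] at hcount
  simp only [hprod] at hcount
  obtain ⟨e, he⟩ : ∃ e, e = (Jq g).card := ⟨_, rfl⟩
  have he1 : 1 ≤ e := he ▸ card_pos.2 ⟨l, hlJ⟩
  have hel : e ≤ l + 1 := by
    rw [he, ← card_range (l + 1)]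
    refine card_le_card fun j hj => ?_
    rw [mem_range]
    have := hmax j ((hJm g hg j).1 hj)
    omega
  have hce : ((Jq g).erase l).card = e - 1 := by rw [card_erase_of_mem hlJ, he]
  obtain ⟨S, hS⟩ : ∃ S, S = (pF.erase g).filter (fun q => ¬ q ∣ K) := ⟨_, rfl⟩
  obtain ⟨R, hR⟩ : ∃ R, R = (pF.erase g).filter (fun q => q ∣ K) := ⟨_, rfl⟩
  obtain ⟨F, hF⟩ : ∃ F, F = A.filter (fun a' => a' ≠ a ∧ a' ≡ a [MOD K] ∧ a' ≡ a [MOD g ^ l]) :=
    ⟨_, rfl⟩
  rw [← hF] at hcount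
  have hterm : ∀ a' ∈ F, (∏ j ∈ (Jq g).erase l, (if a' ≡ a [MOD g ^ (j + 1)] then g
      else if a' ≡ a [MOD g ^ j] then 0 else 1)) * (∏ q ∈ pF.erase g, ∏ j ∈ Jq q,
      (if a' ≡ a [MOD q ^ (j + 1)] then q else if a' ≡ a [MOD q ^ j] then 0 else 1)) =
      g ^ (e - 1) * ((∏ q ∈ R, q ^ (Jq q).card) * ∏ q ∈ S,
        (if padicValNat q (Nat.dist a' a) ∈ Jq q then 0 else
          q ^ ((Jq q).filter (fun j => j < padicValNat q (Nat.dist a' a))).card)) := by
    intro a' ha'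
    rw [hF, mem_filter] at ha'
    have hdist : Nat.dist a' a ≠ 0 := by
      intro h1
      exact ha'.2.1 (Nat.eq_of_dist_eq_zero h1)
    congr 1
    · rw [← hce, ← prod_const]
      refine prod_congr rfl fun j hj => ?_
      rw [mem_erase] at hj
      have h1 := hmax j ((hJm g hg j).1 hj.2)
      rw [if_pos]
      exact ha'.2.2.2.of_dvd (pow_dvd_pow g (by omega))
    · rw [← prod_filter_mul_prod_filter_not (pF.erase g) (fun q => q ∣ K), ← hR, ← hS]
      congr 1
      · refine prod_congr rfl fun q hq => ?_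
        rw [hR, mem_filter, mem_erase] at hq
        rw [← prod_const]
        refine prod_congr rfl fun j hj => ?_
        rw [if_pos]
        exact ha'.2.2.1.of_dvd (hKl q j (hpFp q hq.1.2) hq.2 ((hJm q (hpFp q hq.1.2) j).1 hj))
      · refine prod_congr rfl fun q hq => ?_
        rw [hS, mem_filter, mem_erase] at hq
        rw [← cnt_wt q _ (hpFp q hq.1.2) (Jq q) hdist rfl]
        refine prod_congr rfl fun j _ => ?_
        simp only [cnt_dist_dvd]
  rw [sum_congr rfl hterm, ← mul_sum, prod_const, hce] at hcount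
  -- cancel `g ^ (e - 1)`
  have hcount2 : (g - 1) * ∏ q ∈ pF.erase g, q ^ (Jq q).card ≤
      (∏ q ∈ R, q ^ (Jq q).card) * ∑ a' ∈ F, ∏ q ∈ S,
        (if padicValNat q (Nat.dist a' a) ∈ Jq q then 0 else
          q ^ ((Jq q).filter (fun j => j < padicValNat q (Nat.dist a' a))).card) := by
    have h1 : g ^ (e - 1) * ((g - 1) * ∏ q ∈ pF.erase g, q ^ (Jq q).card) ≤
        g ^ (e - 1) * ((∏ q ∈ R, q ^ (Jq q).card) * ∑ a' ∈ F, ∏ q ∈ S,
        (if padicValNat q (Nat.dist a' a) ∈ Jq q then 0 else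
          q ^ ((Jq q).filter (fun j => j < padicValNat q (Nat.dist a' a))).card)) := by
      rw [← mul_sum] at hcount
      refine le_trans (le_of_eq ?_) hcount
      have h2 : ∀ q ∈ pF.erase g, ∏ j ∈ Jq q, q = q ^ (Jq q).card := fun q _ => prod_const _
      rw [prod_congr rfl h2]
      ring
    exact Nat.le_of_mul_le_mul_left h1 (pow_pos hg.pos _)
  obtain ⟨P, hP⟩ : ∃ P, P = ∏ q ∈ pF.erase g, q ^ (Jq q).card := ⟨_, rfl⟩
  obtain ⟨N, hN⟩ : ∃ N, N = ∏ q ∈ R, q ^ (Jq q).card := ⟨_, rfl⟩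
  rw [← hP, ← hN] at hcount2
  have hgl : 0 < g ^ l := pow_pos hg.pos l
  have hm : 0 < K * g ^ l := Nat.mul_pos hK hgl
  have hcop : K.Coprime (g ^ l) := ((hg.coprime_iff_not_dvd.2 hgK).symm).pow_right l
  have hsum := cnt_sum S (fun q hq => by
      rw [hS, mem_filter, mem_erase] at hq
      exact hpFp q hq.1.2) Jq d (K * g ^ l) hm (fun q hq => by
      rw [hS, mem_filter, mem_erase] at hq
      intro h1
      have hqp := hpFp q hq.1.2
      rcases (Nat.Prime.dvd_mul hqp).1 h1 with h2 | h2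
      · exact hq.2 h2
      · exact hq.1.1 ((Nat.prime_dvd_prime_iff_eq hqp hg).1 (hqp.dvd_of_dvd_pow h2))) F a (hd a ha)
      (fun a' ha' => by
      rw [hF, mem_filter] at ha'
      refine ⟨hd a' ha'.1, ha'.2.1, ?_⟩
      exact hcop.mul_dvd_of_dvd_of_dvd (cnt_dist_dvd.2 ha'.2.2.1) (cnt_dist_dvd.2 ha'.2.2.2))
  have hgS : g ∉ S := by
    rw [hS, mem_filter, mem_erase]
    exact fun h1 => h1.1.1 rfl
  have hcount3 : ((((g - 1) * P * (K * g ^ l) : ℕ)) : ℝ) ≤
      2 * d * N * ∏ q ∈ S, ((q : ℝ) / (q - 1)) := by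
    have h1 : ((((g - 1) * P : ℕ)) : ℝ) ≤
        (N : ℝ) * (2 * ((d : ℝ) / (K * g ^ l : ℕ) * ∏ q ∈ S, ((q : ℝ) / (q - 1)))) := by
      have h2 : ((((g - 1) * P : ℕ)) : ℝ) ≤ ((N * ∑ a' ∈ F, ∏ q ∈ S,
        (if padicValNat q (Nat.dist a' a) ∈ Jq q then 0 else
          q ^ ((Jq q).filter (fun j => j < padicValNat q (Nat.dist a' a))).card) : ℕ) : ℝ) := by
        exact_mod_cast hcount2
      refine h2.trans ?_
      rw [Nat.cast_mul]
      refine mul_le_mul_of_nonneg_left ?_ (Nat.cast_nonneg N)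
      refine le_trans (le_of_eq ?_) hsum
      push_cast
      rfl
    have hmr : (0 : ℝ) < ((K * g ^ l : ℕ) : ℝ) := by exact_mod_cast hm
    have h3 := mul_le_mul_of_nonneg_right h1 hmr.le
    have h4 : (N : ℝ) * (2 * ((d : ℝ) / (K * g ^ l : ℕ) * ∏ q ∈ S, ((q : ℝ) / (q - 1)))) *
        ((K * g ^ l : ℕ) : ℝ) = 2 * d * N * ∏ q ∈ S, ((q : ℝ) / (q - 1)) := by
      have hmr' := hmr.ne'
      generalize ((K * g ^ l : ℕ) : ℝ) = m' at hmr' ⊢
      field_simp
    rw [h4] at h3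
    refine le_trans (le_of_eq ?_) h3
    push_cast
    ring
  have hScard : S.card + 1 ≤ pF.card := by
    have h1 : S.card ≤ (pF.erase g).card := by
      rw [hS]
      exact card_filter_le _ _
    rw [card_erase_of_mem hgF] at h1
    have h2 : 0 < pF.card := card_pos.2 ⟨g, hgF⟩
    omega
  have hRf : A.card.primeFactors.filter (fun q => q ∣ K) = R := by
    rw [hR, ← hpF]
    ext q
    simp only [mem_filter, mem_erase]
    constructor
    · rintro ⟨h1, h2⟩
      refine ⟨⟨?_, h1⟩, h2⟩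
      rintro rfl
      exact hgK h2
    · rintro ⟨⟨_, h1⟩, h2⟩
      exact ⟨h1, h2⟩
  have hNe : ∏ q ∈ A.card.primeFactors.filter (fun q => q ∣ K), q ^ (A.card.factorization q) = N := by
    rw [hRf, hN]
    refine prod_congr rfl fun q hq => ?_
    rw [hR, mem_filter, mem_erase] at hq
    rw [hfac q (hpFp q hq.1.2)]
  have hn : A.card = g ^ e * P := by
    have h1 : A.card = ∏ q ∈ pF, q ^ (A.card.factorization q) := by
      conv_lhs => rw [← Nat.prod_factorization_pow_eq_self hn0]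
      rw [Finsupp.prod, Nat.support_factorization, hpF]
    rw [h1, ← mul_prod_erase pF _ hgF, hfac g hg, ← he, hP]
    congr 1
    refine prod_congr rfl fun q hq => ?_
    rw [hfac q (hpFp q (mem_erase.1 hq).2)]
  rw [hNe, ← hpF]
  have hge : g ^ e ≤ g * g ^ l := by
    rw [← pow_succ']
    exact Nat.pow_le_pow_right hg.pos hel
  have hgr : (1 : ℝ) < g := by exact_mod_cast hg.one_lt
  have hg1 : (((g - 1 : ℕ)) : ℝ) = (g : ℝ) - 1 := by
    rw [Nat.cast_sub hg.one_lt.le, Nat.cast_one]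
  have hpl := prod_le (insert g S) (fun q hq => by
    rcases mem_insert.1 hq with h1 | h1
    · rw [h1]
      exact hg.two_le
    · rw [hS, mem_filter, mem_erase] at h1
      exact (hpFp q h1.1.2).two_le)
  rw [prod_insert hgS, card_insert_of_notMem hgS] at hpl
  have hcardr : (((S.card + 1 : ℕ)) : ℝ) ≤ (pF.card : ℝ) := by exact_mod_cast hScard
  have hfin : ((K * A.card : ℕ) : ℝ) ≤ ((2 * (pF.card + 1) * d * N : ℕ) : ℝ) := by
    calc ((K * A.card : ℕ) : ℝ) ≤ ((K * ((g * g ^ l) * P) : ℕ) : ℝ) := by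
          rw [hn]
          exact_mod_cast Nat.mul_le_mul_left _ (Nat.mul_le_mul_right _ hge)
      _ = ((g : ℝ) / (g - 1)) * (((g - 1) * P * (K * g ^ l) : ℕ) : ℝ) := by
          push_cast
          rw [hg1]
          have h0 : (g : ℝ) - 1 ≠ 0 := by linarith
          field_simp
      _ ≤ ((g : ℝ) / (g - 1)) * (2 * d * N * ∏ q ∈ S, ((q : ℝ) / (q - 1))) := by
          refine mul_le_mul_of_nonneg_left hcount3 (div_nonneg ?_ ?_) <;> linarith
      _ = 2 * d * N * ((g : ℝ) / (g - 1) * ∏ q ∈ S, ((q : ℝ) / (q - 1))) := by ring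
      _ ≤ 2 * d * N * ((pF.card : ℝ) + 1) := by
          refine mul_le_mul_of_nonneg_left ?_ (by positivity)
          linarith
      _ = ((2 * (pF.card + 1) * d * N : ℕ) : ℝ) := by
          push_cast
          ring
  exact_mod_cast hfin

end Pool.Agent.TPer
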