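import Pool.Agent.CMT.Defs

/-!
Maximal period of complements of integer tiles (MP_adb430): definitions.
Blueprint: note 2688 (helper78) on top of note 2669 (helper86, Coven-Meyerowitz).
All tilings are `Til M A T` of `Pool.Agent.CMT` (finite sets of naturals, `A + T = Z_M` direct).
Levels are numbered from `0`: level `j` at the prime `q` is the prime power `q^(j+1)`.
-/

namespace Pool.Agent.TPer

open Finset Pool.Agent.CMT

/-- Digit `j` of `a` in base `q` (digit `0` is the lowest). -/
def dig (q j a : ℕ) : ℕ := a / q ^ j % q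

/-- `j` is a level of `A` at `q`: the cyclotomic polynomial of `q^(j+1)` divides the mask of `A`. -/
def Lev (A : Finset ℕ) (q j : ℕ) : Prop := Polynomial.cyclotomic (q ^ (j + 1)) ℤ ∣ mask A

/-- Cut by a section: digit `k` is the function `s` of the lower residue. -/
def cut (p k : ℕ) (s : ℕ → ℕ) (A : Finset ℕ) : Finset ℕ :=
  A.filter (fun a => dig p k a = s (a % p ^ k))

/-- Admissible window functions: `s q j x` is a digit in base `q`. -/
def Adm (s : ℕ → ℕ → ℕ → ℕ) : Prop := ∀ q j x, q.Prime → s q j x < q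

open Classical in
/-- The elements of `A` in the window `s` at the levels in `S`. -/
noncomputable def win (S : ℕ → ℕ → Prop) (s : ℕ → ℕ → ℕ → ℕ) (A : Finset ℕ) : Finset ℕ :=
  A.filter (fun a => ∀ q j, q.Prime → S q j → dig q j a = s q j (a % q ^ j))

/-- `T` (a subset of `Z_M`) is not invariant under all multiples of `M / p`. -/
def NP (T : Finset ℕ) (M p : ℕ) : Prop :=
  ∃ b ∈ T, ∃ i : ℤ, ∀ b' ∈ T, ¬ (M : ℤ) ∣ (b' : ℤ) - b - i * ((M / p : ℕ) : ℤ)

/-- `a`, `a'` lie on a common line of `A` in the direction `(g, l)`: at every other level of `A`,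
if the lower residues agree then the digits agree. -/
def Coll (A : Finset ℕ) (g l a a' : ℕ) : Prop :=
  ∀ q j, q.Prime → Lev A q j → ¬ (q = g ∧ j = l) → a ≡ a' [MOD q ^ j] → a ≡ a' [MOD q ^ (j + 1)]

/-- All lines of `A` in the direction `(g, l)` are constant modulo `K`. -/
def Cst (A : Finset ℕ) (g l K : ℕ) : Prop :=
  ∀ a ∈ A, ∀ a' ∈ A, Coll A g l a a' → a ≡ a' [MOD K]

end Pool.Agent.TPer
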