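import Pool.Agent.TPer.Defs

/-! Digits. -/

namespace Pool.Agent.TPer

open Finset Pool.Agent.CMT

theorem dig_lt {q : ℕ} (hq : q.Prime) (j a : ℕ) : dig q j a < q :=
  Nat.mod_lt _ hq.pos

/-- There is a number with prescribed lower residue and digit. -/
private theorem Dig_mod_add {q : ℕ} (j a : ℕ) :
    a % q ^ (j + 1) = a % q ^ j + q ^ j * dig q j a := by
  unfold dig
  rw [pow_succ, Nat.mod_mul]

theorem modEq_succ {q : ℕ} (hq : q.Prime) (j a b : ℕ) :
    a ≡ b [MOD q ^ (j + 1)] ↔ a ≡ b [MOD q ^ j] ∧ dig q j a = dig q j b := by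
  constructor
  · intro h
    have h1 : a ≡ b [MOD q ^ j] := h.of_dvd (pow_dvd_pow q (Nat.le_succ j))
    refine ⟨h1, ?_⟩
    have h2 : a % q ^ (j + 1) = b % q ^ (j + 1) := h
    rw [Dig_mod_add, Dig_mod_add, show a % q ^ j = b % q ^ j from h1] at h2
    exact Nat.eq_of_mul_eq_mul_left (Nat.pow_pos hq.pos) (Nat.add_left_cancel h2)
  · rintro ⟨h1, h2⟩
    show a % q ^ (j + 1) = b % q ^ (j + 1)
    rw [Dig_mod_add, Dig_mod_add, show a % q ^ j = b % q ^ j from h1, h2]

theorem dig_congr {q j m a b : ℕ} (hq : q.Prime) (hj : j < m) (h : a ≡ b [MOD q ^ m]) :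
    dig q j a = dig q j b :=
  ((modEq_succ hq j a b).1 (h.of_dvd (pow_dvd_pow q hj))).2

/-- There is a number with prescribed lower residue and digit. -/
theorem mod_add_dig {q : ℕ} (hq : q.Prime) (j a : ℕ) :
    a % q ^ (j + 1) = a % q ^ j + q ^ j * dig q j a :=
  Dig_mod_add j a

end Pool.Agent.TPer
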