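import Pool.Agent.TPer.Dig
import Pool.Agent.CMT.Lift

/-! Levels and equidistribution: `Φ_{q^(j+1)} ∣ mask A` iff the number of elements of `A` in a class
mod `q^(j+1)` depends only on the class mod `q^j`. (mod `X^(q^(j+1)) - 1` reduce the mask; with
`Y = X^(q^j)`, `Φ = 1 + Y + ... + Y^(q-1)`; or evaluate at a primitive root and use the conjugates,
`CMT.cyc_dvd`, `CMT.sum_zero_of_dvd` of Lift.lean.) The second statement is the same fact for the
difference of two sets. -/

namespace Pool.Agent.TPer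

open Finset Pool.Agent.CMT

open Polynomial in
private theorem eqd_coeff {q j : ℕ} (hq : q.Prime) (S : ℤ[X]) (hS : ∀ k, q ^ j ≤ k → S.coeff k = 0)
    (c : ℕ) : (cyclotomic (q ^ (j + 1)) ℤ * S).coeff c =
      if c < q ^ (j + 1) then S.coeff (c % q ^ j) else 0 := by
  have hm : 0 < q ^ j := pow_pos hq.pos j
  have : Fact q.Prime := ⟨hq⟩
  rw [cyclotomic_prime_pow_eq_geom_sum hq, Finset.sum_mul, finsetSum_coeff]
  have hterm : ∀ i : ℕ, (((X : ℤ[X]) ^ q ^ j) ^ i * S).coeff c =
      if i = c / q ^ j then S.coeff (c % q ^ j) else 0 := by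
    intro i
    rw [← pow_mul, coeff_X_pow_mul']
    have hdm := Nat.div_add_mod c (q ^ j)
    have hml := Nat.mod_lt c hm
    have hdiv : q ^ j * i ≤ c → i ≤ c / q ^ j := fun h1 =>
      (Nat.le_div_iff_mul_le hm).mpr (by rwa [mul_comm])
    generalize c / q ^ j = d at *
    generalize c % q ^ j = r at *
    generalize q ^ j = m at *
    split_ifs with h1 h2 h2
    · subst h2
      congr 1
      omega
    · apply hS
      have h4 : i + 1 ≤ d := by
        have := hdiv h1
        omega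
      have h5 : m * (i + 1) ≤ m * d := Nat.mul_le_mul_left _ h4
      rw [Nat.mul_add, Nat.mul_one] at h5
      omega
    · exfalso
      subst h2
      apply h1
      omega
    · rfl
  simp_rw [hterm]
  rw [Finset.sum_ite_eq']
  have hlt : c / q ^ j ∈ range q ↔ c < q ^ (j + 1) := by
    rw [mem_range, Nat.div_lt_iff_lt_mul hm, pow_succ, mul_comm]
  simp only [hlt]

open Polynomial in
private theorem eqd_gen {q j : ℕ} (hq : q.Prime) (R : ℤ[X])
    (hR : ∀ k, q ^ (j + 1) ≤ k → R.coeff k = 0) :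
    cyclotomic (q ^ (j + 1)) ℤ ∣ R ↔ ∀ c, c < q ^ (j + 1) → R.coeff c = R.coeff (c % q ^ j) := by
  have hm : 0 < q ^ j := pow_pos hq.pos j
  constructor
  · rintro ⟨S, rfl⟩
    have hS : ∀ k, q ^ j ≤ k → S.coeff k = 0 := by
      intro k hk
      rcases eq_or_ne S 0 with rfl | h0
      · simp
      apply coeff_eq_zero_of_natDegree_lt
      have hne : cyclotomic (q ^ (j + 1)) ℤ ≠ 0 := cyclotomic_ne_zero _ _
      have h1 : (cyclotomic (q ^ (j + 1)) ℤ * S).natDegree < q ^ (j + 1) := by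
        by_contra hn
        push Not at hn
        have h2 := hR _ hn
        rw [coeff_natDegree, leadingCoeff_eq_zero] at h2
        exact mul_ne_zero hne h0 h2
      rw [natDegree_mul hne h0, natDegree_cyclotomic, Nat.totient_prime_pow_succ hq] at h1
      have h3 : q ^ (j + 1) = q ^ j * (q - 1) + q ^ j := by
        have := hq.pos
        obtain ⟨r, rfl⟩ : ∃ r, q = r + 1 := ⟨q - 1, by omega⟩
        rw [Nat.add_sub_cancel]
        ring
      omega
    intro c hc
    rw [eqd_coeff hq S hS, eqd_coeff hq S hS, if_pos hc, if_pos, Nat.mod_mod]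
    exact lt_of_le_of_lt (Nat.mod_le _ _) hc
  · intro h
    have hS : ∀ k, q ^ j ≤ k → (∑ b ∈ range (q ^ j), C (R.coeff b) * X ^ b : ℤ[X]).coeff k = 0 := by
      intro k hk
      rw [finsetSum_coeff]
      refine Finset.sum_eq_zero fun b hb => ?_
      rw [coeff_C_mul_X_pow, if_neg]
      rw [mem_range] at hb
      omega
    refine ⟨∑ b ∈ range (q ^ j), C (R.coeff b) * X ^ b, ?_⟩
    ext c
    rw [eqd_coeff hq _ hS]
    split_ifs with hc
    · rw [h c hc, finsetSum_coeff]
      simp only [coeff_C_mul_X_pow]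
      rw [Finset.sum_ite_eq, if_pos (mem_range.mpr (Nat.mod_lt _ hm))]
    · exact hR c (by omega)

open Polynomial in
private theorem eqd_red (N : ℕ) (A : Finset ℕ) :
    (X ^ N - 1 : ℤ[X]) ∣ mask A - ∑ a ∈ A, X ^ (a % N) := by
  unfold mask
  rw [← Finset.sum_sub_distrib]
  refine Finset.dvd_sum fun a _ => ?_
  have h1 : (X : ℤ[X]) ^ a - X ^ (a % N) = X ^ (a % N) * ((X ^ N) ^ (a / N) - 1) := by
    conv_lhs => rw [← Nat.div_add_mod a N]
    rw [Nat.mul_add_mod, Nat.mod_mod, pow_add, pow_mul]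
    ring
  rw [h1]
  exact Dvd.dvd.mul_left (sub_one_dvd_pow_sub_one _ _) _

open Polynomial in
private theorem eqd_cf (N : ℕ) (A : Finset ℕ) (c : ℕ) :
    (∑ a ∈ A, X ^ (a % N) : ℤ[X]).coeff c = (A.filter (fun a => a % N = c)).card := by
  rw [finsetSum_coeff]
  simp only [coeff_X_pow]
  rw [Finset.card_filter]
  push_cast
  refine Finset.sum_congr rfl fun a _ => ?_
  simp only [eq_comm]

open Polynomial in
private theorem eqd_main {q j : ℕ} (hq : q.Prime) (B B' : Finset ℕ) :
    (cyclotomic (q ^ (j + 1)) ℤ ∣ mask B - mask B') ↔ ∀ c c', c ≡ c' [MOD q ^ j] →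
      ((B.filter (fun a => a ≡ c [MOD q ^ (j + 1)])).card : ℤ) -
          (B'.filter (fun a => a ≡ c [MOD q ^ (j + 1)])).card =
        ((B.filter (fun a => a ≡ c' [MOD q ^ (j + 1)])).card : ℤ) -
          (B'.filter (fun a => a ≡ c' [MOD q ^ (j + 1)])).card := by
  set N := q ^ (j + 1) with hN
  have hN0 : 0 < N := pow_pos hq.pos _
  set R : ℤ[X] := (∑ a ∈ B, X ^ (a % N)) - ∑ a ∈ B', X ^ (a % N) with hRd
  have hcoef : ∀ c, R.coeff c = ((B.filter (fun a => a % N = c)).card : ℤ) -
      (B'.filter (fun a => a % N = c)).card := by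
    intro c
    rw [hRd, coeff_sub, eqd_cf, eqd_cf]
  have hcoef' : ∀ c, R.coeff (c % N) =
      ((B.filter (fun a => a ≡ c [MOD N])).card : ℤ) -
      (B'.filter (fun a => a ≡ c [MOD N])).card := fun c => hcoef (c % N)
  have hR : ∀ k, N ≤ k → R.coeff k = 0 := by
    intro k hk
    rw [hcoef]
    have h : ∀ D : Finset ℕ, D.filter (fun a => a % N = k) = ∅ := by
      intro D
      rw [Finset.filter_eq_empty_iff]
      intro a _ h
      have := Nat.mod_lt a hN0
      omega
    rw [h, h]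
    simp
  have hdvd : (cyclotomic N ℤ ∣ mask B - mask B') ↔ cyclotomic N ℤ ∣ R := by
    have h1 : cyclotomic N ℤ ∣ (mask B - mask B') - R := by
      have e : (mask B - mask B') - R = (mask B - ∑ a ∈ B, X ^ (a % N)) -
          (mask B' - ∑ a ∈ B', X ^ (a % N)) := by
        rw [hRd]
        ring
      rw [e]
      exact (cyclotomic.dvd_X_pow_sub_one N ℤ).trans
        (dvd_sub (eqd_red N B) (eqd_red N B'))
    constructor
    · intro h
      have := dvd_sub h h1
      rwa [sub_sub_cancel] at this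
    · intro h
      have := dvd_add h1 h
      rwa [sub_add_cancel] at this
  rw [hdvd, eqd_gen hq R hR]
  have hmN : q ^ j ∣ N := pow_dvd_pow q (Nat.le_succ j)
  have hmle : ∀ c, c % q ^ j < N := fun c =>
    lt_of_lt_of_le (Nat.mod_lt _ (pow_pos hq.pos j)) (Nat.le_of_dvd hN0 hmN)
  constructor
  · intro h c c' hcc
    rw [← hcoef', ← hcoef', h _ (Nat.mod_lt _ hN0), h _ (Nat.mod_lt c' hN0),
      Nat.mod_mod_of_dvd _ hmN, Nat.mod_mod_of_dvd _ hmN]
    rw [show c % q ^ j = c' % q ^ j from hcc]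
  · intro h c hc
    have h1 := h c (c % q ^ j) (Nat.mod_modEq c (q ^ j)).symm
    rw [← hcoef', ← hcoef', Nat.mod_eq_of_lt hc, Nat.mod_eq_of_lt (hmle c)] at h1
    exact h1

theorem lev_iff {A : Finset ℕ} {q j : ℕ} (hq : q.Prime) :
    Lev A q j ↔ ∀ c c', c ≡ c' [MOD q ^ j] →
      (A.filter (fun a => a ≡ c [MOD q ^ (j + 1)])).card =
        (A.filter (fun a => a ≡ c' [MOD q ^ (j + 1)])).card := by
  have h := eqd_main (j := j) hq A ∅
  have h0 : mask (∅ : Finset ℕ) = 0 := by simp [mask]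
  rw [h0, sub_zero] at h
  rw [Lev, h]
  simp only [Finset.filter_empty, Finset.card_empty, Nat.cast_zero, sub_zero, Nat.cast_inj]

theorem diff_iff {B B' : Finset ℕ} {q j : ℕ} (hq : q.Prime) :
    (Polynomial.cyclotomic (q ^ (j + 1)) ℤ ∣ mask B - mask B') ↔ ∀ c c', c ≡ c' [MOD q ^ j] →
      ((B.filter (fun a => a ≡ c [MOD q ^ (j + 1)])).card : ℤ) -
          (B'.filter (fun a => a ≡ c [MOD q ^ (j + 1)])).card =
        ((B.filter (fun a => a ≡ c' [MOD q ^ (j + 1)])).card : ℤ) -
          (B'.filter (fun a => a ≡ c' [MOD q ^ (j + 1)])).card :=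
  eqd_main hq B B'

end Pool.Agent.TPer
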