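import Pool.Agent.TPer.Defs
import Pool.Agent.TilePer.Basic

/-! From tilings of `ℤ` with minimal period `m` to tilings of `Z_m` (compare `CMT.exists_til` in
Per.lean). `A' = A - min A`, `T` = the shifted `B` in `[0, m)`. `NP`: otherwise `m / p` is a period. -/

namespace Pool.Agent.TPer

open Finset Pool.Agent.CMT

/-- A tiling of `ℤ` by naturals with period `m` gives a tiling of `Z_m`. -/
theorem til_of_period {A : Finset ℕ} {B : Set ℤ} {m : ℕ} [DecidablePred (· ∈ B)]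
    (hT : Pool.Agent.TilePer.Tiles (A.image (fun a : ℕ => (a : ℤ))) B)
    (hper : Pool.Agent.TilePer.IsPeriod B m) :
    Til m A ((Finset.range m).filter (fun t : ℕ => (t : ℤ) ∈ B)) := by
  classical
  have hm0 : 0 < m := hper.1
  haveI : NeZero m := ⟨hm0.ne'⟩
  refine ⟨hm0, ?_⟩
  intro r
  rw [Finset.card_eq_one]
  obtain ⟨a, ha, hb⟩ := hT.exists (r.val : ℤ)
  obtain ⟨a0, ha0, rfl⟩ := Finset.mem_image.1 ha
  have hMz : (0 : ℤ) < m := by exact_mod_cast hm0
  obtain ⟨t, ht⟩ : ∃ t : ℕ, (t : ℤ) = ((r.val : ℤ) - a0) % m :=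
    ⟨(((r.val : ℤ) - a0) % m).toNat, Int.toNat_of_nonneg (Int.emod_nonneg _ hMz.ne')⟩
  have htlt : t < m := by
    have : (t : ℤ) < m := by rw [ht]; exact Int.emod_lt_of_pos _ hMz
    exact_mod_cast this
  have htmod : (t : ℤ) ≡ (r.val : ℤ) - a0 [ZMOD m] := by
    rw [ht]; exact Int.mod_modEq _ _
  have htC : (t : ℤ) ∈ B := (hper.modEq htmod).2 hb
  refine ⟨(a0, t), ?_⟩
  ext ⟨x, y⟩
  simp only [Finset.mem_filter, Finset.mem_product, Finset.mem_range, Finset.mem_singleton,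
    Prod.mk.injEq]
  have hr : ∀ u : ℕ, ((u : ℕ) : ZMod m) = r ↔ (u : ℤ) ≡ (r.val : ℤ) [ZMOD m] := by
    intro u
    rw [← ZMod.intCast_eq_intCast_iff]
    push_cast
    rw [ZMod.natCast_zmod_val]
  constructor
  · rintro ⟨⟨hx, hy, hyC⟩, hxy⟩
    rw [hr] at hxy
    push_cast at hxy
    have h1 : (x : ℤ) + y ≡ (a0 : ℤ) + t [ZMOD m] := by
      have h2 : (a0 : ℤ) + t ≡ (a0 : ℤ) + ((r.val : ℤ) - a0) [ZMOD m] := htmod.add_left _
      have h3 : (a0 : ℤ) + ((r.val : ℤ) - a0) = (r.val : ℤ) := by ring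
      rw [h3] at h2
      exact hxy.trans h2.symm
    have hyC' : (a0 : ℤ) + t - x ∈ B := by
      have h4 : (y : ℤ) ≡ (a0 : ℤ) + t - x [ZMOD m] := by
        have := h1.sub_right (x : ℤ)
        have e : (x : ℤ) + y - x = y := by ring
        rw [e] at this
        exact this
      exact (hper.modEq h4).1 hyC
    have hxa : (x : ℤ) = (a0 : ℤ) :=
      hT.unique (Finset.mem_image.2 ⟨x, hx, rfl⟩) (Finset.mem_image.2 ⟨a0, ha0, rfl⟩)
        hyC' htC (by ring)
    have hxa' : x = a0 := by exact_mod_cast hxa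
    refine ⟨hxa', ?_⟩
    subst hxa'
    have h5 : (y : ℤ) ≡ t [ZMOD m] := Int.ModEq.add_left_cancel' _ h1
    have h6 := (Int.natCast_modEq_iff).1 h5
    exact Nat.ModEq.eq_of_lt_of_lt h6 hy htlt
  · rintro ⟨rfl, rfl⟩
    refine ⟨⟨ha0, htlt, htC⟩, ?_⟩
    rw [hr]
    push_cast
    have h2 : (x : ℤ) + y ≡ (x : ℤ) + ((r.val : ℤ) - x) [ZMOD m] := htmod.add_left _
    have h3 : (x : ℤ) + ((r.val : ℤ) - x) = (r.val : ℤ) := by ring
    rw [h3] at h2
    exact h2

/-- Minimality of the period gives `NP` at every prime divisor. -/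
theorem np_of_least {B : Set ℤ} {m : ℕ} [DecidablePred (· ∈ B)]
    (hm : IsLeast {k : ℕ | Pool.Agent.TilePer.IsPeriod B k} m) {p : ℕ} (hp : p.Prime)
    (hpm : p ∣ m) :
    NP ((Finset.range m).filter (fun t : ℕ => (t : ℤ) ∈ B)) m p := by
  have hper : Pool.Agent.TilePer.IsPeriod B m := hm.1
  have hm0 : 0 < m := hper.1
  have hMz : (0 : ℤ) < m := by exact_mod_cast hm0
  have hq0 : 0 < m / p := Nat.div_pos (Nat.le_of_dvd hm0 hpm) hp.pos
  have hqlt : m / p < m := Nat.div_lt_self hm0 hp.one_lt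
  unfold NP
  by_contra hcon
  push Not at hcon
  have key : ∀ x : ℤ, x ∈ B → ∀ i : ℤ, x + i * ((m / p : ℕ) : ℤ) ∈ B := by
    intro x hx i
    obtain ⟨t, ht⟩ : ∃ t : ℕ, (t : ℤ) = x % m :=
      ⟨(x % m).toNat, Int.toNat_of_nonneg (Int.emod_nonneg _ hMz.ne')⟩
    have htlt : t < m := by
      have : (t : ℤ) < m := by rw [ht]; exact Int.emod_lt_of_pos _ hMz
      exact_mod_cast this
    have htmod : (t : ℤ) ≡ x [ZMOD m] := by
      rw [ht]; exact Int.mod_modEq _ _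
    have htB : (t : ℤ) ∈ B := (hper.modEq htmod).2 hx
    obtain ⟨b', hb', hdvd⟩ := hcon t (Finset.mem_filter.2 ⟨Finset.mem_range.2 htlt, htB⟩) i
    have hb'B : (b' : ℤ) ∈ B := (Finset.mem_filter.1 hb').2
    have h1 : x + i * ((m / p : ℕ) : ℤ) ≡ (b' : ℤ) [ZMOD m] := by
      have h2 : x + i * ((m / p : ℕ) : ℤ) ≡ (t : ℤ) + i * ((m / p : ℕ) : ℤ) [ZMOD m] :=
        htmod.symm.add_right _
      refine h2.trans ?_
      apply Int.modEq_iff_dvd.2
      have e : (b' : ℤ) - ((t : ℤ) + i * ((m / p : ℕ) : ℤ))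
          = (b' : ℤ) - t - i * ((m / p : ℕ) : ℤ) := by ring
      rw [e]
      exact hdvd
    exact (hper.modEq h1).2 hb'B
  have hper' : Pool.Agent.TilePer.IsPeriod B (m / p) := by
    refine ⟨hq0, fun x => ⟨fun h => ?_, fun h => ?_⟩⟩
    · have := key _ h (-1)
      have e : x + ((m / p : ℕ) : ℤ) + (-1) * ((m / p : ℕ) : ℤ) = x := by ring
      rw [e] at this
      exact this
    · have := key _ h 1
      rw [one_mul] at this
      exact this
  exact absurd (hm.2 hper') (not_le.2 hqlt)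

theorem from_int {A : Finset ℤ} {B : Set ℤ} {m d : ℕ} (h : Pool.Agent.TilePer.Tiles A B)
    (hd : ∀ a ∈ A, ∀ a' ∈ A, a' - a ≤ d)
    (hm : IsLeast {k : ℕ | Pool.Agent.TilePer.IsPeriod B k} m) :
    ∃ A' T : Finset ℕ, Til m A' T ∧ (∀ a ∈ A', a ≤ d) ∧ A'.card = A.card ∧
      ∀ p, p.Prime → p ∣ m → NP T m p := by
  classical
  have hne := h.nonempty
  obtain ⟨mn, hmnA, hmn⟩ : ∃ mn ∈ A, ∀ a ∈ A, mn ≤ a :=
    ⟨A.min' hne, A.min'_mem hne, fun a ha => A.min'_le a ha⟩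
  have hcast : ∀ a ∈ A, (((a - mn).toNat : ℕ) : ℤ) = a - mn := by
    intro a ha
    have := hmn a ha
    omega
  refine ⟨A.image (fun a => (a - mn).toNat), (Finset.range m).filter (fun t : ℕ => (t : ℤ) ∈ B),
    til_of_period ?_ hm.1, ?_, ?_, fun p hp hpm => np_of_least hm hp hpm⟩
  · apply Pool.Agent.TilePer.Tiles.mk'
    · intro n
      obtain ⟨a, ha, hb⟩ := h.exists (n + mn)
      refine ⟨a - mn, Finset.mem_image.2 ⟨(a - mn).toNat, Finset.mem_image.2 ⟨a, ha, rfl⟩,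
        hcast a ha⟩, ?_⟩
      have e : n - (a - mn) = n + mn - a := by ring
      rw [e]
      exact hb
    · intro a ha a' ha' b hb b' hb' e
      obtain ⟨x, hx, rfl⟩ := Finset.mem_image.1 ha
      obtain ⟨x0, hx0, rfl⟩ := Finset.mem_image.1 hx
      obtain ⟨y, hy, rfl⟩ := Finset.mem_image.1 ha'
      obtain ⟨y0, hy0, rfl⟩ := Finset.mem_image.1 hy
      simp only [hcast x0 hx0, hcast y0 hy0] at e ⊢
      have := h.unique hx0 hy0 hb hb' (by linarith)
      rw [this]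
  · intro a ha
    obtain ⟨x, hx, rfl⟩ := Finset.mem_image.1 ha
    have h1 := hd mn hmnA x hx
    have h2 := hmn x hx
    omega
  · apply Finset.card_image_of_injOn
    intro x hx y hy e
    have hx' := hcast x hx
    have hy' := hcast y hy
    simp only at e
    rw [e, hy'] at hx'
    linarith

end Pool.Agent.TPer
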