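import Pool.Agent.TPer.Low4
import Pool.Agent.TPer.Asy1

/-! Numerics of the lower bound: reduction of every `n ≤ d` to `low_prim`. `w = ω(n)`, `x_j = log (pr j)`,
`D = log d`; `x_w ≤ log n` (`pr_le`), so it is enough to bound `w (D - x_w)`. `R = 16 (Nat.log 2 d + 1) w^3`.
If `R (pr w)^2 ≤ d` use `low_prim` with `u = w`. Otherwise let `u < w` be the largest with `u = 0` or
`R (pr u)^2 ≤ d`, so `2 x_(u+1) > D - log R`.
`w (D - x_w) - u (D - x_u) = (w - u) (D - x_w) - u (x_w - x_u)`, `x_w - x_u ≥ (w - u) log p_(u+1)`,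
`D - x_w ≤ D - x_(u+1) ≤ (D + log R) / 2`, `(u + 1) log p_(u+1) ≥ x_(u+1) ≥ (D - log R) / 2`. So the difference
is at most `(w - u) (log R + log p_(u+1))`, and `(w - u) log p_(u+1) ≤ x_w ≤ D`, `w log R = O(D)`. If `u = 0`
the tile `{0..d}` with `B = (d+1) ℤ` is enough. -/

namespace Pool.Agent.TPer

open Finset

/-- Every diameter occurs. -/
theorem exists_tile (d : ℕ) : ∃ (A : Finset ℤ) (B : Set ℤ),
    ((∃ a ∈ A, ∃ a' ∈ A, a' - a = d) ∧ ∀ a ∈ A, ∀ a' ∈ A, a' - a ≤ d) ∧
    Pool.Agent.TilePer.Tiles A B := by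
  refine ⟨Finset.Icc 0 (d : ℤ), {x | ((d : ℤ) + 1) ∣ x}, ⟨⟨0, by simp, (d : ℤ), by simp, by simp⟩,
    ?_⟩, Pool.Agent.TilePer.Tiles.mk' ?_ ?_⟩
  · intro a ha a' ha'
    rw [Finset.mem_Icc] at ha ha'
    linarith [ha.1, ha'.2]
  · intro n
    have hpos : (0 : ℤ) < (d : ℤ) + 1 := by positivity
    refine ⟨n % ((d : ℤ) + 1), ?_, ?_⟩
    · rw [Finset.mem_Icc]
      exact ⟨Int.emod_nonneg _ hpos.ne', by have := Int.emod_lt_of_pos n hpos; linarith⟩
    · show ((d : ℤ) + 1) ∣ n - n % ((d : ℤ) + 1)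
      exact Int.dvd_self_sub_emod
  · intro a ha a' ha' b hb b' hb' e
    rw [Finset.mem_Icc] at ha ha'
    obtain ⟨u, hu⟩ := hb
    obtain ⟨v, hv⟩ := hb'
    have hpos : (0 : ℤ) < (d : ℤ) + 1 := by positivity
    have h1 : a - a' = ((d : ℤ) + 1) * (v - u) := by
      rw [mul_sub]
      linarith
    have h2 : v - u = 0 := by
      have h3 : v - u < 1 := by
        by_contra hc
        push Not at hc
        nlinarith [ha.2, ha'.1]
      have h4 : -1 < v - u := by
        by_contra hc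
        push Not at hc
        nlinarith [ha.1, ha'.2]
      omega
    rw [h2, mul_zero] at h1
    linarith

private theorem pr_succ (w : ℕ) : pr (w + 1) = pr w * Nat.nth Nat.Prime w := by
  rw [pr, Finset.prod_range_succ, ← pr]

/-- `pr (u+1) ≤ p_(u+1)^(u+1)`. -/
private theorem pr_le_pow (u : ℕ) : pr (u + 1) ≤ Nat.nth Nat.Prime u ^ (u + 1) := by
  calc pr (u + 1) = ∏ i ∈ range (u + 1), Nat.nth Nat.Prime i := rfl
    _ ≤ ∏ i ∈ range (u + 1), Nat.nth Nat.Prime u := by
        refine Finset.prod_le_prod' fun i hi => ?_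
        exact Nat.nth_monotone Nat.infinite_setOfPred_prime (by
          have := Finset.mem_range.mp hi
          omega)
    _ = Nat.nth Nat.Prime u ^ (u + 1) := by rw [Finset.prod_const, Finset.card_range]

/-- `pr u * p_(u+1)^(w-u) ≤ pr w`. -/
private theorem pr_mul_pow_le (u k : ℕ) : pr u * Nat.nth Nat.Prime u ^ k ≤ pr (u + k) := by
  induction k with
  | zero => simp
  | succ k ih =>
    rw [← Nat.add_assoc, pr_succ, pow_succ, ← mul_assoc]
    exact Nat.mul_le_mul ih (Nat.nth_monotone Nat.infinite_setOfPred_prime (by omega))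

/-- `w log (1 + L) ≤ 8 L + 8 D` when `w log (w + 1) ≤ 4 D`. -/
private theorem w_log {w L D : ℝ} (hw : 0 ≤ w) (hL : 1 ≤ L) (hD : w * Real.log (w + 1) ≤ 4 * D)
    (hD0 : 0 ≤ D) : w * Real.log (1 + L) ≤ 8 * L + 8 * D := by
  by_cases h : (w + 1) ^ 2 ≤ 1 + L
  · have h1 : Real.log (1 + L) ≤ 2 * (Real.sqrt (1 + L) - 1) := by
      have h2 : Real.log (1 + L) = 2 * Real.log (Real.sqrt (1 + L)) := by
        rw [Real.log_sqrt (by linarith)]
        ring
      rw [h2]
      have h3 := Real.log_le_sub_one_of_pos (Real.sqrt_pos.mpr (by linarith : (0 : ℝ) < 1 + L))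
      linarith
    have h4 : w + 1 ≤ Real.sqrt (1 + L) := by
      rw [Real.le_sqrt (by positivity) (by linarith)]
      exact h
    have h5 : Real.sqrt (1 + L) * Real.sqrt (1 + L) = 1 + L := Real.mul_self_sqrt (by linarith)
    have h6 : 0 ≤ Real.sqrt (1 + L) := Real.sqrt_nonneg _
    have h7 : 0 ≤ Real.log (1 + L) := Real.log_nonneg (by linarith)
    nlinarith
  · push Not at h
    have h1 : Real.log (1 + L) ≤ 2 * Real.log (w + 1) := by
      have h2 : Real.log ((w + 1) ^ 2) = 2 * Real.log (w + 1) := by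
        rw [Real.log_pow]
        norm_num
      rw [← h2]
      exact Real.log_le_log (by linarith) h.le
    nlinarith

theorem low_main : ∃ C : ℝ, ∀ d : ℕ, 2 ≤ d → ∀ n : ℕ, 1 ≤ n → n ≤ d →
    ∃ (A : Finset ℤ) (B : Set ℤ), Pool.Agent.TilePer.Tiles A B ∧
      ((∃ a ∈ A, ∃ a' ∈ A, a' - a = d) ∧ ∀ a ∈ A, ∀ a' ∈ A, a' - a ≤ d) ∧
      ∀ m, Pool.Agent.TilePer.IsPeriod B m →
        n.primeFactors.card * (Real.log d - Real.log n) - C * Real.log d ≤ Real.log m := by
  obtain ⟨C1, hC1⟩ := low_prim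
  refine ⟨max C1 0 + 60, fun d hd n h1 h2 => ?_⟩
  set w := n.primeFactors.card with hw
  set D := Real.log d with hD
  have hd' : (2 : ℝ) ≤ d := by exact_mod_cast hd
  have hD0 : 0 < D := Real.log_pos (by linarith)
  have hn0 : (0 : ℝ) < n := by exact_mod_cast h1
  have hnD : Real.log n ≤ D := Real.log_le_log hn0 (by exact_mod_cast h2)
  have hn1 : 0 ≤ Real.log n := Real.log_nonneg (by exact_mod_cast h1)
  have hom := omega_log n h1
  rw [← hw] at hom
  have hwx : Real.log (pr w) ≤ Real.log n := by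
    refine Real.log_le_log (by exact_mod_cast pr_pos w) ?_
    exact_mod_cast pr_le h1
  have hw0 : (0 : ℝ) ≤ w := Nat.cast_nonneg w
  have hmax1 : C1 ≤ max C1 0 := le_max_left _ _
  have hmax0 : 0 ≤ max C1 0 := le_max_right _ _
  -- the trivial tile
  have triv : (w : ℝ) * (D - Real.log (pr w)) ≤ 60 * D → ∃ (A : Finset ℤ) (B : Set ℤ),
      Pool.Agent.TilePer.Tiles A B ∧
      ((∃ a ∈ A, ∃ a' ∈ A, a' - a = d) ∧ ∀ a ∈ A, ∀ a' ∈ A, a' - a ≤ d) ∧
      ∀ m, Pool.Agent.TilePer.IsPeriod B m →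
        (w : ℝ) * (D - Real.log n) - (max C1 0 + 60) * D ≤ Real.log m := by
    intro h
    obtain ⟨A, B, hA, hT⟩ := exists_tile d
    refine ⟨A, B, hT, hA, fun m hm => ?_⟩
    have h3 : 0 ≤ Real.log m := Real.log_natCast_nonneg m
    have h4 : (w : ℝ) * (D - Real.log n) ≤ w * (D - Real.log (pr w)) :=
      mul_le_mul_of_nonneg_left (by linarith) hw0
    nlinarith
  -- the main tile
  have main : ∀ u : ℕ, 1 ≤ u → 16 * (Nat.log 2 d + 1) * u ^ 3 * (pr u) ^ 2 ≤ d →
      (w : ℝ) * (D - Real.log (pr w)) ≤ u * (D - Real.log (pr u)) + 60 * D →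
      ∃ (A : Finset ℤ) (B : Set ℤ),
      Pool.Agent.TilePer.Tiles A B ∧
      ((∃ a ∈ A, ∃ a' ∈ A, a' - a = d) ∧ ∀ a ∈ A, ∀ a' ∈ A, a' - a ≤ d) ∧
      ∀ m, Pool.Agent.TilePer.IsPeriod B m →
        (w : ℝ) * (D - Real.log n) - (max C1 0 + 60) * D ≤ Real.log m := by
    intro u hu hc h
    obtain ⟨A, B, hT, hA, hm⟩ := hC1 d u hd hu hc
    refine ⟨A, B, hT, hA, fun m hm' => ?_⟩
    have h3 := hm m hm'
    have h4 : (w : ℝ) * (D - Real.log n) ≤ w * (D - Real.log (pr w)) :=
      mul_le_mul_of_nonneg_left (by linarith) hw0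
    have h5 : C1 * D ≤ max C1 0 * D := mul_le_mul_of_nonneg_right hmax1 hD0.le
    linarith
  rcases Nat.eq_zero_or_pos w with hw1 | hw1
  · apply triv
    rw [hw1]
    simp only [Nat.cast_zero, zero_mul]
    positivity
  set R := 16 * (Nat.log 2 d + 1) * w ^ 3 with hR
  have hR0 : 0 < R := by positivity
  by_cases hbig : R * (pr w) ^ 2 ≤ d
  · exact main w hw1 hbig (by linarith)
  -- the largest `u`
  have hex : ∃ u, u < w ∧ (u = 0 ∨ R * (pr u) ^ 2 ≤ d) ∧ ¬ R * (pr (u + 1)) ^ 2 ≤ d := by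
    by_contra hcon
    push Not at hcon
    have hall : ∀ u, u ≤ w → (u = 0 ∨ R * (pr u) ^ 2 ≤ d) := by
      intro u
      induction u with
      | zero => intro _; exact Or.inl rfl
      | succ u ih =>
        intro hu
        exact Or.inr (hcon u (by omega) (ih (by omega)))
    rcases hall w le_rfl with h | h
    · omega
    · exact hbig h
  obtain ⟨u, huw, hu, hu1⟩ := hex
  push Not at hu1
  set q := Nat.nth Nat.Prime u with hq
  have hqp : q.Prime := Nat.prime_nth_prime u
  have hq1 : (1 : ℝ) ≤ q := by exact_mod_cast hqp.one_le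
  have hlq : 0 ≤ Real.log q := Real.log_nonneg hq1
  set xu := Real.log (pr u) with hxu
  set xw := Real.log (pr w) with hxw
  have hpru : (0 : ℝ) < pr u := by exact_mod_cast pr_pos u
  have hprw : (0 : ℝ) < pr w := by exact_mod_cast pr_pos w
  have hxu0 : 0 ≤ xu := Real.log_nonneg (by exact_mod_cast pr_pos u)
  have hqr : (0 : ℝ) < q := by linarith
  -- `D ≤ log R + 2 (xu + log q)`
  have e1 : Real.log (pr (u + 1)) = xu + Real.log q := by
    rw [pr_succ, Nat.cast_mul, Real.log_mul hpru.ne' hqr.ne']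
  have hRr : (0 : ℝ) < R := by exact_mod_cast hR0
  have a1 : D ≤ Real.log R + 2 * (xu + Real.log q) := by
    have h3 : (d : ℝ) ≤ (R : ℝ) * (pr (u + 1) : ℝ) ^ 2 := by exact_mod_cast hu1.le
    have h4 := Real.log_le_log (by linarith) h3
    have h5 : (0 : ℝ) < pr (u + 1) := by exact_mod_cast pr_pos (u + 1)
    rw [Real.log_mul hRr.ne' (by positivity), Real.log_pow, e1] at h4
    push_cast at h4
    exact h4
  -- `xu + log q ≤ (u + 1) log q`
  have a2 : xu + Real.log q ≤ (u + 1) * Real.log q := by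
    rw [← e1]
    have h3 : (pr (u + 1) : ℝ) ≤ (q : ℝ) ^ (u + 1) := by exact_mod_cast pr_le_pow u
    have h4 := Real.log_le_log (by exact_mod_cast pr_pos (u + 1)) h3
    rw [Real.log_pow] at h4
    push_cast at h4
    exact h4
  -- `xu + (w - u) log q ≤ xw`
  have a3 : xu + (w - u) * Real.log q ≤ xw := by
    have h3 : (pr u : ℝ) * (q : ℝ) ^ (w - u) ≤ pr w := by
      have := pr_mul_pow_le u (w - u)
      rw [Nat.add_sub_cancel' huw.le] at this
      exact_mod_cast this
    have h4 := Real.log_le_log (by positivity) h3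
    rw [Real.log_mul hpru.ne' (by positivity), Real.log_pow, Nat.cast_sub huw.le] at h4
    exact h4
  -- `w log R ≤ 59 D`
  have hlog2 : Real.log 2 ≤ D := Real.log_le_log (by norm_num) hd'
  have hl2 : (0.6931471803 : ℝ) < Real.log 2 := Real.log_two_gt_d9
  have a4 : (w : ℝ) * Real.log R ≤ 59 * D := by
    have hw1' : (1 : ℝ) ≤ w := by exact_mod_cast hw1
    have h3 : Real.log R = Real.log 16 + Real.log (1 + (Nat.log 2 d : ℝ)) + 3 * Real.log w := by
      rw [hR]
      push_cast
      rw [Real.log_mul (by positivity) (by positivity), Real.log_mul (by norm_num) (by positivity),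
        Real.log_pow, add_comm (Nat.log 2 d : ℝ) 1]
      norm_num
    have h4 : Real.log 16 = 4 * Real.log 2 := by
      rw [show (16 : ℝ) = 2 ^ 4 by norm_num, Real.log_pow]
      norm_num
    have h5 : (1 : ℝ) ≤ Nat.log 2 d := by
      have : 1 ≤ Nat.log 2 d := (Nat.le_log_iff_pow_le (by norm_num) (by omega)).mpr (by omega)
      exact_mod_cast this
    have h6 : (w : ℝ) * Real.log (w + 1) ≤ 4 * D := hom.trans (by linarith)
    have h7 := w_log hw0 h5 h6 hD0.le
    have h8 : (Nat.log 2 d : ℝ) * Real.log 2 ≤ D := by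
      have h9 : ((2 ^ Nat.log 2 d : ℕ) : ℝ) ≤ d := by
        exact_mod_cast Nat.pow_log_le_self 2 (by omega)
      have h10 := Real.log_le_log (by positivity) h9
      push_cast at h10
      rwa [Real.log_pow] at h10
    have h9 : (Nat.log 2 d : ℝ) ≤ 2 * D := by nlinarith
    have h10 : (w : ℝ) * Real.log w ≤ 4 * D := by
      refine le_trans ?_ h6
      exact mul_le_mul_of_nonneg_left (Real.log_le_log (by linarith) (by linarith)) hw0
    have h11 : (w : ℝ) * Real.log 2 ≤ 4 * D := by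
      refine le_trans ?_ h6
      exact mul_le_mul_of_nonneg_left (Real.log_le_log (by norm_num) (by linarith)) hw0
    rw [h3, h4]
    nlinarith
  have hR1 : 0 ≤ Real.log R := Real.log_nonneg (by exact_mod_cast hR0)
  have huw' : (u : ℝ) + 1 ≤ w := by exact_mod_cast huw
  have hu0 : (0 : ℝ) ≤ u := Nat.cast_nonneg u
  have hxwD : xw ≤ D := hwx.trans hnD
  -- the inequality
  have key : (w : ℝ) * (D - xw) ≤ u * (D - xu) + 60 * D := by
    -- bracket
    have b1 : xu + Real.log q ≤ xw := by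
      have : Real.log q ≤ (w - u) * Real.log q := by nlinarith
      linarith
    have b2 : D - xw ≤ Real.log R + (xu + Real.log q) := by linarith
    have b3 : xu ≤ u * Real.log q := by linarith
    have b4 : (w - u) * (D - xw) ≤ (w - u) * (Real.log R + (u * Real.log q + Real.log q)) := by
      refine mul_le_mul_of_nonneg_left ?_ (by linarith)
      linarith
    have b5 : (u : ℝ) * ((w - u) * Real.log q) ≤ u * (xw - xu) :=
      mul_le_mul_of_nonneg_left (by linarith) hu0
    have b6 : (w - u) * Real.log R ≤ w * Real.log R := mul_le_mul_of_nonneg_right (by linarith) hR1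
    have b7 : (w - u) * Real.log q ≤ D := by linarith
    have b8 : (w : ℝ) * (D - xw) = (w - u) * (D - xw) + u * (D - xu) - u * (xw - xu) := by ring
    have b9 : (w - u) * (Real.log R + (u * Real.log q + Real.log q)) =
        (w - u) * Real.log R + u * ((w - u) * Real.log q) + (w - u) * Real.log q := by ring
    rw [b9] at b4
    linarith
  rcases hu with hu | hu
  · apply triv
    rw [hu] at key
    simpa using key
  · rcases Nat.eq_zero_or_pos u with hu2 | hu2
    · apply triv
      rw [hu2] at key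
      simpa using key
    · refine main u hu2 ?_ key
      refine le_trans ?_ hu
      rw [hR]
      gcongr

end Pool.Agent.TPer
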