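import Pool.Agent.TPer.Upper
import Pool.Agent.TPer.FromInt
import Pool.Agent.TPer.Asy1
import Pool.Agent.TPer.Asy2
import Pool.Agent.TPer.Asy3
import Pool.Agent.TPer.Low5

/-! Assembly: bounds for the minimal period of a complement, in terms of the diameter. -/

namespace Pool.Agent.TPer

open Finset Pool.Agent.CMT Filter

theorem card_le_diam {A : Finset ℤ} {d : ℕ} (hne : A.Nonempty)
    (hd : ∀ a ∈ A, ∀ a' ∈ A, a' - a ≤ d) : A.card ≤ d + 1 := by
  have hsub : A ⊆ Finset.Icc (A.min' hne) (A.min' hne + d) := by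
    intro x hx
    rw [Finset.mem_Icc]
    exact ⟨A.min'_le x hx, by have := hd _ (A.min'_mem hne) _ hx; linarith⟩
  have := Finset.card_le_card hsub
  rw [Int.card_Icc] at this
  omega

/-- The upper bound over `ℤ`. -/
theorem upper_int {A : Finset ℤ} {B : Set ℤ} {m d : ℕ} (h : Pool.Agent.TilePer.Tiles A B)
    (h1 : 1 ≤ d) (hd : ∀ a ∈ A, ∀ a' ∈ A, a' - a ≤ d)
    (hm : IsLeast {k : ℕ | Pool.Agent.TilePer.IsPeriod B k} m) :
    Real.log m ≤ A.card.primeFactors.card * Real.log 2 + Real.log d + Real.log A.card +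
      A.card.primeFactors.card *
        (Real.log 2 + Real.log (A.card.primeFactors.card + 1) + Real.log d - Real.log A.card) := by
  obtain ⟨A', T, hT, hA', hc, hNP⟩ := from_int h hd hm
  have h2 := card_le_diam h.nonempty hd
  have h3 := upper hT hA' h1 (by rw [hc]; omega) hNP
  rwa [hc] at h3

theorem upper_main : ∃ C : ℝ, ∀ d : ℕ, 2 ≤ d → ∀ (A : Finset ℤ) (B : Set ℤ) (m : ℕ),
    Pool.Agent.TilePer.Tiles A B → (∀ a ∈ A, ∀ a' ∈ A, a' - a ≤ d) →
    IsLeast {k : ℕ | Pool.Agent.TilePer.IsPeriod B k} m →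
    Real.log m ≤ mainTerm d + C * Real.log d := by
  obtain ⟨C, hC⟩ := asy_err
  refine ⟨C, fun d hd A B m h hA hm => ?_⟩
  have h1 := upper_int h (by omega) hA hm
  have h2 := card_le_diam h.nonempty hA
  have h3 : 1 ≤ A.card := Finset.card_pos.mpr h.nonempty
  exact h1.trans (hC d hd A.card h3 h2)

/-- The minimal periods are bounded for every diameter. -/
theorem bdd_main (d : ℕ) : ∃ R : ℕ, ∀ (A : Finset ℤ) (B : Set ℤ) (m : ℕ),
    Pool.Agent.TilePer.Tiles A B → (∀ a ∈ A, ∀ a' ∈ A, a' - a ≤ d) →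
    IsLeast {k : ℕ | Pool.Agent.TilePer.IsPeriod B k} m → m ≤ R := by
  rcases Nat.eq_zero_or_pos d with rfl | hd
  · refine ⟨1, fun A B m h hA hm => ?_⟩
    refine hm.2 ?_
    refine ⟨Nat.one_pos, fun x => ?_⟩
    have hall : ∀ y : ℤ, y ∈ B := by
      intro y
      obtain ⟨a, ha⟩ := h.nonempty
      obtain ⟨a', ha', hb⟩ := h.exists (y + a)
      have h1 := hA a ha a' ha'
      have h2 := hA a' ha' a ha
      have h3 : a' = a := by push_cast at h1 h2; linarith
      rw [h3] at hb
      simpa using hb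
    exact ⟨fun _ => hall _, fun _ => hall _⟩
  · set R : ℝ := ∑ n ∈ range (d + 2), Real.exp (n.primeFactors.card * Real.log 2 + Real.log d +
        Real.log n + n.primeFactors.card *
        (Real.log 2 + Real.log (n.primeFactors.card + 1) + Real.log d - Real.log n)) with hR
    refine ⟨⌊R⌋₊, fun A B m h hA hm => ?_⟩
    apply Nat.le_floor
    have h1 := upper_int h hd hA hm
    have h2 := card_le_diam h.nonempty hA
    have h0 : (0 : ℝ) < m := by exact_mod_cast hm.1.1
    refine ((Real.log_le_iff_le_exp h0).1 h1).trans ?_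
    rw [hR]
    exact Finset.single_le_sum (f := fun n : ℕ => Real.exp (n.primeFactors.card * Real.log 2 +
      Real.log d + Real.log n + n.primeFactors.card *
        (Real.log 2 + Real.log (n.primeFactors.card + 1) + Real.log d - Real.log n)))
      (fun n _ => (Real.exp_pos _).le) (Finset.mem_range.mpr (by omega))

theorem tendsto_of_bounds {f g : ℕ → ℝ}
    (hup : ∀ ε : ℝ, 0 < ε → ∀ᶠ d : ℕ in atTop,
      g d ≤ (1 / 4 + ε) * (Real.log d) ^ 2 / Real.log (Real.log d))
    (hlo : ∀ ε : ℝ, 0 < ε → ∀ᶠ d : ℕ in atTop,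
      (1 / 4 - ε) * (Real.log d) ^ 2 / Real.log (Real.log d) ≤ g d)
    {C : ℝ} (hfg : ∀ d : ℕ, 2 ≤ d → |f d - g d| ≤ C * Real.log d) :
    Tendsto (fun d : ℕ => f d * Real.log (Real.log d) / (Real.log d) ^ 2) atTop
      (nhds (1 / 4)) := by
  -- `g` first
  have hlog : Tendsto (fun d : ℕ => Real.log (d : ℝ)) atTop atTop :=
    Real.tendsto_log_atTop.comp tendsto_natCast_atTop_atTop
  have hlog2 : Tendsto (fun d : ℕ => Real.log (Real.log (d : ℝ))) atTop atTop :=
    Real.tendsto_log_atTop.comp hlog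
  have hg : Tendsto (fun d : ℕ => g d * Real.log (Real.log d) / (Real.log d) ^ 2) atTop
      (nhds (1 / 4)) := by
    rw [Metric.tendsto_nhds]
    intro ε hε
    filter_upwards [hup (ε / 2) (half_pos hε), hlo (ε / 2) (half_pos hε),
      hlog.eventually_gt_atTop 0, hlog2.eventually_gt_atTop 0] with d h1 h2 h3 h4
    rw [Real.dist_eq, abs_lt]
    have h5 : 0 < (Real.log d) ^ 2 := by positivity
    rw [le_div_iff₀ h4] at h1
    rw [div_le_iff₀ h4] at h2
    constructor
    · have : (1 / 4 - ε / 2) ≤ g d * Real.log (Real.log d) / (Real.log d) ^ 2 := by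
        rw [le_div_iff₀ h5]
        exact h2
      linarith
    · have : g d * Real.log (Real.log d) / (Real.log d) ^ 2 ≤ (1 / 4 + ε / 2) := by
        rw [div_le_iff₀ h5]
        exact h1
      linarith
  have hsmall : Tendsto (fun d : ℕ => (f d - g d) * Real.log (Real.log d) / (Real.log d) ^ 2) atTop
      (nhds 0) := by
    have h1 : Tendsto (fun d : ℕ => C * (Real.log (Real.log d) / Real.log d)) atTop (nhds 0) := by
      have h2 : Tendsto (fun x : ℝ => Real.log x / x) atTop (nhds 0) := by
        have := Real.isLittleO_log_id_atTop.tendsto_div_nhds_zero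
        simpa using this
      have h3 := (h2.comp hlog).const_mul C
      simpa using h3
    refine squeeze_zero_norm' ?_ h1
    filter_upwards [hlog.eventually_gt_atTop 0, hlog2.eventually_gt_atTop 0,
      eventually_ge_atTop 2] with d h3 h4 h5
    have h6 := hfg d h5
    have h7 : 0 < (Real.log d) ^ 2 := by positivity
    rw [Real.norm_eq_abs, abs_div, abs_mul, abs_of_pos h4, abs_of_pos h7, div_le_iff₀ h7]
    calc |f d - g d| * Real.log (Real.log d) ≤ (C * Real.log d) * Real.log (Real.log d) :=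
          mul_le_mul_of_nonneg_right h6 h4.le
      _ = C * (Real.log (Real.log d) / Real.log d) * (Real.log d) ^ 2 := by
          field_simp
  have := hg.add hsmall
  simp only [add_zero] at this
  refine this.congr fun d => ?_
  ring

end Pool.Agent.TPer
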