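import Pool.Agent.TPer.Red

/-! The good prime lemma (note 2688 (3)), for `M = p^(k+1) n`, `Lev T p k`, `T` not `M/p`-periodic.
Strong induction on `n`. (`M' = p^(k+1) g^v` with `g^v` the exact power of `g` in `n`.)
* Some prime `q ∣ n` has top level (`q^(j+1)` exactly divides `n`) in `Lev T`: cut `T` by the section
  through `b` (`s x = dig q j b` if `x = b % q^j`, else `0`): `T' = cut q j s T` is `NP` for `M/q`, with
  the same `b` and the shift `i (M/p) = (i q)(M/(q p))`.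
* Otherwise all top levels at primes `q ∣ n` are in `Lev A`. If `NP T (M/q) p` for one of them, use
  `(cut A, T)`. If `n = 1`: `Lev T p k` and `lev_iff` make `T` invariant: contradiction. If `n` is a
  prime power of `g`: take this `g` and no window. If two primes `r1, r2 ∣ n` have `¬ NP T (M/r_i) p`:
  `b1` with `M/r1 ∣ b1 - b - δ`, then `b2` with `M/r2 ∣ b2 - b1 + δ`, so `M/(r1 r2) ∣ b2 - b`, `b2 = b`
  by `inj_two`, `M ∣ b1 - b - δ`: contradiction.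
* Lifting back: if `g ≠ q` the window is extended by the section at `(q, j)`. If `g = q`: from `NP` for
  `M'/q` get `NP` for `M'` with the shift `δ u`, `u = 1 mod p`, `u = 0 mod q`. -/

namespace Pool.Agent.TPer

open Finset Pool.Agent.CMT

private theorem gpl_div {p k n : ℕ} (hp : p.Prime) : p ^ (k + 1) * n / p = p ^ k * n := by
  rw [pow_succ, mul_assoc, mul_comm p n, ← mul_assoc, Nat.mul_div_cancel _ hp.pos]

/-- The case of a prime power modulus is impossible. -/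
theorem np_pp {p k : ℕ} (hp : p.Prime) {A T : Finset ℕ} (h : Til (p ^ (k + 1)) A T)
    (hL : Lev T p k) (hNP : NP T (p ^ (k + 1)) p) : False := by
  obtain ⟨b, hb, i, hi⟩ := hNP
  have e1 : p ^ (k + 1) / p = p ^ k := by
    have := gpl_div (k := k) (n := 1) hp
    rwa [mul_one, mul_one] at this
  rw [e1] at hi
  have hp0 : (p : ℤ) ≠ 0 := by exact_mod_cast hp.ne_zero
  obtain ⟨c, hc⟩ : ∃ c : ℕ, (c : ℤ) = i % p := ⟨(i % p).toNat, Int.toNat_of_nonneg (Int.emod_nonneg _ hp0)⟩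
  have h1 : b ≡ b + c * p ^ k [MOD p ^ k] := by
    simp [Nat.ModEq]
  have h3 := (lev_iff hp).1 hL _ _ h1
  have h4 : 0 < (T.filter (fun a => a ≡ b [MOD p ^ (k + 1)])).card :=
    card_pos.2 ⟨b, mem_filter.2 ⟨hb, Nat.ModEq.refl b⟩⟩
  rw [h3] at h4
  obtain ⟨b', hb'⟩ := card_pos.1 h4
  rw [mem_filter] at hb'
  apply hi b' hb'.1
  have h5 : ((p ^ (k + 1) : ℕ) : ℤ) ∣ (b' : ℤ) - ((b + c * p ^ k : ℕ) : ℤ) :=
    (Nat.modEq_iff_dvd.1 hb'.2.symm)
  have h6 : (p : ℤ) ∣ (c : ℤ) - i := by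
    rw [hc]
    exact ⟨-(i / p), by have := Int.emod_add_mul_ediv i p; linear_combination this⟩
  obtain ⟨u, hu⟩ := h6
  obtain ⟨w, hw⟩ := h5
  refine ⟨w + u, ?_⟩
  push_cast at hw ⊢
  linear_combination hw + (p : ℤ) ^ k * hu

/-- Extended windows. -/
private def gpl_upd (t : ℕ → ℕ → ℕ → ℕ) (q j : ℕ) (s : ℕ → ℕ) : ℕ → ℕ → ℕ → ℕ :=
  fun q' j' x => if q' = q ∧ j' = j then s x else t q' j' x

private theorem gpl_adm {t : ℕ → ℕ → ℕ → ℕ} {q j : ℕ} {s : ℕ → ℕ} (ht : Adm t)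
    (hs : ∀ x, s x < q) : Adm (gpl_upd t q j s) := by
  intro q' j' x hq'
  unfold gpl_upd
  split_ifs with h
  · rw [h.1]
    exact hs x
  · exact ht q' j' x hq'

private theorem gpl_win {T : Finset ℕ} {t : ℕ → ℕ → ℕ → ℕ} {q j : ℕ} {s : ℕ → ℕ} (hq : q.Prime)
    {S : ℕ → ℕ → Prop} (hS : S q j) :
    win S (gpl_upd t q j s) T =
      win (fun q' j' => S q' j' ∧ ¬ (q' = q ∧ j' = j)) t (cut q j s T) := by
  ext a
  unfold win cut
  simp only [mem_filter]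
  constructor
  · rintro ⟨h1, h2⟩
    refine ⟨⟨h1, ?_⟩, fun q' j' hq' h3 => ?_⟩
    · have h4 := h2 q j hq hS
      unfold gpl_upd at h4
      rwa [if_pos ⟨rfl, rfl⟩] at h4
    · have h4 := h2 q' j' hq' h3.1
      unfold gpl_upd at h4
      rwa [if_neg h3.2] at h4
  · rintro ⟨⟨h1, h2⟩, h3⟩
    refine ⟨h1, fun q' j' hq' h4 => ?_⟩
    unfold gpl_upd
    split_ifs with h5
    · obtain ⟨rfl, rfl⟩ := h5
      exact h2
    · exact h3 q' j' hq' ⟨h4, h5⟩

private theorem gpl_congr {T : Finset ℕ} {t : ℕ → ℕ → ℕ → ℕ} {S S' : ℕ → ℕ → Prop}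
    (h : ∀ q j, q.Prime → (S q j ↔ S' q j)) : win S t T = win S' t T := by
  ext a
  unfold win
  simp only [mem_filter]
  refine and_congr_right fun _ => ⟨fun h1 q j hq hS => h1 q j hq ((h q j hq).2 hS),
    fun h1 q j hq hS => h1 q j hq ((h q j hq).1 hS)⟩

/-- The window without conditions. -/
private theorem gpl_full {T : Finset ℕ} {t : ℕ → ℕ → ℕ → ℕ} {S : ℕ → ℕ → Prop}
    (h : ∀ q j, q.Prime → ¬ S q j) : win S t T = T := by
  classical
  ext a
  unfold win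
  simp only [mem_filter]
  exact ⟨fun h1 => h1.1, fun h1 => ⟨h1, fun q j hq hS => absurd hS (h q j hq)⟩⟩

/-- Cutting `T` through the witness `b` keeps `NP`. -/
theorem np_cut {p k n q j : ℕ} (hp : p.Prime) (hn : n.Coprime p) (hq : q.Prime) (hqp : q ≠ p)
    (hj : q ^ (j + 1) ∣ n) (hj' : ¬ q ^ (j + 2) ∣ n) {A T : Finset ℕ}
    (h : Til (p ^ (k + 1) * n) A T) (hT : Lev T q j) (hNP : NP T (p ^ (k + 1) * n) p) :
    ∃ s : ℕ → ℕ, (∀ x, s x < q) ∧ NP (cut q j s T) (p ^ (k + 1) * (n / q)) p := by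
  obtain ⟨m, rfl⟩ := hj
  have hm : ¬ q ∣ m := by
    rintro ⟨u, rfl⟩
    exact hj' ⟨u, by ring⟩
  have e1 : q ^ (j + 1) * m / q = q ^ j * m := gpl_div hq
  rw [e1]
  obtain ⟨b, hb, i, hi⟩ := hNP
  rw [gpl_div hp] at hi
  refine ⟨fun x => if x = b % q ^ j then dig q j b else 0, fun x => ?_, b, ?_, i * q,
    fun b' hb' hd => ?_⟩
  · show (if x = b % q ^ j then dig q j b else 0) < q
    split_ifs
    · exact Nat.mod_lt _ hq.pos
    · exact hq.pos
  · unfold cut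
    rw [mem_filter]
    refine ⟨hb, ?_⟩
    show dig q j b = if b % q ^ j = b % q ^ j then dig q j b else 0
    rw [if_pos rfl]
  · rw [gpl_div hp] at hd
    unfold cut at hb'
    rw [mem_filter] at hb'
    obtain ⟨hb'T, hdig⟩ := hb'
    apply hi b' hb'T
    -- lower residues agree
    have h1 : ((q ^ j : ℕ) : ℤ) ∣ (b' : ℤ) - b := by
      have h2 : ((q ^ j : ℕ) : ℤ) ∣ (b' : ℤ) - b - i * q * ((p ^ k * (q ^ j * m) : ℕ) : ℤ) :=
        dvd_trans (Int.natCast_dvd_natCast.2 ⟨p ^ (k + 1) * m, by ring⟩) hd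
      have h3 : ((q ^ j : ℕ) : ℤ) ∣ i * q * ((p ^ k * (q ^ j * m) : ℕ) : ℤ) :=
        ⟨i * q * p ^ k * m, by push_cast; ring⟩
      have := dvd_add h2 h3
      rwa [sub_add_cancel] at this
    have h4 : b ≡ b' [MOD q ^ j] := Nat.modEq_iff_dvd.2 h1
    have h5 : dig q j b' = dig q j b := by
      rw [hdig]
      show (if b' % q ^ j = b % q ^ j then dig q j b else 0) = dig q j b
      rw [if_pos (show b' % q ^ j = b % q ^ j from h4.symm)]
    have h6 : ((q ^ (j + 1) : ℕ) : ℤ) ∣ (b' : ℤ) - b := by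
      refine Nat.modEq_iff_dvd.1 ?_
      unfold Nat.ModEq
      unfold dig at h5
      have h7 : b % q ^ j = b' % q ^ j := h4
      rw [pow_succ, Nat.mod_mul, Nat.mod_mul, h5, h7]
    have h8 : ((q ^ (j + 1) : ℕ) : ℤ) ∣
        (b' : ℤ) - b - i * ((p ^ k * (q ^ (j + 1) * m) : ℕ) : ℤ) :=
      dvd_sub h6 ⟨i * p ^ k * m, by push_cast; ring⟩
    have h9 : ((p ^ (k + 1) * m : ℕ) : ℤ) ∣
        (b' : ℤ) - b - i * ((p ^ k * (q ^ (j + 1) * m) : ℕ) : ℤ) := by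
      have e2 : i * ((p ^ k * (q ^ (j + 1) * m) : ℕ) : ℤ) =
          i * q * ((p ^ k * (q ^ j * m) : ℕ) : ℤ) := by
        push_cast
        ring
      rw [e2]
      exact dvd_trans (Int.natCast_dvd_natCast.2 ⟨q ^ j, by ring⟩) hd
    have h10 : IsCoprime ((q ^ (j + 1) : ℕ) : ℤ) ((p ^ (k + 1) * m : ℕ) : ℤ) := by
      refine Nat.Coprime.isCoprime ?_
      refine Nat.Coprime.mul_right ?_ ?_
      · exact Nat.Coprime.pow _ _ ((Nat.coprime_primes hq hp).2 hqp)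
      · exact Nat.Coprime.pow_left _ ((Nat.Prime.coprime_iff_not_dvd hq).2 hm)
    have h11 := h10.mul_dvd h8 h9
    have e3 : ((p ^ (k + 1) * (q ^ (j + 1) * m) : ℕ) : ℤ) =
        ((q ^ (j + 1) : ℕ) : ℤ) * ((p ^ (k + 1) * m : ℕ) : ℤ) := by
      push_cast
      ring
    rw [e3]
    exact h11

/-- From `NP` modulo `M'/q` to `NP` modulo `M'`. -/
theorem np_lift {p q m : ℕ} (hp : p.Prime) (hq : q.Prime) (hqp : q ≠ p) (hm : p * q ∣ m)
    {T : Finset ℕ} (hNP : NP T (m / q) p) : NP T m p := by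
  obtain ⟨u, rfl⟩ := hm
  have e1 : p * q * u / q = p * u := by
    rw [mul_right_comm, Nat.mul_div_cancel _ hq.pos]
  have e2 : p * u / p = u := Nat.mul_div_cancel_left _ hp.pos
  have e3 : p * q * u / p = q * u := by
    rw [mul_assoc, Nat.mul_div_cancel_left _ hp.pos]
  obtain ⟨b, hb, i, hi⟩ := hNP
  rw [e1, e2] at hi
  obtain ⟨x, y, hxy⟩ : IsCoprime (q : ℤ) (p : ℤ) :=
    Nat.Coprime.isCoprime ((Nat.coprime_primes hq hp).2 hqp)
  refine ⟨b, hb, i * x, fun b' hb' hd => hi b' hb' ?_⟩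
  rw [e3] at hd
  have h1 : ((p * u : ℕ) : ℤ) ∣ (b' : ℤ) - b - i * x * ((q * u : ℕ) : ℤ) :=
    dvd_trans (Int.natCast_dvd_natCast.2 ⟨q, by ring⟩) hd
  have h2 : ((p * u : ℕ) : ℤ) ∣ i * x * ((q * u : ℕ) : ℤ) - i * (u : ℤ) := by
    refine ⟨-(i * y), ?_⟩
    push_cast
    linear_combination (i * u) * hxy
  have h3 := dvd_add h1 h2
  rwa [sub_add_sub_cancel] at h3

/-- The same after a cut. -/
theorem np_lift_cut {p k q j : ℕ} (hp : p.Prime) (hq : q.Prime) (hqp : q ≠ p) {T : Finset ℕ}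
    {s : ℕ → ℕ} (hNP : NP (cut q j s T) (p ^ (k + 1) * q ^ j) p) :
    NP T (p ^ (k + 1) * q ^ (j + 1)) p := by
  obtain ⟨b, hb, i, hi⟩ := hNP
  rw [gpl_div hp] at hi
  obtain ⟨x, y, hxy⟩ : IsCoprime (q : ℤ) (p : ℤ) :=
    Nat.Coprime.isCoprime ((Nat.coprime_primes hq hp).2 hqp)
  unfold cut at hb hi
  rw [mem_filter] at hb
  refine ⟨b, hb.1, i * x, fun b' hb' hd => hi b' ?_ ?_⟩
  · rw [gpl_div hp] at hd
    have h1 : ((q ^ (j + 1) : ℕ) : ℤ) ∣ (b' : ℤ) - b := by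
      have h2 : ((q ^ (j + 1) : ℕ) : ℤ) ∣
          (b' : ℤ) - b - i * x * ((p ^ k * q ^ (j + 1) : ℕ) : ℤ) :=
        dvd_trans (Int.natCast_dvd_natCast.2 ⟨p ^ (k + 1), by ring⟩) hd
      have h3 : ((q ^ (j + 1) : ℕ) : ℤ) ∣ i * x * ((p ^ k * q ^ (j + 1) : ℕ) : ℤ) :=
        ⟨i * x * p ^ k, by push_cast; ring⟩
      have := dvd_add h2 h3
      rwa [sub_add_cancel] at this
    have h4 : b % (q ^ j * q) = b' % (q ^ j * q) := by
      rw [← pow_succ]
      exact Nat.modEq_iff_dvd.2 h1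
    have h5 : b % q ^ j = b' % q ^ j := (Nat.ModEq.of_mul_right q h4 : b ≡ b' [MOD q ^ j])
    have h6 : dig q j b = dig q j b' := by
      unfold dig
      rw [Nat.mod_mul, Nat.mod_mul, h5] at h4
      have h7 := Nat.add_left_cancel h4
      exact Nat.eq_of_mul_eq_mul_left (pow_pos hq.pos j) h7
    rw [mem_filter]
    exact ⟨hb', by rw [← h6, ← h5]; exact hb.2⟩
  · rw [gpl_div hp] at hd
    have h1 : ((p ^ (k + 1) * q ^ j : ℕ) : ℤ) ∣
        (b' : ℤ) - b - i * x * ((p ^ k * q ^ (j + 1) : ℕ) : ℤ) :=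
      dvd_trans (Int.natCast_dvd_natCast.2 ⟨q, by ring⟩) hd
    have h2 : ((p ^ (k + 1) * q ^ j : ℕ) : ℤ) ∣
        i * x * ((p ^ k * q ^ (j + 1) : ℕ) : ℤ) - i * ((p ^ k * q ^ j : ℕ) : ℤ) := by
      refine ⟨-(i * y), ?_⟩
      push_cast
      linear_combination (i * p ^ k * q ^ j) * hxy
    have h3 := dvd_add h1 h2
    rwa [sub_add_sub_cancel] at h3

/-- `q'^(j'+1) ∣ p^(k+1) r^v` only for `q' = p` or `q' = r`. -/
private theorem gpl_dvd {p k r v q j : ℕ} (hp : p.Prime) (hr : r.Prime) (hq : q.Prime)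
    (hd : q ^ (j + 1) ∣ p ^ (k + 1) * r ^ v) : q = p ∨ q = r := by
  have h1 : q ∣ p ^ (k + 1) * r ^ v := (dvd_pow_self q (Nat.succ_ne_zero j)).trans hd
  rcases (Nat.Prime.dvd_mul hq).1 h1 with h2 | h2
  · exact Or.inl ((Nat.prime_dvd_prime_iff_eq hq hp).1 (hq.dvd_of_dvd_pow h2))
  · exact Or.inr ((Nat.prime_dvd_prime_iff_eq hq hr).1 (hq.dvd_of_dvd_pow h2))

/-- The levels at `q` of the two moduli. -/
private theorem gpl_lvq {p k q j j' : ℕ} (hp : p.Prime) (hq : q.Prime) (hqp : q ≠ p) :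
    q ^ (j' + 1) ∣ p ^ (k + 1) * q ^ j ↔ j' + 1 ≤ j := by
  have h1 : (q ^ (j' + 1)).Coprime (p ^ (k + 1)) :=
    Nat.Coprime.pow _ _ ((Nat.coprime_primes hq hp).2 hqp)
  rw [h1.dvd_mul_left, Nat.pow_dvd_pow_iff_le_right hq.one_lt]

private theorem gpl_lvp {p k q j j' : ℕ} (hp : p.Prime) (hq : q.Prime) (hqp : q ≠ p) :
    p ^ (j' + 1) ∣ p ^ (k + 1) * q ^ j ↔ j' + 1 ≤ k + 1 := by
  have h1 : (p ^ (j' + 1)).Coprime (q ^ j) :=
    Nat.Coprime.pow _ _ ((Nat.coprime_primes hp hq).2 (Ne.symm hqp))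
  rw [h1.dvd_mul_right, Nat.pow_dvd_pow_iff_le_right hp.one_lt]

/-- Change of the modulus from `p^(k+1) q^j` to `p^(k+1) q^(j+1)`: only the level `(q, j)` changes. -/
private theorem gpl_chg {p k q j q' j' : ℕ} (hp : p.Prime) (hq : q.Prime) (hqp : q ≠ p)
    (hq' : q'.Prime) (hne : ¬ (q' = q ∧ j' = j)) :
    q' ^ (j' + 1) ∣ p ^ (k + 1) * q ^ j ↔ q' ^ (j' + 1) ∣ p ^ (k + 1) * q ^ (j + 1) := by
  by_cases h1 : q' = q
  · subst h1
    rw [gpl_lvq hp hq hqp, gpl_lvq hp hq hqp]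
    have : j' ≠ j := fun h => hne ⟨rfl, h⟩
    omega
  · by_cases h2 : q' = p
    · subst h2
      rw [gpl_lvp hp hq hqp, gpl_lvp hp hq hqp]
    · constructor
      · intro h
        rcases gpl_dvd hp hq hq' h with h | h
        · exact absurd h h2
        · exact absurd h h1
      · intro h
        rcases gpl_dvd hp hq hq' h with h | h
        · exact absurd h h2
        · exact absurd h h1

theorem gpl {p k n : ℕ} (hp : p.Prime) (hn : n.Coprime p) {A T : Finset ℕ}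
    (h : Til (p ^ (k + 1) * n) A T) (hL : Lev T p k) (hNP : NP T (p ^ (k + 1) * n) p) :
    ∃ g v, g.Prime ∧ g ≠ p ∧ g ^ v ∣ n ∧ ¬ g ^ (v + 1) ∣ n ∧ ∃ t, Adm t ∧
      NP (win (fun q j => Lev T q j ∧ ¬ q ^ (j + 1) ∣ p ^ (k + 1) * g ^ v) t T)
        (p ^ (k + 1) * g ^ v) p := by
  induction n using Nat.strong_induction_on generalizing A T with
  | _ n ih =>
  have hn0 : n ≠ 0 := by
    rintro rfl
    have := h.1
    simp at this
  by_cases h1 : n = 1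
  · subst h1
    rw [mul_one] at h hNP
    exact (np_pp hp h hL hNP).elim
  -- the data of a prime divisor
  have hdat : ∀ q, q.Prime → q ∣ n → q ≠ p ∧ ∃ j m, n = q ^ (j + 1) * m ∧ ¬ q ∣ m := by
    intro q hq hqn
    refine ⟨?_, ?_⟩
    · rintro rfl
      have := Nat.Coprime.eq_one_of_dvd (Nat.Coprime.symm hn) hqn
      exact hq.ne_one this
    · obtain ⟨e, m, hqm, hnm⟩ := Nat.exists_eq_pow_mul_and_not_dvd hn0 q hq.ne_one
      obtain ⟨j, rfl⟩ : ∃ j, e = j + 1 := by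
        rcases e with _ | j
        · exact absurd (by simpa [hnm] using hqn) hqm
        · exact ⟨j, rfl⟩
      exact ⟨j, m, hnm, hqm⟩
  by_cases hex : ∃ q j m, q.Prime ∧ n = q ^ (j + 1) * m ∧ ¬ q ∣ m ∧ Lev T q j
  · -- a top level of `T`
    obtain ⟨q, j, m, hq, rfl, hqm, hTq⟩ := hex
    have hqp : q ≠ p := (hdat q hq ⟨q ^ j * m, by ring⟩).1
    have hj' : ¬ q ^ (j + 2) ∣ q ^ (j + 1) * m := by
      rintro ⟨u, hu⟩
      apply hqm
      refine ⟨u, ?_⟩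
      have h2 : q ^ (j + 1) * m = q ^ (j + 1) * (q * u) := by
        rw [hu]
        ring
      exact Nat.eq_of_mul_eq_mul_left (pow_pos hq.pos _) h2
    obtain ⟨s, hs, hNP'⟩ := np_cut hp hn hq hqp (dvd_mul_right _ _) hj' h hTq hNP
    rw [gpl_div hq] at hNP'
    have hmq : (p ^ (k + 1) * m).Coprime q :=
      Nat.Coprime.mul_left (Nat.Coprime.pow_left _ ((Nat.coprime_primes hp hq).2 (Ne.symm hqp)))
        ((Nat.Prime.coprime_iff_not_dvd hq).2 hqm).symm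
    have e1 : p ^ (k + 1) * (q ^ (j + 1) * m) = q ^ (j + 1) * (p ^ (k + 1) * m) := by ring
    have e2 : p ^ (k + 1) * (q ^ j * m) = q ^ j * (p ^ (k + 1) * m) := by ring
    rw [e1] at h
    have hT' := typeB hq hmq h hTq s hs
    have hlev : ∀ {q' j' : ℕ}, q'.Prime →
        (Lev (cut q j s T) q' j' ↔ Lev T q' j' ∧ ¬ (q' = q ∧ j' = j)) :=
      fun hq' => lev_cut_B hq hmq h hTq s hs hq'
    have hL' : Lev (cut q j s T) p k := (hlev hp).2 ⟨hL, fun hh => hqp hh.1.symm⟩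
    have hlt : q ^ j * m < q ^ (j + 1) * m := by
      have hm0 : 0 < m := Nat.pos_of_ne_zero (by rintro rfl; exact hqm (dvd_zero q))
      exact Nat.mul_lt_mul_of_pos_right (Nat.pow_lt_pow_right hq.one_lt (Nat.lt_succ_self j)) hm0
    have hn' : (q ^ j * m).Coprime p :=
      Nat.Coprime.coprime_dvd_left ⟨q, by ring⟩ hn
    rw [← e2] at hT'
    obtain ⟨g, v, hg, hgp, hgv, hgv', t, ht, hNPt⟩ := ih _ hlt hn' hT' hL' hNP'
    have hcong : ∀ (X : ℕ), win (fun q' j' => Lev (cut q j s T) q' j' ∧ ¬ q' ^ (j' + 1) ∣ X) t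
        (cut q j s T) = win (fun q' j' => (Lev T q' j' ∧ ¬ q' ^ (j' + 1) ∣ X) ∧
          ¬ (q' = q ∧ j' = j)) t (cut q j s T) := by
      intro X
      refine gpl_congr fun q' j' hq' => ?_
      rw [hlev hq']
      tauto
    rw [hcong] at hNPt
    by_cases hgq : g = q
    · subst hgq
      have hvj : v = j := by
        have h3 : (g ^ v).Coprime m :=
          Nat.Coprime.pow_left _ ((Nat.Prime.coprime_iff_not_dvd hg).2 hqm)
        have h4 : g ^ v ∣ g ^ j := h3.dvd_of_dvd_mul_right hgv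
        have h5 : v ≤ j := (Nat.pow_dvd_pow_iff_le_right hg.one_lt).1 h4
        have h6 : ¬ v + 1 ≤ j := fun h7 => hgv' ((pow_dvd_pow g h7).trans (dvd_mul_right _ _))
        omega
      subst hvj
      refine ⟨g, v + 1, hg, hgp, dvd_mul_right _ _, hj', t, ht, ?_⟩
      refine np_lift_cut hp hg hgp (s := s) ?_
      convert hNPt using 1
      ext a
      unfold cut win
      simp only [mem_filter]
      constructor
      · rintro ⟨⟨h3, h4⟩, h5⟩
        refine ⟨⟨h3, h5⟩, fun q' j' hq' h6 => h4 q' j' hq' ⟨h6.1.1, fun h7 => h6.1.2 ?_⟩⟩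
        exact (gpl_chg hp hg hgp hq' h6.2).2 h7
      · rintro ⟨⟨h3, h4⟩, h5⟩
        refine ⟨⟨h3, fun q' j' hq' h6 => ?_⟩, h4⟩
        by_cases h7 : q' = g ∧ j' = v
        · exfalso
          obtain ⟨rfl, rfl⟩ := h7
          exact h6.2 (dvd_mul_left _ _)
        · refine h5 q' j' hq' ⟨⟨h6.1, fun h8 => h6.2 ?_⟩, h7⟩
          exact (gpl_chg hp hg hgp hq' h7).1 h8
    · have hgc : ∀ e, (g ^ e).Coprime q := fun e =>
        Nat.Coprime.pow_left _ ((Nat.coprime_primes hg hq).2 hgq)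
      refine ⟨g, v, hg, hgp, hgv.trans ⟨q, by ring⟩, fun h3 => hgv' ?_, gpl_upd t q j s,
        gpl_adm ht hs, ?_⟩
      · have h4 : q ^ (j + 1) * m = q * (q ^ j * m) := by ring
        rw [h4] at h3
        exact (hgc _).dvd_of_dvd_mul_left h3
      · rw [gpl_win hq (S := fun q' j' => Lev T q' j' ∧ ¬ q' ^ (j' + 1) ∣ p ^ (k + 1) * g ^ v)
          ⟨hTq, fun h3 => ?_⟩]
        · exact hNPt
        · rcases gpl_dvd hp hg hq h3 with h4 | h4
          · exact hqp h4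
          · exact hgq h4.symm
  -- all top levels are levels of `A`
  have hA : ∀ q j m, q.Prime → n = q ^ (j + 1) * m → ¬ q ∣ m → Lev A q j := by
    intro q j m hq hnm hqm
    rcases lev_or h (q := q) (j := j) hq ⟨p ^ (k + 1) * m, by rw [hnm]; ring⟩ with h2 | h2
    · exact h2
    · exact absurd ⟨q, j, m, hq, hnm, hqm, h2⟩ hex
  by_cases hpp : ∃ g v, g.Prime ∧ n = g ^ v
  · obtain ⟨g, v, hg, rfl⟩ := hpp
    have hv : v ≠ 0 := by
      rintro rfl
      exact h1 (pow_zero g)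
    have hgp : g ≠ p := (hdat g hg (dvd_pow_self g hv)).1
    refine ⟨g, v, hg, hgp, dvd_rfl, fun h2 => ?_, fun _ _ _ => 0, fun q j x hq => hq.pos, ?_⟩
    · have := (Nat.pow_dvd_pow_iff_le_right hg.one_lt).1 h2
      omega
    · rw [gpl_full]
      · exact hNP
      · rintro q j hq ⟨h2, h3⟩
        exact h3 (lev_dvd h.symm hq h2)
  by_cases hNPq : ∃ q j m, q.Prime ∧ n = q ^ (j + 1) * m ∧ ¬ q ∣ m ∧
      NP T (p ^ (k + 1) * (q ^ j * m)) p
  · obtain ⟨q, j, m, hq, rfl, hqm, hNP'⟩ := hNPq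
    have hqp : q ≠ p := (hdat q hq ⟨q ^ j * m, by ring⟩).1
    have hAq := hA q j m hq rfl hqm
    have hmq : (p ^ (k + 1) * m).Coprime q :=
      Nat.Coprime.mul_left (Nat.Coprime.pow_left _ ((Nat.coprime_primes hp hq).2 (Ne.symm hqp)))
        ((Nat.Prime.coprime_iff_not_dvd hq).2 hqm).symm
    have e1 : p ^ (k + 1) * (q ^ (j + 1) * m) = q ^ (j + 1) * (p ^ (k + 1) * m) := by ring
    have e2 : p ^ (k + 1) * (q ^ j * m) = q ^ j * (p ^ (k + 1) * m) := by ring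
    have hA' := typeA hq hmq (by rw [← e1]; exact h) hAq (fun _ => 0) (fun _ => hq.pos)
    have hlt : q ^ j * m < q ^ (j + 1) * m := by
      have hm0 : 0 < m := Nat.pos_of_ne_zero (by rintro rfl; exact hqm (dvd_zero q))
      exact Nat.mul_lt_mul_of_pos_right (Nat.pow_lt_pow_right hq.one_lt (Nat.lt_succ_self j)) hm0
    have hn' : (q ^ j * m).Coprime p :=
      Nat.Coprime.coprime_dvd_left ⟨q, by ring⟩ hn
    rw [← e2] at hA'
    obtain ⟨g, v, hg, hgp, hgv, hgv', t, ht, hNPt⟩ := ih _ hlt hn' hA' hL hNP'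
    by_cases hgq : g = q
    · subst hgq
      have hvj : v = j := by
        have h3 : (g ^ v).Coprime m :=
          Nat.Coprime.pow_left _ ((Nat.Prime.coprime_iff_not_dvd hg).2 hqm)
        have h4 : g ^ v ∣ g ^ j := h3.dvd_of_dvd_mul_right hgv
        have h5 : v ≤ j := (Nat.pow_dvd_pow_iff_le_right hg.one_lt).1 h4
        have h6 : ¬ v + 1 ≤ j := fun h7 => hgv' ((pow_dvd_pow g h7).trans (dvd_mul_right _ _))
        omega
      subst hvj
      refine ⟨g, v + 1, hg, hgp, dvd_mul_right _ _, ?_, t, ht, ?_⟩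
      · rintro ⟨u, hu⟩
        apply hqm
        refine ⟨u, ?_⟩
        have h2 : g ^ (v + 1) * m = g ^ (v + 1) * (g * u) := by
          rw [hu]
          ring
        exact Nat.eq_of_mul_eq_mul_left (pow_pos hg.pos _) h2
      · refine np_lift hp hg hgp ⟨p ^ k * g ^ v, by ring⟩ ?_
        have e3 : p ^ (k + 1) * g ^ (v + 1) / g = p ^ (k + 1) * g ^ v := by
          rw [pow_succ g v, ← mul_assoc, Nat.mul_div_cancel _ hg.pos]
        rw [e3]
        rw [gpl_congr (S' := fun q' j' => Lev T q' j' ∧ ¬ q' ^ (j' + 1) ∣ p ^ (k + 1) * g ^ v)]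
        · exact hNPt
        · intro q' j' hq'
          refine and_congr_right fun h3 => ?_
          have h4 : ¬ (q' = g ∧ j' = v) := by
            rintro ⟨rfl, rfl⟩
            exact lev_not_both h hq' ⟨p ^ (k + 1) * m, by ring⟩ hAq h3
          rw [gpl_chg hp hg hgp hq' h4]
    · have hgc : ∀ e, (g ^ e).Coprime q := fun e =>
        Nat.Coprime.pow_left _ ((Nat.coprime_primes hg hq).2 hgq)
      refine ⟨g, v, hg, hgp, hgv.trans ⟨q, by ring⟩, fun h3 => hgv' ?_, t, ht, hNPt⟩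
      have h4 : q ^ (j + 1) * m = q * (q ^ j * m) := by ring
      rw [h4] at h3
      exact (hgc _).dvd_of_dvd_mul_left h3
  -- two primes without `NP`
  exfalso
  obtain ⟨r1, hr1, hr1n⟩ := Nat.exists_prime_and_dvd h1
  obtain ⟨h1p, j1, m1, hm1, hm1'⟩ := hdat r1 hr1 hr1n
  have hm11 : m1 ≠ 1 := by
    rintro rfl
    exact hpp ⟨r1, j1 + 1, hr1, by rw [hm1, mul_one]⟩
  obtain ⟨r2, hr2, hr2m⟩ := Nat.exists_prime_and_dvd hm11
  have hr2n : r2 ∣ n := hr2m.trans ⟨r1 ^ (j1 + 1), by rw [hm1, mul_comm]⟩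
  have h12 : r1 ≠ r2 := by
    rintro rfl
    exact hm1' hr2m
  obtain ⟨h2p, j2, m2, hm2, hm2'⟩ := hdat r2 hr2 hr2n
  obtain ⟨w, hw⟩ : r1 * r2 ∣ n :=
    Nat.Coprime.mul_dvd_of_dvd_of_dvd ((Nat.coprime_primes hr1 hr2).2 h12) hr1n hr2n
  have hNP1 : ¬ NP T (p ^ (k + 1) * (r2 * w)) p := by
    intro h2
    apply hNPq
    refine ⟨r1, j1, m1, hr1, hm1, hm1', ?_⟩
    have : r1 * (r1 ^ j1 * m1) = r1 * (r2 * w) := by
      rw [← mul_assoc r1 r2 w, ← hw, hm1]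
      ring
    rw [Nat.eq_of_mul_eq_mul_left hr1.pos this]
    exact h2
  have hNP2 : ¬ NP T (p ^ (k + 1) * (r1 * w)) p := by
    intro h2
    apply hNPq
    refine ⟨r2, j2, m2, hr2, hm2, hm2', ?_⟩
    have : r2 * (r2 ^ j2 * m2) = r2 * (r1 * w) := by
      rw [← mul_assoc r2 r1 w, mul_comm r2 r1, ← hw, hm2]
      ring
    rw [Nat.eq_of_mul_eq_mul_left hr2.pos this]
    exact h2
  obtain ⟨b, hb, i, hi⟩ := hNP
  rw [gpl_div hp] at hi
  unfold NP at hNP1 hNP2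
  push Not at hNP1 hNP2
  obtain ⟨b1, hb1, hd1⟩ := hNP1 b hb (i * r1)
  obtain ⟨b2, hb2, hd2⟩ := hNP2 b1 hb1 (-(i * r2))
  rw [gpl_div hp] at hd1 hd2
  have e1 : i * r1 * ((p ^ k * (r2 * w) : ℕ) : ℤ) = i * ((p ^ k * n : ℕ) : ℤ) := by
    rw [hw]
    push_cast
    ring
  have e2 : -(i * r2) * ((p ^ k * (r1 * w) : ℕ) : ℤ) = -(i * ((p ^ k * n : ℕ) : ℤ)) := by
    rw [hw]
    push_cast
    ring
  rw [e1] at hd1
  rw [e2] at hd2
  have h3 : ((p ^ (k + 1) * w : ℕ) : ℤ) ∣ (b2 : ℤ) - b := by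
    have h4 := dvd_trans (Int.natCast_dvd_natCast.2
      (⟨r2, by ring⟩ : p ^ (k + 1) * w ∣ p ^ (k + 1) * (r2 * w))) hd1
    have h5 := dvd_trans (Int.natCast_dvd_natCast.2
      (⟨r1, by ring⟩ : p ^ (k + 1) * w ∣ p ^ (k + 1) * (r1 * w))) hd2
    have h6 := dvd_add h4 h5
    have e3 : (b1 : ℤ) - b - i * ((p ^ k * n : ℕ) : ℤ) +
        ((b2 : ℤ) - b1 - -(i * ((p ^ k * n : ℕ) : ℤ))) = (b2 : ℤ) - b := by ring
    rwa [e3] at h6
  have e4 : p ^ (k + 1) * n / (r1 * r2) = p ^ (k + 1) * w := by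
    rw [hw, mul_comm (r1 * r2) w, ← mul_assoc,
      Nat.mul_div_cancel _ (Nat.mul_pos hr1.pos hr2.pos)]
  have hbb : b2 = b := by
    refine inj_two h hr1 hr2 h12 (k1 := j1) (k2 := j2) ⟨p ^ (k + 1) * m1, by rw [hm1]; ring⟩ ?_
      ⟨p ^ (k + 1) * m2, by rw [hm2]; ring⟩ ?_ (hA r1 j1 m1 hr1 hm1 hm1')
      (hA r2 j2 m2 hr2 hm2 hm2') hb2 hb ?_
    · intro h7
      have h8 : (r1 ^ (j1 + 2)).Coprime (p ^ (k + 1)) :=
        Nat.Coprime.pow _ _ ((Nat.coprime_primes hr1 hp).2 h1p)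
      obtain ⟨u, hu⟩ := h8.dvd_of_dvd_mul_left h7
      apply hm1'
      refine ⟨u, Nat.eq_of_mul_eq_mul_left (pow_pos hr1.pos (j1 + 1)) ?_⟩
      rw [← hm1, hu]
      ring
    · intro h7
      have h8 : (r2 ^ (j2 + 2)).Coprime (p ^ (k + 1)) :=
        Nat.Coprime.pow _ _ ((Nat.coprime_primes hr2 hp).2 h2p)
      obtain ⟨u, hu⟩ := h8.dvd_of_dvd_mul_left h7
      apply hm2'
      refine ⟨u, Nat.eq_of_mul_eq_mul_left (pow_pos hr2.pos (j2 + 1)) ?_⟩
      rw [← hm2, hu]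
      ring
    · rw [e4]
      exact (Nat.modEq_iff_dvd.2 h3).symm
  subst hbb
  apply hi b1 hb1
  -- `M` divides the difference
  have hA1 : ((p ^ (k + 1) * (r2 * w) : ℕ) : ℤ) ∣ (b1 : ℤ) - b2 - i * ((p ^ k * n : ℕ) : ℤ) := hd1
  have hA2 : ((p ^ (k + 1) * (r1 * w) : ℕ) : ℤ) ∣ (b1 : ℤ) - b2 - i * ((p ^ k * n : ℕ) : ℤ) := by
    have := (dvd_neg (α := ℤ)).2 hd2
    have e3 : -((b2 : ℤ) - b1 - -(i * ((p ^ k * n : ℕ) : ℤ))) =
        (b1 : ℤ) - b2 - i * ((p ^ k * n : ℕ) : ℤ) := by ring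
    rwa [e3] at this
  obtain ⟨x, hx⟩ := hA1
  obtain ⟨y, hy⟩ := hA2
  obtain ⟨α, β, hαβ⟩ : IsCoprime (r1 : ℤ) (r2 : ℤ) :=
    Nat.Coprime.isCoprime ((Nat.coprime_primes hr1 hr2).2 h12)
  refine ⟨α * x + β * y, ?_⟩
  rw [hw]
  rw [hw] at hx hy
  push_cast at hx hy ⊢
  linear_combination (α * r1) * hx + (β * r2) * hy -
    ((b1 : ℤ) - b2 - i * (p ^ k * (r1 * r2 * w))) * hαβ

/-- Reduction of the levels of `T` at `g` above the top level of `A` at `g`. -/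
theorem gtop {p k g v : ℕ} (hp : p.Prime) (hg : g.Prime) (hgp : g ≠ p) {A T : Finset ℕ}
    (h : Til (p ^ (k + 1) * g ^ v) A T) (hL : Lev T p k)
    (hNP : NP T (p ^ (k + 1) * g ^ v) p) :
    ∃ l, l < v ∧ Lev A g l ∧ (∀ j, Lev A g j → j ≤ l) ∧ ∃ t, Adm t ∧
      NP (win (fun q j => Lev T q j ∧ ¬ q ^ (j + 1) ∣ p ^ (k + 1) * g ^ (l + 1)) t T)
        (p ^ (k + 1) * g ^ (l + 1)) p := by
  induction v generalizing T with
  | zero =>
    rw [pow_zero, mul_one] at h hNP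
    exact (np_pp hp h hL hNP).elim
  | succ w ih =>
    rcases lev_or h (q := g) (j := w) hg (dvd_mul_left _ _) with h1 | h1
    · refine ⟨w, Nat.lt_succ_self w, h1, fun j hj => ?_, fun _ _ _ => 0, fun q j x hq => hq.pos, ?_⟩
      · have h2 := lev_dvd h hg hj
        rw [gpl_lvq hp hg hgp] at h2
        omega
      · rw [gpl_full]
        · exact hNP
        · rintro q j hq ⟨h2, h3⟩
          exact h3 (lev_dvd h.symm hq h2)
    · have hn : (g ^ (w + 1)).Coprime p :=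
        Nat.Coprime.pow_left _ ((Nat.coprime_primes hg hp).2 hgp)
      have hj' : ¬ g ^ (w + 2) ∣ g ^ (w + 1) := by
        intro h2
        have := (Nat.pow_dvd_pow_iff_le_right hg.one_lt).1 h2
        omega
      obtain ⟨s, hs, hNP'⟩ := np_cut hp hn hg hgp dvd_rfl hj' h h1 hNP
      have e0 : g ^ (w + 1) / g = g ^ w := by
        rw [pow_succ, Nat.mul_div_cancel _ hg.pos]
      rw [e0] at hNP'
      have hpg : (p ^ (k + 1)).Coprime g :=
        Nat.Coprime.pow_left _ ((Nat.coprime_primes hp hg).2 (Ne.symm hgp))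
      have h' : Til (g ^ (w + 1) * p ^ (k + 1)) A T := by
        rw [mul_comm]
        exact h
      have hT' := typeB hg hpg h' h1 s hs
      rw [mul_comm] at hT'
      have hlev : ∀ {q' j' : ℕ}, q'.Prime →
          (Lev (cut g w s T) q' j' ↔ Lev T q' j' ∧ ¬ (q' = g ∧ j' = w)) :=
        fun hq' => lev_cut_B hg hpg h' h1 s hs hq'
      have hL' : Lev (cut g w s T) p k := (hlev hp).2 ⟨hL, fun hh => hgp hh.1.symm⟩
      obtain ⟨l, hl, hAl, hmax, t, ht, hNPt⟩ := ih hT' hL' hNP'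
      refine ⟨l, by omega, hAl, hmax, gpl_upd t g w s, gpl_adm ht hs, ?_⟩
      rw [gpl_win hg (S := fun q' j' => Lev T q' j' ∧ ¬ q' ^ (j' + 1) ∣ p ^ (k + 1) * g ^ (l + 1))
        ⟨h1, fun h3 => ?_⟩]
      · rw [gpl_congr (S' := fun q' j' => Lev (cut g w s T) q' j' ∧
          ¬ q' ^ (j' + 1) ∣ p ^ (k + 1) * g ^ (l + 1))]
        · exact hNPt
        · intro q' j' hq'
          rw [hlev hq']
          tauto
      · rw [gpl_lvq hp hg hgp] at h3
        omega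

end Pool.Agent.TPer
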