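import Pool.Agent.TPer.Red
import Pool.Agent.CMT.F3

/-! The case of two primes (note 2688 (4)): `M = p^(k+1) g^(l+1)`, `Lev T p k`, `Lev A g l`, `T` not
`M/p`-periodic. Then for every class `c` mod `p^(k+1)` the part of `A` in the class has level `(g, l)`.
Proof. Let `n = g^(l+1)`, `b ∈ T` and `δ = i M/p` from `NP`, `e = b`, `e' = b + δ` mod `p^(k+1)` (equal mod
`p^k`), `D = gr n p^(k+1) T e - gr n p^(k+1) T e'` in `Z[Z_n]`.
(1) `gr n (p^k) A y * D = 0` for all `y`: `typeB` for two sections which differ only at `b % p^k`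
(subtract the two identities `til_H`), or the second alternative of `upt`.
(2) `f3` for `d = e` and `d = e'`, subtracted: `(p A_c - Ab) (p D) = 0`, so `A_c * D = 0`.
(3) Evaluate at a primitive `n`-th root `ζ`: `A_c(ζ) = 0` (then `cyc_dvd`) or `D(ζ) = 0`. In the second
case `Φ_n ∣ mask T_e - mask T_e'`, so by `diff_iff` the difference of the counts is constant on the
classes mod `g^l`; but `b` is in `T_e`, `b + δ` is not in `T` mod `M`, so all `g` lifts would be in
`T_e`, against `inj_one` at `g`. -/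

namespace Pool.Agent.TPer

open Finset Pool.Agent.CMT

theorem two_bar {p k n : ℕ} (hp : p.Prime) (hn : n.Coprime p) {A T : Finset ℕ}
    (h : Til (p ^ (k + 1) * n) A T) (hT : Lev T p k) {e e' : ZMod (p ^ (k + 1))}
    (hee : kap p k e = kap p k e') (y : ZMod (p ^ k)) :
    gr n (p ^ k) A y * (gr n (p ^ (k + 1)) T e - gr n (p ^ (k + 1)) T e') = 0 := by
  classical
  have hn0 : n ≠ 0 := by
    rintro rfl
    have := h.1
    simp at this
  have : NeZero n := ⟨hn0⟩
  have : NeZero (p ^ (k + 1)) := ⟨(pow_pos hp.pos _).ne'⟩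
  have : NeZero (p ^ k) := ⟨(pow_pos hp.pos _).ne'⟩
  have hB : ∀ σ : ZMod (p ^ k) → ZMod (p ^ (k + 1)), (∀ y, kap p k (σ y) = y) →
      Til (p ^ k * n) A (sec p k σ T) := by
    rcases dich hp hn h with h1 | h1
    · exfalso
      have hT0 : 0 < T.card := by
        by_contra hc
        have h2 := til_card h
        have h3 : T.card = 0 := by omega
        rw [h3, mul_zero] at h2
        exact h.1.ne h2
      have hL : Lev A p k := lift_one hp A (p ^ k * n / T.card) (fun σ hσ => by
        rw [← til_card (h1 σ hσ), Nat.mul_div_cancel _ hT0])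
      exact lev_not_both h hp (Dvd.intro _ rfl) hL hT
    · exact h1
  have hsurj : ∀ y : ZMod (p ^ k), ∃ c : ZMod (p ^ (k + 1)), kap p k c = y :=
    fun y => ZMod.castHom_surjective _ y
  choose σ₀ hσ₀ using hsurj
  have key : ∀ f : ZMod (p ^ (k + 1)), kap p k f = kap p k e →
      ∀ z, kap p k (Function.update σ₀ (kap p k e) f z) = z := by
    intro f hf z
    by_cases hz : z = kap p k e
    · rw [hz, Function.update_self, hf]
    · rw [Function.update_of_ne hz, hσ₀]
  have h1 := til_H ((Nat.Coprime.pow_right k hn).symm) (hB _ (key e rfl)) (y + kap p k e)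
  have h2 := til_H ((Nat.Coprime.pow_right k hn).symm) (hB _ (key e' hee.symm)) (y + kap p k e)
  have h3 := h1.trans h2.symm
  rw [← sub_eq_zero, ← Finset.sum_sub_distrib, Finset.sum_eq_single y] at h3
  · rw [← gr_sec T _ (key e rfl), ← gr_sec T _ (key e' hee.symm), add_sub_cancel_left,
      Function.update_self, Function.update_self, ← mul_sub] at h3
    exact h3
  · intro c _ hc
    rw [← gr_sec T _ (key e rfl), ← gr_sec T _ (key e' hee.symm)]
    have hne : y + kap p k e - c ≠ kap p k e := by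
      intro hcon
      apply hc
      have : y + kap p k e - c - kap p k e = 0 := by rw [hcon, sub_self]
      have h4 : y - c = 0 := by rw [← this]; ring
      exact (sub_eq_zero.1 h4).symm
    rw [Function.update_of_ne hne, Function.update_of_ne hne, sub_self]
  · intro hy
    exact absurd (Finset.mem_univ _) hy

theorem two_mul {p k n : ℕ} (hp : p.Prime) (hn : n.Coprime p) {A T : Finset ℕ}
    (h : Til (p ^ (k + 1) * n) A T) (hT : Lev T p k) {e e' : ZMod (p ^ (k + 1))}
    (hee : kap p k e = kap p k e') (c : ZMod (p ^ (k + 1))) :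
    gr n (p ^ (k + 1)) A c * (gr n (p ^ (k + 1)) T e - gr n (p ^ (k + 1)) T e') = 0 := by
  have h0 := two_bar hp hn h hT hee (kap p k c)
  have h1 := f3 hp hn h c e
  have h2 := f3 hp hn h c e'
  rw [hee] at h1
  have h3 : (p : ℤ) • ((p : ℤ) • (gr n (p ^ (k + 1)) A c *
      (gr n (p ^ (k + 1)) T e - gr n (p ^ (k + 1)) T e'))) = (p : ℤ) • 0 := by
    have h4 : (p : ℤ) • ((p : ℤ) • (gr n (p ^ (k + 1)) A c *
      (gr n (p ^ (k + 1)) T e - gr n (p ^ (k + 1)) T e'))) =
      ((p : ℤ) • gr n (p ^ (k + 1)) A c - gr n (p ^ k) A (kap p k c)) *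
        ((p : ℤ) • gr n (p ^ (k + 1)) T e - gr n (p ^ k) T (kap p k e')) -
      ((p : ℤ) • gr n (p ^ (k + 1)) A c - gr n (p ^ k) A (kap p k c)) *
        ((p : ℤ) • gr n (p ^ (k + 1)) T e' - gr n (p ^ k) T (kap p k e')) +
      (p : ℤ) • (gr n (p ^ k) A (kap p k c) *
        (gr n (p ^ (k + 1)) T e - gr n (p ^ (k + 1)) T e')) := by
      simp only [zsmul_eq_mul]
      ring
    rw [h4, h1, h2, h0]
    simp
  have h5 := smul_cancel hp h3
  refine smul_cancel hp (x := _) (y := 0) ?_
  rw [h5, smul_zero]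

theorem two_cyc {N : ℕ} (hN : 0 < N) {z : ℂ} (hz : IsPrimitiveRoot z N) (f : Polynomial ℤ)
    (h : Polynomial.aeval z f = 0) : Polynomial.cyclotomic N ℤ ∣ f := by
  rw [Polynomial.cyclotomic_eq_minpoly hz hN]
  exact minpoly.isIntegrallyClosed_dvd (hz.isIntegral hN) h

theorem two_evs {P : ℕ} (A : Finset ℕ) (z : ℂ) (c : ℕ) :
    evs P A z (c : ZMod P) = ∑ a ∈ A.filter (fun a => a ≡ c [MOD P]), z ^ a := by
  rw [evs, Finset.sum_filter]
  refine Finset.sum_congr rfl fun a _ => ?_
  simp only [ZMod.natCast_eq_natCast_iff]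

theorem two {p k g l : ℕ} (hp : p.Prime) (hg : g.Prime) (hpg : g ≠ p) {A T : Finset ℕ}
    (h : Til (p ^ (k + 1) * g ^ (l + 1)) A T) (hT : Lev T p k) (hA : Lev A g l)
    (hNP : NP T (p ^ (k + 1) * g ^ (l + 1)) p) (c : ℕ) :
    Lev (A.filter (fun a => a ≡ c [MOD p ^ (k + 1)])) g l := by
  set P : ℕ := p ^ (k + 1) with hP
  set n : ℕ := g ^ (l + 1) with hn'
  have hgp : g.Coprime p := (Nat.coprime_primes hg hp).2 hpg
  have hn : n.Coprime p := Nat.Coprime.pow_left _ hgp
  have hnP : n.Coprime P := Nat.Coprime.pow_right _ hn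
  have hn0 : 0 < n := pow_pos hg.pos _
  have hP0 : 0 < P := pow_pos hp.pos _
  have : NeZero n := ⟨hn0.ne'⟩
  have : NeZero P := ⟨hP0.ne'⟩
  obtain ⟨b, hb, i, hbi⟩ := hNP
  have hMp : P * n / p = p ^ k * n := by
    rw [hP, pow_succ, mul_assoc, mul_comm p n, ← mul_assoc]
    exact Nat.mul_div_cancel _ hp.pos
  rw [hMp] at hbi
  set e' : ZMod P := (b : ZMod P) + ((i * ((p ^ k * n : ℕ) : ℤ) : ℤ) : ZMod P) with he'
  have hee : kap p k (b : ZMod P) = kap p k e' := by
    rw [he', map_add, map_intCast]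
    push_cast
    have : ((p : ZMod (p ^ k)) ^ k) = 0 := by
      rw [← Nat.cast_pow, ZMod.natCast_self]
    rw [this]
    ring
  have hζ : IsPrimitiveRoot (Complex.exp (2 * Real.pi * Complex.I / n)) n :=
    Complex.isPrimitiveRoot_exp n hn0.ne'
  set ζ : ℂ := Complex.exp (2 * Real.pi * Complex.I / n) with hζdef
  have hmul := two_mul hp hn h hT hee (c : ZMod P)
  have h1 := congrArg (evH n hζ.pow_eq_one) hmul
  rw [map_mul, map_sub, map_zero, evH_gr, evH_gr, evH_gr, mul_eq_zero] at h1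
  have he'v : e' = ((e'.val : ℕ) : ZMod P) := (ZMod.natCast_zmod_val e').symm
  rcases h1 with h1 | h1
  · rw [two_evs] at h1
    exact cyc_dvd hn0 hζ _ h1
  · exfalso
    rw [two_evs, he'v, two_evs] at h1
    have h2 : Polynomial.cyclotomic (g ^ (l + 1)) ℤ ∣
        mask (T.filter (fun a => a ≡ b [MOD P])) - mask (T.filter (fun a => a ≡ e'.val [MOD P])) := by
      refine two_cyc hn0 hζ _ ?_
      rw [map_sub, aeval_mask, aeval_mask]
      exact h1
    have h3 := (diff_iff hg).1 h2
    have hbb : ((T.filter (fun a => a ≡ e'.val [MOD P])).filter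
        (fun a => a ≡ b [MOD g ^ (l + 1)])).card = 0 := by
      rw [Finset.card_eq_zero, Finset.filter_eq_empty_iff]
      intro a ha hab
      rw [Finset.mem_filter] at ha
      apply hbi a ha.1
      have h4 : ((a : ℕ) : ZMod P) = e' := by
        rw [he'v]
        exact (ZMod.natCast_eq_natCast_iff _ _ _).2 ha.2
      have h5 : (P : ℤ) ∣ (a : ℤ) - b - i * ((p ^ k * n : ℕ) : ℤ) := by
        rw [← ZMod.intCast_zmod_eq_zero_iff_dvd]
        push_cast
        rw [h4, he']
        push_cast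
        ring
      have h6 : (n : ℤ) ∣ (a : ℤ) - b - i * ((p ^ k * n : ℕ) : ℤ) := by
        have h7 : (n : ℤ) ∣ (a : ℤ) - b := (Nat.modEq_iff_dvd.1 hab.symm)
        refine dvd_sub h7 ?_
        push_cast
        exact Dvd.intro_left (i * (p : ℤ) ^ k) (by rw [hn']; push_cast; ring)
      have h8 : IsCoprime (P : ℤ) (n : ℤ) := Nat.isCoprime_iff_coprime.2 hnP.symm
      have h9 := h8.mul_dvd h5 h6
      push_cast at h9 ⊢
      exact h9
    have hcard : 1 ≤ ((T.filter (fun a => a ≡ b [MOD P])).filter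
        (fun a => a ≡ b [MOD g ^ (l + 1)])).card := by
      rw [Nat.one_le_iff_ne_zero, Ne, Finset.card_eq_zero, ← Ne, ← Finset.nonempty_iff_ne_empty]
      exact ⟨b, Finset.mem_filter.2 ⟨Finset.mem_filter.2 ⟨hb, rfl⟩, rfl⟩⟩
    have h4 := h3 b (b + g ^ l) (by
      rw [Nat.modEq_iff_dvd]
      push_cast
      simp)
    rw [hbb] at h4
    have h5 : ((T.filter (fun a => a ≡ b [MOD P])).filter
        (fun a => a ≡ b + g ^ l [MOD g ^ (l + 1)])).Nonempty := by
      rw [← Finset.card_pos]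
      by_contra hcon
      have h6 : ((T.filter (fun a => a ≡ b [MOD P])).filter
        (fun a => a ≡ b + g ^ l [MOD g ^ (l + 1)])).card = 0 := by omega
      rw [h6] at h4
      push_cast at h4
      have h7 : (0 : ℤ) ≤ (((T.filter (fun a => a ≡ e'.val [MOD P])).filter
        (fun a => a ≡ b + g ^ l [MOD g ^ (l + 1)])).card : ℤ) := Int.natCast_nonneg _
      have h8 : (1 : ℤ) ≤ (((T.filter (fun a => a ≡ b [MOD P])).filter
        (fun a => a ≡ b [MOD g ^ (l + 1)])).card : ℤ) := by exact_mod_cast hcard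
      linarith
    obtain ⟨b', hb'⟩ := h5
    rw [Finset.mem_filter, Finset.mem_filter] at hb'
    obtain ⟨⟨hb'T, hb'P⟩, hb'g⟩ := hb'
    have hMg : P * n / g = P * g ^ l := by
      rw [hn', pow_succ, ← mul_assoc]
      exact Nat.mul_div_cancel _ hg.pos
    have h6 : b ≡ b' [MOD P * n / g] := by
      rw [hMg]
      refine ((Nat.modEq_and_modEq_iff_modEq_mul ?_).1 ⟨hb'P.symm, ?_⟩)
      · exact (Nat.Coprime.pow_right _ (Nat.Coprime.pow_left _ hgp.symm))
      · have h7 : b' ≡ b + g ^ l [MOD g ^ l] := hb'g.of_dvd (pow_dvd_pow g (Nat.le_succ l))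
        have h8 : b + g ^ l ≡ b [MOD g ^ l] := by
          rw [Nat.modEq_iff_dvd]
          push_cast
          simp
        exact (h7.trans h8).symm
    have h7 : b = b' := inj_one h hg (Dvd.intro_left _ rfl) (by
      intro hcon
      have h8 : g ^ (l + 1) * g ∣ g ^ (l + 1) * P := by
        rw [← pow_succ, mul_comm (g ^ (l + 1)) P]
        exact hcon
      have h9 : g ∣ P := Nat.dvd_of_mul_dvd_mul_left hn0 h8
      have h10 := hg.dvd_of_dvd_pow h9
      exact hpg ((Nat.prime_dvd_prime_iff_eq hg hp).1 h10)) hA hb hb'T h6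
    rw [← h7] at hb'g
    have h8 : (g : ℤ) ^ (l + 1) ∣ (g : ℤ) ^ l := by
      have := Nat.modEq_iff_dvd.1 hb'g
      push_cast at this
      simpa using this
    have h9 : g ^ (l + 1) ∣ g ^ l := by exact_mod_cast h8
    have h10 := Nat.le_of_dvd (pow_pos hg.pos _) h9
    have h11 : g ^ l < g ^ (l + 1) := Nat.pow_lt_pow_right hg.one_lt (Nat.lt_succ_self l)
    omega

end Pool.Agent.TPer
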