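import Pool.Agent.TPer.Gpl
import Pool.Agent.TPer.Two

/-! The theorem on lines (note 2688 (4)). -/

namespace Pool.Agent.TPer

open Finset Pool.Agent.CMT

/-- Two elements in the same full window are equal. -/
private theorem ln_full {M : ℕ} {A T : Finset ℕ} (h : Til M A T) (s : ℕ → ℕ → ℕ → ℕ)
    (hs : Adm s) {x y : ℕ} (hx : x ∈ win (Lev A) s A) (hy : y ∈ win (Lev A) s A) : x = y :=
  card_le_one.1 (win_card h s hs).le x hx y hy

/-- Windows with prescribed digit function at `(g, l)`. -/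
private def ln_upd (s : ℕ → ℕ → ℕ → ℕ) (g l : ℕ) (f : ℕ → ℕ) : ℕ → ℕ → ℕ → ℕ :=
  fun q j x => if q = g ∧ j = l then f x else s q j x

private theorem ln_adm {s : ℕ → ℕ → ℕ → ℕ} (hs : Adm s) {g l : ℕ} {f : ℕ → ℕ}
    (hf : ∀ x, f x < g) : Adm (ln_upd s g l f) := by
  intro q j x hq
  unfold ln_upd
  split_ifs with h
  · rw [h.1]
    exact hf x
  · exact hs q j x hq

private theorem ln_mem {A : Finset ℕ} {s : ℕ → ℕ → ℕ → ℕ} {g l : ℕ} (hg : g.Prime)
    (hl : Lev A g l) {f : ℕ → ℕ} {x : ℕ} :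
    x ∈ win (Lev A) (ln_upd s g l f) A ↔
      x ∈ win (fun q j => Lev A q j ∧ ¬ (q = g ∧ j = l)) s A ∧ dig g l x = f (x % g ^ l) := by
  unfold win
  simp only [mem_filter]
  constructor
  · rintro ⟨h1, h2⟩
    refine ⟨⟨h1, fun q j hq h3 => ?_⟩, ?_⟩
    · have h4 := h2 q j hq h3.1
      unfold ln_upd at h4
      rwa [if_neg h3.2] at h4
    · have h4 := h2 g l hg hl
      unfold ln_upd at h4
      rwa [if_pos ⟨rfl, rfl⟩] at h4
  · rintro ⟨⟨h1, h2⟩, h3⟩
    refine ⟨h1, fun q j hq h4 => ?_⟩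
    unfold ln_upd
    split_ifs with h5
    · obtain ⟨rfl, rfl⟩ := h5
      exact h3
    · exact h2 q j hq ⟨h4, h5⟩

/-- Two elements in the same window at all levels but `(g, l)`, equal mod `g^l` and with the same
digit at `(g, l)`, are equal. -/
private theorem ln_line {M : ℕ} {A T : Finset ℕ} (h : Til M A T) {g l : ℕ} (hg : g.Prime)
    (hl : Lev A g l) (s : ℕ → ℕ → ℕ → ℕ) (hs : Adm s) {x y : ℕ}
    (hx : x ∈ win (fun q j => Lev A q j ∧ ¬ (q = g ∧ j = l)) s A)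
    (hy : y ∈ win (fun q j => Lev A q j ∧ ¬ (q = g ∧ j = l)) s A)
    (hd : dig g l x = dig g l y) : x = y := by
  refine ln_full h (ln_upd s g l (fun _ => dig g l y)) (ln_adm hs fun _ => dig_lt hg l y) ?_ ?_
  · exact (ln_mem hg hl).2 ⟨hx, hd⟩
  · exact (ln_mem hg hl).2 ⟨hy, rfl⟩

/-- Lines: through `a`, for a window `s` at all levels but `(g, l)`, `l` the top level of `A` at `g`,
and every digit `i` there is exactly one point, and it agrees with `a` mod `g^l`. (`win_card` for the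
windows which differ from `s` at `(g, l)` only.) -/
theorem line_exists {M : ℕ} {A T : Finset ℕ} (h : Til M A T) {g l : ℕ} (hg : g.Prime)
    (hl : Lev A g l) (hmax : ∀ j, Lev A g j → j ≤ l) (s : ℕ → ℕ → ℕ → ℕ) (hs : Adm s) {a : ℕ}
    (ha : a ∈ win (fun q j => Lev A q j ∧ ¬ (q = g ∧ j = l)) s A) {i : ℕ} (hi : i < g) :
    ∃ a' ∈ win (fun q j => Lev A q j ∧ ¬ (q = g ∧ j = l)) s A,
      a' ≡ a [MOD g ^ l] ∧ dig g l a' = i := by
  classical
  set f : ℕ → ℕ := fun x => if x = a % g ^ l then i else dig g l a with hf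
  have hf' : ∀ x, f x < g := by
    intro x
    rw [hf]
    dsimp only
    split_ifs
    · exact hi
    · exact dig_lt hg l a
  obtain ⟨a', ha'⟩ := card_eq_one.1 (win_card h (ln_upd s g l f) (ln_adm hs hf'))
  have hm : a' ∈ win (Lev A) (ln_upd s g l f) A := by
    rw [ha']
    exact mem_singleton_self a'
  obtain ⟨h1, h2⟩ := (ln_mem hg hl).1 hm
  rw [hf] at h2
  dsimp only at h2
  by_cases h3 : a' % g ^ l = a % g ^ l
  · rw [if_pos h3] at h2
    exact ⟨a', h1, h3, h2⟩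
  · rw [if_neg h3] at h2
    exact absurd (by rw [ln_line h hg hl s hs h1 ha h2]) h3

/-- The window through two points. -/
private def ln_two (a a' : ℕ) : ℕ → ℕ → ℕ → ℕ :=
  fun q j x => if x = a % q ^ j then dig q j a else if x = a' % q ^ j then dig q j a' else 0

private theorem ln_two_adm (a a' : ℕ) : Adm (ln_two a a') := by
  intro q j x hq
  unfold ln_two
  split_ifs
  · exact dig_lt hq j a
  · exact dig_lt hq j a'
  · exact hq.pos

private theorem ln_two_l {a a' q j x : ℕ} (hq : q.Prime) (h : x ≡ a [MOD q ^ (j + 1)]) :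
    dig q j x = ln_two a a' q j (x % q ^ j) := by
  obtain ⟨h1, h2⟩ := (modEq_succ hq j x a).1 h
  unfold ln_two
  rw [if_pos (show x % q ^ j = a % q ^ j from h1), h2]

private theorem ln_two_r {a a' q j x : ℕ} (hq : q.Prime) (h : x ≡ a' [MOD q ^ (j + 1)])
    (hc : a ≡ a' [MOD q ^ j] → a ≡ a' [MOD q ^ (j + 1)]) :
    dig q j x = ln_two a a' q j (x % q ^ j) := by
  obtain ⟨h1, h2⟩ := (modEq_succ hq j x a').1 h
  by_cases h3 : x % q ^ j = a % q ^ j
  · exact ln_two_l hq (h.trans (hc ((show a ≡ x [MOD q ^ j] from h3.symm).trans h1)).symm)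
  · unfold ln_two
    rw [if_neg h3, if_pos (show x % q ^ j = a' % q ^ j from h1), h2]

theorem line_unique {M : ℕ} {A T : Finset ℕ} (h : Til M A T) {g l : ℕ} (hg : g.Prime)
    (hl : Lev A g l) (hmax : ∀ j, Lev A g j → j ≤ l) {a a' : ℕ} (ha : a ∈ A) (ha' : a' ∈ A)
    (hc : Coll A g l a a') : a ≡ a' [MOD g ^ l] ∧ (dig g l a = dig g l a' → a = a') := by
  classical
  have h1 : a ∈ win (fun q j => Lev A q j ∧ ¬ (q = g ∧ j = l)) (ln_two a a') A := by
    unfold win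
    rw [mem_filter]
    exact ⟨ha, fun q j hq _ => ln_two_l hq (Nat.ModEq.refl a)⟩
  have h2 : a' ∈ win (fun q j => Lev A q j ∧ ¬ (q = g ∧ j = l)) (ln_two a a') A := by
    unfold win
    rw [mem_filter]
    exact ⟨ha', fun q j hq h3 => ln_two_r hq (Nat.ModEq.refl a') (hc q j hq h3.1 h3.2)⟩
  refine ⟨?_, fun h3 => ln_line h hg hl _ (ln_two_adm a a') h1 h2 h3⟩
  by_contra h3
  have h4 : a = a' := by
    refine ln_full h (ln_two a a') (ln_two_adm a a') ?_ ?_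
    · unfold win
      rw [mem_filter]
      exact ⟨ha, fun q j hq _ => ln_two_l hq (Nat.ModEq.refl a)⟩
    · unfold win
      rw [mem_filter]
      refine ⟨ha', fun q j hq h5 => ln_two_r hq (Nat.ModEq.refl a') ?_⟩
      by_cases h6 : q = g ∧ j = l
      · obtain ⟨rfl, rfl⟩ := h6
        exact fun h7 => absurd h7 h3
      · exact hc q j hq h5 h6
  exact h3 (by rw [h4])

/-- Composition of windows. -/
private theorem ln_comp {M M' M'' : ℕ} {A T : Finset ℕ} (h : Til M A T) (hM' : M' ∣ M)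
    (hM'' : M'' ∣ M') (s : ℕ → ℕ → ℕ → ℕ) (hs : Adm s) :
    win (fun q j => Lev (win (fun q j => Lev A q j ∧ ¬ q ^ (j + 1) ∣ M') s A) q j ∧
        ¬ q ^ (j + 1) ∣ M'') s (win (fun q j => Lev A q j ∧ ¬ q ^ (j + 1) ∣ M') s A) =
      win (fun q j => Lev A q j ∧ ¬ q ^ (j + 1) ∣ M'') s A := by
  classical
  have hl : ∀ q j, q.Prime → (Lev (win (fun q j => Lev A q j ∧ ¬ q ^ (j + 1) ∣ M') s A) q j ↔
      Lev A q j ∧ q ^ (j + 1) ∣ M') := fun q j hq => lev_red h hM' s hs hq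
  ext a
  rw [win, mem_filter]
  constructor
  · rintro ⟨h1, h2⟩
    have h1' := h1
    rw [win, mem_filter] at h1'
    rw [win, mem_filter]
    refine ⟨h1'.1, fun q j hq h3 => ?_⟩
    by_cases h4 : q ^ (j + 1) ∣ M'
    · exact h2 q j hq ⟨(hl q j hq).2 ⟨h3.1, h4⟩, h3.2⟩
    · exact h1'.2 q j hq ⟨h3.1, h4⟩
  · intro h1
    rw [win, mem_filter] at h1
    refine ⟨?_, fun q j hq h3 => ?_⟩
    · rw [win, mem_filter]
      exact ⟨h1.1, fun q j hq h3 => h1.2 q j hq ⟨h3.1, fun h4 => h3.2 (h4.trans hM'')⟩⟩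
    · exact h1.2 q j hq ⟨((hl q j hq).1 h3.1).1, h3.2⟩

/-- For every prime `p` of the period of type (b) there is a direction `(g, l)`, `l` the top level of
`A` at `g`, such that all lines in this direction are constant mod `p^(k+1)`. Proof: `gpl`, `gtop`
(composition of the two windows), `red` for all windows `s` of `A`, `two`, and `lev_iff`: let `a`, `a'`
be collinear, `c = a` mod `p^(k+1)`; take the window through `a` and `a'`; the elements of the window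
(at the primes other than `g`, `p`) in the class `c` are equidistributed in digit `l`, so there is `x`
in it with `x = a'` mod `g^(l+1)`; `x` is in the full window of `a'`, so `x = a'`. -/
theorem exists_cst {p k n : ℕ} (hp : p.Prime) (hn : n.Coprime p) {A T : Finset ℕ}
    (h : Til (p ^ (k + 1) * n) A T) (hL : Lev T p k) (hNP : NP T (p ^ (k + 1) * n) p) :
    ∃ g l, g.Prime ∧ g ≠ p ∧ Lev A g l ∧ (∀ j, Lev A g j → j ≤ l) ∧
      Cst A g l (p ^ (k + 1)) := by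
  classical
  obtain ⟨g, v, hg, hgp, hgv, hgv', t, ht, hNP1⟩ := gpl hp hn h hL hNP
  have hM' : p ^ (k + 1) * g ^ v ∣ p ^ (k + 1) * n := Nat.mul_dvd_mul_left _ hgv
  have hz : Adm (fun _ _ _ => 0) := fun _ _ _ hq => hq.pos
  have hpM' : p ^ (k + 1) ∣ p ^ (k + 1) * g ^ v := dvd_mul_right _ _
  have hred1 : ∀ s, Adm s → Til (p ^ (k + 1) * g ^ v)
      (win (fun q j => Lev A q j ∧ ¬ q ^ (j + 1) ∣ p ^ (k + 1) * g ^ v) s A)
      (win (fun q j => Lev T q j ∧ ¬ q ^ (j + 1) ∣ p ^ (k + 1) * g ^ v) t T) :=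
    fun s hs => red h hM' s t hs ht
  have hlev1 : ∀ s, Adm s → ∀ q j, q.Prime →
      (Lev (win (fun q j => Lev A q j ∧ ¬ q ^ (j + 1) ∣ p ^ (k + 1) * g ^ v) s A) q j ↔
        Lev A q j ∧ q ^ (j + 1) ∣ p ^ (k + 1) * g ^ v) := fun s hs q j hq => lev_red h hM' s hs hq
  set T1 := win (fun q j => Lev T q j ∧ ¬ q ^ (j + 1) ∣ p ^ (k + 1) * g ^ v) t T with hT1
  have hL1 : Lev T1 p k := (lev_red h.symm hM' t ht hp).2 ⟨hL, hpM'⟩
  obtain ⟨l, hlv, hAl, hmax, t2, ht2, hNP2⟩ := gtop hp hg hgp (hred1 _ hz) hL1 hNP1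
  have hAl' : Lev A g l := ((hlev1 _ hz g l hg).1 hAl).1
  have hmax' : ∀ j, Lev A g j → j ≤ l := by
    intro j hj
    apply hmax
    rw [hlev1 _ hz g j hg]
    refine ⟨hj, ?_⟩
    have h1 := lev_dvd h hg hj
    have h2 : (g ^ (j + 1)).Coprime (p ^ (k + 1)) :=
      Nat.Coprime.pow _ _ ((Nat.coprime_primes hg hp).2 hgp)
    have h3 : g ^ (j + 1) ∣ n := h2.dvd_of_dvd_mul_left h1
    have h4 : j + 1 ≤ v := by
      by_contra h5
      exact hgv' ((pow_dvd_pow g (by omega)).trans h3)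
    exact (pow_dvd_pow g h4).trans (dvd_mul_left _ _)
  refine ⟨g, l, hg, hgp, hAl', hmax', ?_⟩
  have hM'' : p ^ (k + 1) * g ^ (l + 1) ∣ p ^ (k + 1) * g ^ v :=
    Nat.mul_dvd_mul_left _ (pow_dvd_pow g hlv)
  have hred2 : ∀ s, Adm s → Til (p ^ (k + 1) * g ^ (l + 1))
      (win (fun q j => Lev A q j ∧ ¬ q ^ (j + 1) ∣ p ^ (k + 1) * g ^ (l + 1)) s A)
      (win (fun q j => Lev T1 q j ∧ ¬ q ^ (j + 1) ∣ p ^ (k + 1) * g ^ (l + 1)) t2 T1) := by
    intro s hs
    have h1 := red (hred1 s hs) hM'' s t2 hs ht2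
    rwa [ln_comp h hM' hM'' s hs] at h1
  have hL2 : Lev (win (fun q j => Lev T1 q j ∧ ¬ q ^ (j + 1) ∣ p ^ (k + 1) * g ^ (l + 1)) t2 T1)
      p k := (lev_red (hred1 _ hz).symm hM'' t2 ht2 hp).2 ⟨hL1, dvd_mul_right _ _⟩
  have hM2 : p ^ (k + 1) * g ^ (l + 1) ∣ p ^ (k + 1) * n := hM''.trans hM'
  intro a ha a' ha' hc
  set s := ln_two a a' with hs'
  have hs : Adm s := ln_two_adm a a'
  have hAs : Lev (win (fun q j => Lev A q j ∧ ¬ q ^ (j + 1) ∣ p ^ (k + 1) * g ^ (l + 1)) s A) g l :=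
    (lev_red h hM2 s hs hg).2 ⟨hAl', dvd_mul_left _ _⟩
  have htwo := two hp hg hgp (hred2 s hs) hL2 hAs hNP2 a
  have hlu := (line_unique h hg hAl' hmax' ha ha' hc).1
  have hcnt := (lev_iff hg).1 htwo a a' hlu
  -- `a` is in the window
  have ha1 : a ∈ win (fun q j => Lev A q j ∧ ¬ q ^ (j + 1) ∣ p ^ (k + 1) * g ^ (l + 1)) s A := by
    rw [win, mem_filter]
    exact ⟨ha, fun q j hq _ => ln_two_l hq (Nat.ModEq.refl a)⟩
  have hpos : 0 < (((win (fun q j => Lev A q j ∧ ¬ q ^ (j + 1) ∣ p ^ (k + 1) * g ^ (l + 1)) s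
      A).filter (fun x => x ≡ a [MOD p ^ (k + 1)])).filter
        (fun x => x ≡ a [MOD g ^ (l + 1)])).card :=
    card_pos.2 ⟨a, mem_filter.2 ⟨mem_filter.2 ⟨ha1, Nat.ModEq.refl a⟩, Nat.ModEq.refl a⟩⟩
  rw [hcnt] at hpos
  obtain ⟨x, hx⟩ := card_pos.1 hpos
  rw [mem_filter, mem_filter] at hx
  obtain ⟨⟨hxw, hxp⟩, hxg⟩ := hx
  rw [win, mem_filter] at hxw
  have hx1 : x ∈ win (fun q j => Lev A q j ∧ ¬ (q = g ∧ j = l)) s A := by
    rw [win, mem_filter]
    refine ⟨hxw.1, fun q j hq h3 => ?_⟩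
    by_cases h4 : q ^ (j + 1) ∣ p ^ (k + 1) * g ^ (l + 1)
    · have h5 : q ∣ p ^ (k + 1) * g ^ (l + 1) := (dvd_pow_self q (Nat.succ_ne_zero j)).trans h4
      rcases (Nat.Prime.dvd_mul hq).1 h5 with h6 | h6
      · have h7 : q = p := (Nat.prime_dvd_prime_iff_eq hq hp).1 (hq.dvd_of_dvd_pow h6)
        subst h7
        have h8 : (q ^ (j + 1)).Coprime (g ^ (l + 1)) :=
          Nat.Coprime.pow _ _ ((Nat.coprime_primes hq hg).2 (Ne.symm hgp))
        exact ln_two_l hq (hxp.of_dvd (h8.dvd_of_dvd_mul_right h4))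
      · have h7 : q = g := (Nat.prime_dvd_prime_iff_eq hq hg).1 (hq.dvd_of_dvd_pow h6)
        subst h7
        have h8 := hmax' j h3.1
        exact ln_two_r hq (hxg.of_dvd (pow_dvd_pow q (by omega))) (hc q j hq h3.1 h3.2)
    · exact hxw.2 q j hq ⟨h3.1, h4⟩
  have ha'1 : a' ∈ win (fun q j => Lev A q j ∧ ¬ (q = g ∧ j = l)) s A := by
    rw [win, mem_filter]
    exact ⟨ha', fun q j hq h3 => ln_two_r hq (Nat.ModEq.refl a') (hc q j hq h3.1 h3.2)⟩
  have hxa : x = a' := ln_line h hg hAl' s hs hx1 ha'1 ((modEq_succ hg l x a').1 hxg).2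
  rw [hxa] at hxp
  exact hxp.symm

end Pool.Agent.TPer
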