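import Pool.Agent.TilePer.Basic

/-! Lower bound, construction (note 2688 (8)). `P` a finite set of primes, `n = ∏ P`, `K g > 0` coprime to
`n`. `Y` = all sums `∑_{g ∈ P} i_g (n/g) K_g`, `0 ≤ i_g < g`. `Y` is a complete residue system mod `n` (mod `g`
only the term `i_g (n/g) K_g` survives). For `g ∈ P` let
`B_g = {x : g-coordinate..}` = all `x` with `n ∣ x` and `K_g ∤ x`, or `x = n/g` mod `n` and `K_g ∣ x`. For a
target `z` let `y ∈ Y` run through the g-line; `y = z` mod `K_g` does not depend on `i_g`; so `Y + B_g = ℤ`.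
Every period `m` of `B_g` is divisible by `K_g` (for `K_g ≥ 3`; the elements `= n/g` mod `n` are exactly
the `x` with `K_g ∣ x`). -/

namespace Pool.Agent.TPer

open Finset

/-- `n/g` -/
def Low1_N (P : Finset ℕ) (g : ℕ) : ℤ := ∏ q ∈ P.erase g, (q : ℤ)

/-- the sum -/
def Low1_y (P : Finset ℕ) (K : ℕ → ℕ) (i : P → ℕ) : ℤ :=
  ∑ h : P, (i h : ℤ) * Low1_N P h * K h

/-- the set -/
def Low1_Y (P : Finset ℕ) (K : ℕ → ℕ) : Finset ℤ :=
  (Fintype.piFinset (fun h : P => Finset.range (h : ℕ))).image (Low1_y P K)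

/-- the complement -/
def Low1_B (P : Finset ℕ) (K : ℕ → ℕ) (g : ℕ) : Set ℤ :=
  {x | ((∏ q ∈ P, (q : ℤ)) ∣ x ∧ ¬ (K g : ℤ) ∣ x) ∨
    ((∏ q ∈ P, (q : ℤ)) ∣ x - Low1_N P g ∧ (K g : ℤ) ∣ x)}

theorem Low1_mul (P : Finset ℕ) {g : ℕ} (hg : g ∈ P) :
    (g : ℤ) * Low1_N P g = ∏ q ∈ P, (q : ℤ) := by
  unfold Low1_N
  exact Finset.mul_prod_erase P (fun q => (q : ℤ)) hg

theorem Low1_dvdN (P : Finset ℕ) {g h : ℕ} (hh : h ∈ P) (hgh : h ≠ g) :
    (h : ℤ) ∣ Low1_N P g := by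
  unfold Low1_N
  exact Finset.dvd_prod_of_mem (fun q : ℕ => (q : ℤ)) (Finset.mem_erase.2 ⟨hgh, hh⟩)

theorem Low1_copN (P : Finset ℕ) (hP : ∀ g ∈ P, g.Prime) {g : ℕ} (hg : g ∈ P) :
    IsCoprime (g : ℤ) (Low1_N P g) := by
  unfold Low1_N
  apply IsCoprime.prod_right
  intro q hq
  rw [Finset.mem_erase] at hq
  rw [Nat.isCoprime_iff_coprime]
  exact (Nat.coprime_primes (hP g hg) (hP q hq.2)).2 (Ne.symm hq.1)

theorem Low1_copK (P : Finset ℕ) (K : ℕ → ℕ)
    (hco : ∀ g ∈ P, (K g).Coprime (∏ q ∈ P, q)) {g : ℕ} (hg : g ∈ P) :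
    IsCoprime (g : ℤ) (K g : ℤ) := by
  rw [Nat.isCoprime_iff_coprime]
  exact (Nat.Coprime.coprime_dvd_right (Finset.dvd_prod_of_mem (fun q => q) hg) (hco g hg)).symm

theorem Low1_copnK (P : Finset ℕ) (K : ℕ → ℕ)
    (hco : ∀ g ∈ P, (K g).Coprime (∏ q ∈ P, q)) {g : ℕ} (hg : g ∈ P) :
    IsCoprime (∏ q ∈ P, (q : ℤ)) (K g : ℤ) := by
  have h := (Nat.isCoprime_iff_coprime.2 (hco g hg)).symm
  push_cast at h
  exact h

/-- modulo `h` only one term survives -/
theorem Low1_modh (P : Finset ℕ) (K : ℕ → ℕ) (i : P → ℕ) (h : P) :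
    (h : ℤ) ∣ Low1_y P K i - (i h : ℤ) * Low1_N P h * K h := by
  unfold Low1_y
  rw [← Finset.add_sum_erase _ _ (Finset.mem_univ h), add_sub_cancel_left]
  apply Finset.dvd_sum
  intro g hg
  have hne : (h : ℕ) ≠ g := fun h' => (Finset.mem_erase.1 hg).1 (Subtype.ext h'.symm)
  exact Dvd.dvd.mul_right (Dvd.dvd.mul_left (Low1_dvdN P h.2 hne) _) _

theorem Low1_inj (P : Finset ℕ) (hP : ∀ g ∈ P, g.Prime) (K : ℕ → ℕ)
    (hco : ∀ g ∈ P, (K g).Coprime (∏ q ∈ P, q)) {i i' : P → ℕ}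
    (hi : i ∈ Fintype.piFinset (fun h : P => Finset.range (h : ℕ)))
    (hi' : i' ∈ Fintype.piFinset (fun h : P => Finset.range (h : ℕ))) (h : P)
    (hd : (h : ℤ) ∣ Low1_y P K i - Low1_y P K i') : i h = i' h := by
  have h1 := Low1_modh P K i h
  have h2 := Low1_modh P K i' h
  have h3 : (h : ℤ) ∣ ((i h : ℤ) - i' h) * (Low1_N P h * K h) := by
    have h4 := (hd.sub h1).add h2
    have e : Low1_y P K i - Low1_y P K i' - (Low1_y P K i - (i h : ℤ) * Low1_N P h * K h) +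
      (Low1_y P K i' - (i' h : ℤ) * Low1_N P h * K h) =
      ((i h : ℤ) - i' h) * (Low1_N P h * K h) := by ring
    rwa [e] at h4
  have h5 : IsCoprime (h : ℤ) (Low1_N P h * K h) :=
    (Low1_copN P hP h.2).mul_right (Low1_copK P K hco h.2)
  have h6 : (h : ℤ) ∣ (i h : ℤ) - i' h := h5.dvd_of_dvd_mul_right h3
  have h7 := Finset.mem_range.1 (Fintype.mem_piFinset.1 hi h)
  have h8 := Finset.mem_range.1 (Fintype.mem_piFinset.1 hi' h)
  have h9 : (i h : ℤ) - i' h = 0 := by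
    apply Int.eq_zero_of_abs_lt_dvd h6
    rw [abs_lt]
    constructor <;> omega
  omega

theorem Low1_line (P : Finset ℕ) (K : ℕ → ℕ) {i i' : P → ℕ} (g : P)
    (h : ∀ h : P, h ≠ g → i h = i' h) : (K g : ℤ) ∣ Low1_y P K i - Low1_y P K i' := by
  unfold Low1_y
  rw [← Finset.sum_sub_distrib]
  apply Finset.dvd_sum
  intro h' _
  by_cases hh : h' = g
  · subst hh
    exact (Dvd.intro_left _ rfl).sub (Dvd.intro_left _ rfl)
  · rw [h h' hh, sub_self]
    exact dvd_zero _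

theorem Low1_crs (P : Finset ℕ) (hP : ∀ g ∈ P, g.Prime) (K : ℕ → ℕ)
    (hco : ∀ g ∈ P, (K g).Coprime (∏ q ∈ P, q)) (z : ℤ) :
    ∃ i ∈ Fintype.piFinset (fun h : P => Finset.range (h : ℕ)),
      (∏ q ∈ P, (q : ℤ)) ∣ z - Low1_y P K i := by
  have hex : ∀ h : P, ∃ t : ℕ, t < (h : ℕ) ∧ (h : ℤ) ∣ z - (t : ℤ) * Low1_N P h * K h := by
    intro h
    have h5 : IsCoprime (h : ℤ) (Low1_N P h * K h) :=
      (Low1_copN P hP h.2).mul_right (Low1_copK P K hco h.2)
    obtain ⟨u, v, huv⟩ := h5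
    have hpos : (0 : ℤ) < (h : ℕ) := by exact_mod_cast (hP h h.2).pos
    have h6 := Int.emod_nonneg (z * v) hpos.ne'
    have h7 := Int.emod_lt_of_pos (z * v) hpos
    refine ⟨((z * v) % (h : ℕ)).toNat, by omega, ?_⟩
    rw [Int.toNat_of_nonneg h6]
    have h8 : (z * v) % ((h : ℕ) : ℤ) = z * v - (h : ℕ) * (z * v / (h : ℕ)) := by
      have := Int.emod_add_mul_ediv (z * v) (h : ℕ)
      linarith
    rw [h8]
    refine ⟨z * u + (z * v / (h : ℕ)) * Low1_N P h * K h, ?_⟩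
    linear_combination (-z) * huv
  choose t ht1 ht2 using hex
  have ht : t ∈ Fintype.piFinset (fun h : P => Finset.range (h : ℕ)) := by
    rw [Fintype.mem_piFinset]
    intro h
    exact Finset.mem_range.2 (ht1 h)
  refine ⟨t, ht, ?_⟩
  apply Finset.prod_dvd_of_coprime
  · intro p hp q hq hpq
    show IsCoprime (p : ℤ) (q : ℤ)
    rw [Nat.isCoprime_iff_coprime]
    exact (Nat.coprime_primes (hP p hp) (hP q hq)).2 hpq
  · intro p hp
    have h1 := Low1_modh P K t ⟨p, hp⟩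
    have h2 := ht2 ⟨p, hp⟩
    have h3 := h2.sub h1
    have e : z - (t ⟨p, hp⟩ : ℤ) * Low1_N P p * K p -
      (Low1_y P K t - (t ⟨p, hp⟩ : ℤ) * Low1_N P p * K p) = z - Low1_y P K t := by ring
    rwa [e] at h3

theorem Low1_eq (P : Finset ℕ) (hP : ∀ g ∈ P, g.Prime) (K : ℕ → ℕ)
    (hco : ∀ g ∈ P, (K g).Coprime (∏ q ∈ P, q)) {i i' : P → ℕ}
    (hi : i ∈ Fintype.piFinset (fun h : P => Finset.range (h : ℕ)))
    (hi' : i' ∈ Fintype.piFinset (fun h : P => Finset.range (h : ℕ)))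
    (hd : (∏ q ∈ P, (q : ℤ)) ∣ Low1_y P K i - Low1_y P K i') : i = i' := by
  funext h
  exact Low1_inj P hP K hco hi hi' h
    ((Finset.dvd_prod_of_mem (fun q : ℕ => (q : ℤ)) h.2).trans hd)

/-- if the sums differ by `n/g` modulo `n` then they are equal modulo `K g` -/
theorem Low1_shift (P : Finset ℕ) (hP : ∀ g ∈ P, g.Prime) (K : ℕ → ℕ)
    (hco : ∀ g ∈ P, (K g).Coprime (∏ q ∈ P, q)) {i i' : P → ℕ}
    (hi : i ∈ Fintype.piFinset (fun h : P => Finset.range (h : ℕ)))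
    (hi' : i' ∈ Fintype.piFinset (fun h : P => Finset.range (h : ℕ))) (g : P)
    (hd : (∏ q ∈ P, (q : ℤ)) ∣ Low1_y P K i - Low1_y P K i' - Low1_N P g) :
    (K g : ℤ) ∣ Low1_y P K i - Low1_y P K i' := by
  apply Low1_line
  intro h hh
  apply Low1_inj P hP K hco hi hi' h
  have h1 := (Finset.dvd_prod_of_mem (fun q : ℕ => (q : ℤ)) h.2).trans hd
  have h2 : (h : ℤ) ∣ Low1_N P g := Low1_dvdN P h.2 (fun h' => hh (Subtype.ext h'))
  have h3 := h1.add h2
  rwa [sub_add_cancel] at h3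

theorem Low1_tiles (P : Finset ℕ) (hP : ∀ g ∈ P, g.Prime) (K : ℕ → ℕ)
    (hco : ∀ g ∈ P, (K g).Coprime (∏ q ∈ P, q)) (g : P) :
    Pool.Agent.TilePer.Tiles (Low1_Y P K) (Low1_B P K g) := by
  apply Pool.Agent.TilePer.Tiles.mk'
  · intro z
    obtain ⟨i₁, hi₁, h1⟩ := Low1_crs P hP K hco z
    obtain ⟨i₂, hi₂, h2⟩ := Low1_crs P hP K hco (z - Low1_N P g)
    by_cases hK : (K g : ℤ) ∣ z - Low1_y P K i₁
    · refine ⟨Low1_y P K i₂, Finset.mem_image_of_mem _ hi₂, Or.inr ⟨?_, ?_⟩⟩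
      · have e : z - Low1_y P K i₂ - Low1_N P g = z - Low1_N P g - Low1_y P K i₂ := by ring
        rwa [e]
      · have h3 : (K g : ℤ) ∣ Low1_y P K i₁ - Low1_y P K i₂ := by
          apply Low1_shift P hP K hco hi₁ hi₂ g
          have h4 := h2.sub h1
          have e : z - Low1_N P g - Low1_y P K i₂ - (z - Low1_y P K i₁) =
            Low1_y P K i₁ - Low1_y P K i₂ - Low1_N P g := by ring
          rwa [e] at h4
        have h4 := hK.add h3
        have e : z - Low1_y P K i₁ + (Low1_y P K i₁ - Low1_y P K i₂) = z - Low1_y P K i₂ := by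
          ring
        rwa [e] at h4
    · exact ⟨Low1_y P K i₁, Finset.mem_image_of_mem _ hi₁, Or.inl ⟨h1, hK⟩⟩
  · intro a ha a' ha' b hb b' hb' e
    obtain ⟨i, hi, rfl⟩ := Finset.mem_image.1 ha
    obtain ⟨i', hi', rfl⟩ := Finset.mem_image.1 ha'
    rcases hb with ⟨hb1, hb2⟩ | ⟨hb1, hb2⟩ <;> rcases hb' with ⟨hc1, hc2⟩ | ⟨hc1, hc2⟩
    · rw [Low1_eq P hP K hco hi hi']
      have h1 := hc1.sub hb1
      have e2 : b' - b = Low1_y P K i - Low1_y P K i' := by linarith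
      rwa [e2] at h1
    · exfalso
      have h1 : (K g : ℤ) ∣ Low1_y P K i - Low1_y P K i' := by
        apply Low1_shift P hP K hco hi hi' g
        have h1 := hc1.sub hb1
        have e2 : b' - Low1_N P g - b = Low1_y P K i - Low1_y P K i' - Low1_N P g := by linarith
        rwa [e2] at h1
      apply hb2
      have h2 := hc2.sub h1
      have e2 : b' - (Low1_y P K i - Low1_y P K i') = b := by linarith
      rwa [e2] at h2
    · exfalso
      have h1 : (K g : ℤ) ∣ Low1_y P K i' - Low1_y P K i := by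
        apply Low1_shift P hP K hco hi' hi g
        have h1 := hb1.sub hc1
        have e2 : b - Low1_N P g - b' = Low1_y P K i' - Low1_y P K i - Low1_N P g := by linarith
        rwa [e2] at h1
      apply hc2
      have h2 := hb2.sub h1
      have e2 : b - (Low1_y P K i' - Low1_y P K i) = b' := by linarith
      rwa [e2] at h2
    · rw [Low1_eq P hP K hco hi hi']
      have h1 := hc1.sub hb1
      have e2 : b' - Low1_N P g - (b - Low1_N P g) = Low1_y P K i - Low1_y P K i' := by linarith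
      rwa [e2] at h1

theorem Low1_period (P : Finset ℕ) (hP : ∀ g ∈ P, g.Prime) (K : ℕ → ℕ)
    (hK : ∀ g ∈ P, 3 ≤ K g) (hco : ∀ g ∈ P, (K g).Coprime (∏ q ∈ P, q)) (g : P) (m : ℕ)
    (hm : Pool.Agent.TilePer.IsPeriod (Low1_B P K g) m) : K g ∣ m := by
  obtain ⟨u, v, huv⟩ := Low1_copnK P K hco g.2
  have hK3 : (3 : ℤ) ≤ K g := by exact_mod_cast hK g g.2
  have hnN : ¬ (∏ q ∈ P, (q : ℤ)) ∣ Low1_N P g := by
    intro h
    have h1 := (Finset.dvd_prod_of_mem (fun q : ℕ => (q : ℤ)) g.2).trans h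
    have h2 := (Low1_copN P hP g.2).isUnit_of_dvd' dvd_rfl h1
    rw [Int.isUnit_iff] at h2
    have h3 := (hP g g.2).two_le
    omega
  have hnot : ∀ k : ℤ, 0 < k → k < 3 → ¬ (K g : ℤ) ∣ k := by
    intro k hk0 hk3 hd
    have := Int.le_of_dvd hk0 hd
    omega
  by_cases hnm : (∏ q ∈ P, (q : ℤ)) ∣ (m : ℤ)
  · -- the point `x0`
    have hx0 : Low1_N P g * v * K g ∈ Low1_B P K g := by
      right
      refine ⟨⟨- (Low1_N P g * u), ?_⟩, Dvd.intro_left _ rfl⟩
      linear_combination (Low1_N P g) * huv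
    have h1 := (hm.2 _).2 hx0
    rcases h1 with ⟨h1, h2⟩ | ⟨h1, h2⟩
    · exfalso
      apply hnN
      have h3 := h1.sub hnm
      have h4 := h3.add (Dvd.intro_left (Low1_N P g * u) rfl : (∏ q ∈ P, (q : ℤ)) ∣
        Low1_N P g * u * ∏ q ∈ P, (q : ℤ))
      have e : Low1_N P g * v * K g + m - m + Low1_N P g * u * ∏ q ∈ P, (q : ℤ) =
        Low1_N P g := by linear_combination (Low1_N P g) * huv
      rwa [e] at h4
    · have h3 : (K g : ℤ) ∣ (m : ℤ) := by
        have h4 := h2.sub (Dvd.intro_left (Low1_N P g * v) rfl : (K g : ℤ) ∣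
          Low1_N P g * v * K g)
        rwa [add_sub_cancel_left] at h4
      exact_mod_cast h3
  · exfalso
    have hmem : ∀ k : ℤ, 0 < k → k < 3 → (K g : ℤ) ∣ k + m := by
      intro k hk0 hk3
      have hx : k * u * ∏ q ∈ P, (q : ℤ) ∈ Low1_B P K g := by
        left
        refine ⟨Dvd.intro_left _ rfl, fun h => hnot k hk0 hk3 ?_⟩
        have h4 := h.add (Dvd.intro_left (k * v) rfl : (K g : ℤ) ∣ k * v * K g)
        have e : k * u * ∏ q ∈ P, (q : ℤ) + k * v * K g = k := by linear_combination k * huv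
        rwa [e] at h4
      have h1 := (hm.2 _).2 hx
      rcases h1 with ⟨h1, h2⟩ | ⟨h1, h2⟩
      · exfalso
        apply hnm
        have h4 := h1.sub (Dvd.intro_left (k * u) rfl : (∏ q ∈ P, (q : ℤ)) ∣
          k * u * ∏ q ∈ P, (q : ℤ))
        rwa [add_sub_cancel_left] at h4
      · have h4 := h2.add (Dvd.intro_left (k * v) rfl : (K g : ℤ) ∣ k * v * K g)
        have e : k * u * ∏ q ∈ P, (q : ℤ) + m + k * v * K g = k + m := by
          linear_combination k * huv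
        rwa [e] at h4
    have h1 := hmem 1 (by norm_num) (by norm_num)
    have h2 := hmem 2 (by norm_num) (by norm_num)
    have h3 := h2.sub h1
    apply hnot 1 (by norm_num) (by norm_num)
    have e : (2 : ℤ) + m - (1 + m) = 1 := by ring
    rwa [e] at h3

theorem low_tile (P : Finset ℕ) (hP : ∀ g ∈ P, g.Prime) (hne : P.Nonempty) (K : ℕ → ℕ)
    (hK : ∀ g ∈ P, 3 ≤ K g) (hco : ∀ g ∈ P, (K g).Coprime (∏ q ∈ P, q)) :
    ∃ Y : Finset ℤ, (∀ y ∈ Y, 0 ≤ y ∧ y ≤ ∑ g ∈ P, ((∏ q ∈ P, q : ℕ) : ℤ) * K g) ∧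
      (0 ∈ Y) ∧
      ∀ g ∈ P, ∃ B : Set ℤ, Pool.Agent.TilePer.Tiles Y B ∧
        (∃ m, Pool.Agent.TilePer.IsPeriod B m) ∧
        ∀ m, Pool.Agent.TilePer.IsPeriod B m → K g ∣ m := by
  have hNpos : ∀ g, 0 ≤ Low1_N P g := by
    intro g
    unfold Low1_N
    exact Finset.prod_nonneg (fun q _ => Int.natCast_nonneg q)
  refine ⟨Low1_Y P K, ?_, ?_, ?_⟩
  · intro y hy
    obtain ⟨i, hi, rfl⟩ := Finset.mem_image.1 hy
    constructor
    · unfold Low1_y
      apply Finset.sum_nonneg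
      intro h _
      have := hNpos h
      positivity
    · unfold Low1_y
      rw [← Finset.sum_coe_sort P (fun g => ((∏ q ∈ P, q : ℕ) : ℤ) * K g)]
      apply Finset.sum_le_sum
      intro h _
      have h1 := Finset.mem_range.1 (Fintype.mem_piFinset.1 hi h)
      have h2 : ((∏ q ∈ P, q : ℕ) : ℤ) = (h : ℤ) * Low1_N P h := by
        rw [Low1_mul P h.2]
        push_cast
        rfl
      rw [h2]
      have h3 : (i h : ℤ) ≤ ((h : ℕ) : ℤ) := by exact_mod_cast h1.le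
      exact mul_le_mul_of_nonneg_right (mul_le_mul_of_nonneg_right h3 (hNpos h))
        (Int.natCast_nonneg _)
  · refine Finset.mem_image.2 ⟨fun _ => 0, ?_, ?_⟩
    · rw [Fintype.mem_piFinset]
      intro h
      exact Finset.mem_range.2 (hP h h.2).pos
    · unfold Low1_y
      simp
  · intro g hg
    have ht := Low1_tiles P hP K hco ⟨g, hg⟩
    exact ⟨Low1_B P K g, ht, ht.periodic, fun m hm => Low1_period P hP K hK hco ⟨g, hg⟩ m hm⟩

/-- Union over residue classes: `A = r Y`, `B = ⋃_i (i + r B_i)`. -/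
theorem low_union (Y : Finset ℤ) (P : Finset ℕ) (hne : P.Nonempty) (K : ℕ → ℕ)
    (hcop : ∀ g ∈ P, ∀ g' ∈ P, g ≠ g' → (K g).Coprime (K g'))
    (h : ∀ g ∈ P, ∃ B : Set ℤ, Pool.Agent.TilePer.Tiles Y B ∧
        (∃ m, Pool.Agent.TilePer.IsPeriod B m) ∧
        ∀ m, Pool.Agent.TilePer.IsPeriod B m → K g ∣ m) :
    ∃ B : Set ℤ, Pool.Agent.TilePer.Tiles (Y.image (fun y => (P.card : ℤ) * y)) B ∧
      ∀ m, Pool.Agent.TilePer.IsPeriod B m → (∏ g ∈ P, K g) ∣ m := by
  classical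
  choose Bf hB1 _ hB3 using h
  have hr : 0 < P.card := hne.card_pos
  have hrZ : (0 : ℤ) < P.card := by exact_mod_cast hr
  set r : ℤ := (P.card : ℤ) with hrdef
  let e : Fin P.card ≃ P := P.equivFin.symm
  let Bi : Fin P.card → Set ℤ := fun i => Bf (e i) (e i).2
  let B : Set ℤ := {z | ∃ i : Fin P.card, ∃ x ∈ Bi i, z = (i : ℕ) + r * x}
  have huniq : ∀ (i i' : Fin P.card) (x x' : ℤ), ((i : ℕ) : ℤ) + r * x = ((i' : ℕ) : ℤ) + r * x' →
      i = i' ∧ x = x' := by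
    intro i i' x x' heq
    have h1 : ((i : ℕ) : ℤ) < r := by
      rw [hrdef]
      exact_mod_cast i.2
    have h2 : ((i' : ℕ) : ℤ) < r := by
      rw [hrdef]
      exact_mod_cast i'.2
    have h3 : (((i : ℕ) : ℤ) + r * x) % r = (i : ℕ) := by
      rw [Int.add_mul_emod_self_left]
      exact Int.emod_eq_of_lt (Int.natCast_nonneg _) h1
    have h4 : (((i' : ℕ) : ℤ) + r * x') % r = (i' : ℕ) := by
      rw [Int.add_mul_emod_self_left]
      exact Int.emod_eq_of_lt (Int.natCast_nonneg _) h2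
    have h5 : ((i : ℕ) : ℤ) = ((i' : ℕ) : ℤ) := by rw [← h3, ← h4, heq]
    refine ⟨Fin.ext (by exact_mod_cast h5), ?_⟩
    rw [h5] at heq
    have h6 : r * x = r * x' := by linarith
    exact mul_left_cancel₀ hrZ.ne' h6
  have hmem : ∀ (i : Fin P.card) (x : ℤ), ((i : ℕ) : ℤ) + r * x ∈ B ↔ x ∈ Bi i := by
    intro i x
    constructor
    · rintro ⟨i', x', hx', heq⟩
      obtain ⟨h1, h2⟩ := huniq i i' x x' heq
      rw [h1, h2]
      exact hx'
    · intro hx
      exact ⟨i, x, hx, rfl⟩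
  refine ⟨B, ?_, ?_⟩
  · apply Pool.Agent.TilePer.Tiles.mk'
    · intro z
      have h1 := Int.emod_nonneg z hrZ.ne'
      have h2 := Int.emod_lt_of_pos z hrZ
      let i : Fin P.card := ⟨(z % r).toNat, by
        have : ((z % r).toNat : ℤ) < (P.card : ℤ) := by
          rw [Int.toNat_of_nonneg h1]
          exact h2
        exact_mod_cast this⟩
      have hi : ((i : ℕ) : ℤ) = z % r := Int.toNat_of_nonneg h1
      obtain ⟨a, ha, hb⟩ := (hB1 (e i) (e i).2).exists (z / r)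
      refine ⟨r * a, Finset.mem_image_of_mem _ ha, ?_⟩
      have e1 : z - r * a = (i : ℕ) + r * (z / r - a) := by
        rw [hi]
        have := Int.emod_add_mul_ediv z r
        linear_combination -this
      rw [e1, hmem]
      exact hb
    · intro a ha a' ha' b hb b' hb' heq
      obtain ⟨y, hy, rfl⟩ := Finset.mem_image.1 ha
      obtain ⟨y', hy', rfl⟩ := Finset.mem_image.1 ha'
      obtain ⟨i, x, hx, rfl⟩ := hb
      obtain ⟨i', x', hx', rfl⟩ := hb'
      have h1 : ((i : ℕ) : ℤ) + r * (y + x) = ((i' : ℕ) : ℤ) + r * (y' + x') := by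
        linear_combination heq
      obtain ⟨h2, h3⟩ := huniq i i' _ _ h1
      subst h2
      have h4 := (hB1 (e i) (e i).2).unique hy hy' hx hx' h3
      rw [h4]
  · intro m hm
    have hper : ∀ i : Fin P.card, Pool.Agent.TilePer.IsPeriod (Bi i) m := by
      intro i
      refine ⟨hm.1, fun x => ?_⟩
      rw [← hmem i x, ← hmem i (x + m)]
      have h1 := hm.int r (((i : ℕ) : ℤ) + r * x)
      have e1 : ((i : ℕ) : ℤ) + r * (x + m) = ((i : ℕ) : ℤ) + r * x + r * m := by ring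
      rw [e1]
      exact h1
    have hZ : ((∏ g ∈ P, K g : ℕ) : ℤ) ∣ (m : ℤ) := by
      push_cast
      apply Finset.prod_dvd_of_coprime
      · intro p hp q hq hpq
        show IsCoprime (K p : ℤ) (K q : ℤ)
        rw [Nat.isCoprime_iff_coprime]
        exact hcop p hp q hq hpq
      · intro p hp
        have h1 := hper (e.symm ⟨p, hp⟩)
        have h2 : Bi (e.symm ⟨p, hp⟩) = Bf p hp := by
          show Bf (e (e.symm ⟨p, hp⟩)) _ = Bf p hp
          congr 1
          rw [Equiv.apply_symm_apply]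
        rw [h2] at h1
        have h3 := hB3 p hp m h1
        exact_mod_cast h3
    exact_mod_cast hZ

end Pool.Agent.TPer
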