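import Pool.Agent.TilePer.Basic

/-! Every diameter (note 2688 (8)): `S` = `{0, .., l-1}` with the element `s % l` replaced by `s`,
`A' = S + l A`, `B' = l B`; `s = d - l d1` is not `0` mod `l` and `s ≥ l - 1`. -/

namespace Pool.Agent.TPer

open Finset

theorem low_diam {A : Finset ℤ} {B : Set ℤ} {d1 d l : ℕ} (h : Pool.Agent.TilePer.Tiles A B)
    (hd1 : (∃ a ∈ A, ∃ a' ∈ A, a' - a = d1) ∧ ∀ a ∈ A, ∀ a' ∈ A, a' - a ≤ d1)
    (hl : ¬ l ∣ d) (hl2 : 2 ≤ l) (hd : l * (d1 + 1) ≤ d + 1) :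
    ∃ (A' : Finset ℤ) (B' : Set ℤ), Pool.Agent.TilePer.Tiles A' B' ∧
      ((∃ a ∈ A', ∃ a' ∈ A', a' - a = d) ∧ ∀ a ∈ A', ∀ a' ∈ A', a' - a ≤ d) ∧
      ∀ m, Pool.Agent.TilePer.IsPeriod B' m →
        ∃ m', Pool.Agent.TilePer.IsPeriod B m' ∧ m' ≤ m := by
  classical
  obtain ⟨⟨a0, ha0, a1, ha1, ha01⟩, hdiam⟩ := hd1
  set s : ℤ := (d : ℤ) - l * d1 with hs
  have hl0 : (0 : ℤ) < l := by exact_mod_cast (by omega : 0 < l)
  have hd' : (l : ℤ) * (d1 + 1) ≤ d + 1 := by exact_mod_cast hd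
  have hsl : (l : ℤ) - 1 ≤ s := by
    rw [hs]
    linarith
  have hs0 : 0 ≤ s := by
    have : (2 : ℤ) ≤ l := by exact_mod_cast hl2
    linarith
  have hsmod : s % l ≠ 0 := by
    intro h0
    apply hl
    have h1 : (l : ℤ) ∣ s := Int.dvd_of_emod_eq_zero h0
    have h2 : (l : ℤ) ∣ d := by
      have : (d : ℤ) = s + l * d1 := by rw [hs]; ring
      rw [this]
      exact dvd_add h1 (dvd_mul_right _ _)
    exact_mod_cast h2
  -- the representative of a residue
  set ρ : ℤ → ℤ := fun x => if x % l = s % l then s else x % l with hρ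
  have hρmod : ∀ x, ρ x % l = x % l := by
    intro x
    simp only [hρ]
    split_ifs with h1
    · exact h1.symm
    · exact Int.emod_emod_of_dvd _ dvd_rfl
  have hρcong : ∀ x y : ℤ, x % l = y % l → ρ x = ρ y := by
    intro x y hxy
    simp only [hρ, hxy]
  have hρ0 : ∀ x, 0 ≤ ρ x := by
    intro x
    simp only [hρ]
    split_ifs
    · exact hs0
    · exact Int.emod_nonneg _ hl0.ne'
  have hρs : ∀ x, ρ x ≤ s := by
    intro x
    simp only [hρ]
    split_ifs
    · exact le_rfl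
    · have := Int.emod_lt_of_pos x hl0
      linarith
  have hρz : ρ 0 = 0 := by
    simp only [hρ]
    rw [Int.zero_emod, if_neg (Ne.symm hsmod)]
  have hρss : ρ s = s := by
    simp only [hρ]
    simp
  set S : Finset ℤ := (Finset.Ico (0 : ℤ) l).image ρ with hS
  have hmemS : ∀ x, ρ x ∈ S := by
    intro x
    rw [hS, Finset.mem_image]
    refine ⟨x % l, ?_, ?_⟩
    · rw [Finset.mem_Ico]
      exact ⟨Int.emod_nonneg _ hl0.ne', Int.emod_lt_of_pos _ hl0⟩
    · exact hρcong _ _ (Int.emod_emod_of_dvd _ dvd_rfl)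
  have hSρ : ∀ σ ∈ S, ∃ x, σ = ρ x := by
    intro σ hσ
    rw [hS, Finset.mem_image] at hσ
    obtain ⟨x, -, rfl⟩ := hσ
    exact ⟨x, rfl⟩
  refine ⟨(S ×ˢ A).image (fun p => p.1 + l * p.2), {x | ∃ b ∈ B, x = l * b}, ?_, ?_, ?_⟩
  · apply Pool.Agent.TilePer.Tiles.mk'
    · intro n
      have h1 : (l : ℤ) ∣ n - ρ n := by
        apply Int.ModEq.dvd
        exact hρmod n
      obtain ⟨m, hm⟩ := h1
      obtain ⟨a, ha, hb⟩ := h.exists m
      refine ⟨ρ n + l * a, ?_, m - a, hb, ?_⟩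
      · rw [Finset.mem_image]
        exact ⟨(ρ n, a), Finset.mem_product.mpr ⟨hmemS n, ha⟩, rfl⟩
      · have : n = ρ n + l * m := by linarith
        calc n - (ρ n + l * a) = (n - ρ n) - l * a := by ring
          _ = l * m - l * a := by rw [hm]
          _ = l * (m - a) := by ring
    · rintro x hx x' hx' y ⟨b, hb, rfl⟩ y' ⟨b', hb', rfl⟩ e
      rw [Finset.mem_image] at hx hx'
      obtain ⟨⟨σ, a⟩, hσa, rfl⟩ := hx
      obtain ⟨⟨σ', a'⟩, hσa', rfl⟩ := hx'
      rw [Finset.mem_product] at hσa hσa'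
      simp only at hσa hσa' e ⊢
      obtain ⟨u, hu⟩ := hSρ σ hσa.1
      obtain ⟨u', hu'⟩ := hSρ σ' hσa'.1
      have e1 : σ - σ' = l * (a' + b' - a - b) := by linarith
      have e2 : σ % l = σ' % l :=
        Int.emod_eq_emod_iff_emod_sub_eq_zero.mpr (by rw [e1]; exact Int.mul_emod_right _ _)
      have e3 : σ = σ' := by
        rw [hu, hu'] at e2 ⊢
        rw [hρmod, hρmod] at e2
        exact hρcong _ _ e2
      subst e3
      have e4 : (l : ℤ) * (a + b) = l * (a' + b') := by linarith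
      have e5 : a + b = a' + b' := mul_left_cancel₀ hl0.ne' e4
      have e6 := h.unique hσa.2 hσa'.2 hb hb' e5
      rw [e6]
  · constructor
    · refine ⟨ρ 0 + l * a0, ?_, ρ s + l * a1, ?_, ?_⟩
      · rw [Finset.mem_image]
        exact ⟨(ρ 0, a0), Finset.mem_product.mpr ⟨hmemS 0, ha0⟩, rfl⟩
      · rw [Finset.mem_image]
        exact ⟨(ρ s, a1), Finset.mem_product.mpr ⟨hmemS s, ha1⟩, rfl⟩
      · rw [hρz, hρss]
        have : a1 = a0 + d1 := by linarith
        rw [this, hs]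
        ring
    · intro x hx x' hx'
      rw [Finset.mem_image] at hx hx'
      obtain ⟨⟨σ, a⟩, hσa, rfl⟩ := hx
      obtain ⟨⟨σ', a'⟩, hσa', rfl⟩ := hx'
      rw [Finset.mem_product] at hσa hσa'
      simp only at hσa hσa' ⊢
      obtain ⟨u, hu⟩ := hSρ σ hσa.1
      obtain ⟨u', hu'⟩ := hSρ σ' hσa'.1
      have h1 : a' - a ≤ d1 := hdiam a hσa.2 a' hσa'.2
      have h2 : (l : ℤ) * (a' - a) ≤ l * d1 := mul_le_mul_of_nonneg_left h1 hl0.le
      have h3 : σ' ≤ s := hu' ▸ hρs u'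
      have h4 : 0 ≤ σ := hu ▸ hρ0 u
      rw [hs] at h3
      linarith
  · rintro m ⟨hm0, hm⟩
    obtain ⟨a, ha, hb⟩ := h.exists 0
    have h1 : (l : ℤ) * (0 - a) + m ∈ {x : ℤ | ∃ b ∈ B, x = l * b} :=
      (hm _).mpr ⟨0 - a, hb, rfl⟩
    obtain ⟨b', hb', e⟩ := h1
    have hdvd : (l : ℤ) ∣ m := by
      have : (m : ℤ) = l * (b' - (0 - a)) := by linarith
      rw [this]
      exact dvd_mul_right _ _
    have hdvd' : l ∣ m := by exact_mod_cast hdvd
    obtain ⟨m', rfl⟩ := hdvd'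
    refine ⟨m', ⟨?_, ?_⟩, ?_⟩
    · rcases Nat.eq_zero_or_pos m' with h0 | h0
      · rw [h0] at hm0
        simp at hm0
      · exact h0
    · intro x
      have h2 := hm (l * x)
      have h3 : ∀ z : ℤ, (l * z ∈ {x : ℤ | ∃ b ∈ B, x = l * b}) ↔ z ∈ B := by
        intro z
        constructor
        · rintro ⟨b, hb, e⟩
          have : z = b := mul_left_cancel₀ hl0.ne' e
          rw [this]; exact hb
        · intro hz
          exact ⟨z, hz, rfl⟩
      have h4 : (l : ℤ) * x + ((l * m' : ℕ) : ℤ) = l * (x + m') := by push_cast; ring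
      rw [h4, h3, h3] at h2
      exact h2
    · exact Nat.le_mul_of_pos_left _ (by omega)

/-- A small non-divisor: if all `l ≤ 2m` divide `d` then `centralBinom m ∣ d` (for a prime `p` the power
`p^(v_p (centralBinom m))` is `≤ 2m`, `Nat.factorization_choose_le_log`), and `centralBinom m ≥ 2^m`. Take
`m = Nat.log 2 d + 1`. -/
theorem small_nondivisor (d : ℕ) (hd : 1 ≤ d) :
    ∃ l : ℕ, 2 ≤ l ∧ ¬ l ∣ d ∧ l ≤ 2 * (Nat.log 2 d + 1) := by
  by_contra hcon
  push Not at hcon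
  have hd0 : d ≠ 0 := by omega
  set n : ℕ := Nat.log 2 d + 1 with hn
  have hn0 : 0 < n := by omega
  have hall : ∀ l : ℕ, 2 ≤ l → l ≤ 2 * n → l ∣ d := by
    intro l hl hly
    by_contra hnd
    exact absurd (hcon l hl hnd) (not_lt.mpr hly)
  have hdvd : Nat.centralBinom n ∣ d := by
    rw [← Nat.factorization_prime_le_iff_dvd (Nat.centralBinom_ne_zero n) hd0]
    intro p hp
    have hpow : p ^ (Nat.centralBinom n).factorization p ≤ 2 * n := by
      rw [Nat.centralBinom_eq_two_mul_choose]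
      exact Nat.pow_factorization_choose_le (by omega)
    rw [← hp.pow_dvd_iff_le_factorization hd0]
    rcases Nat.eq_zero_or_pos ((Nat.centralBinom n).factorization p) with h0 | h0
    · rw [h0]; simp
    · apply hall
      · calc 2 ≤ p := hp.two_le
          _ = p ^ 1 := (pow_one p).symm
          _ ≤ _ := Nat.pow_le_pow_right hp.pos h0
      · exact hpow
  have hle : Nat.centralBinom n ≤ d := Nat.le_of_dvd (Nat.pos_of_ne_zero hd0) hdvd
  have h5 : 4 ^ n ≤ 2 * n * Nat.centralBinom n := Nat.four_pow_le_two_mul_self_mul_centralBinom n hn0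
  have h6 : d < 2 ^ n := Nat.lt_pow_succ_log_self (by norm_num) d
  have h7 : 2 * n ≤ 2 ^ n := by
    have h8 : n < 2 ^ (n - 1) + 1 := by
      have := Nat.lt_two_pow_self (n := n - 1)
      omega
    have h9 : 2 ^ n = 2 * 2 ^ (n - 1) := by
      rw [← pow_succ']
      congr 1
    omega
  have h8 : 4 ^ n < 4 ^ n := by
    calc 4 ^ n ≤ 2 * n * Nat.centralBinom n := h5
      _ ≤ 2 ^ n * d := Nat.mul_le_mul h7 hle
      _ < 2 ^ n * 2 ^ n := Nat.mul_lt_mul_of_pos_left h6 (by positivity)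
      _ = 4 ^ n := by
          rw [← mul_pow]
          norm_num
  exact lt_irrefl _ h8

end Pool.Agent.TPer
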