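import Mathlib

/-! The main term of `log M(d)` and the sequence of primorials. -/

namespace Pool.Agent.TPer

open Finset

/-- The main term: the largest value of `ω(n) log (d / n)` for `1 ≤ n ≤ d`. -/
noncomputable def mainTerm (d : ℕ) : ℝ :=
  sSup {x : ℝ | ∃ n : ℕ, 1 ≤ n ∧ n ≤ d ∧ x = n.primeFactors.card * (Real.log d - Real.log n)}

/-- The product of the first `w` primes. -/
noncomputable def pr (w : ℕ) : ℕ := ∏ i ∈ range w, Nat.nth Nat.Prime i

theorem pr_pos (w : ℕ) : 0 < pr w :=
  Finset.prod_pos fun i _ => (Nat.prime_nth_prime i).pos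

theorem mainTerm_bdd (d : ℕ) :
    BddAbove {x : ℝ | ∃ n : ℕ, 1 ≤ n ∧ n ≤ d ∧
      x = n.primeFactors.card * (Real.log d - Real.log n)} := by
  refine Set.Finite.bddAbove ?_
  refine (Set.Finite.image (fun n : ℕ => (n.primeFactors.card : ℝ) * (Real.log d - Real.log n))
    (Set.finite_Icc 1 d)).subset ?_
  rintro x ⟨n, h1, h2, rfl⟩
  exact ⟨n, ⟨h1, h2⟩, rfl⟩

theorem le_mainTerm {d n : ℕ} (h1 : 1 ≤ n) (h2 : n ≤ d) :
    n.primeFactors.card * (Real.log d - Real.log n) ≤ mainTerm d :=
  le_csSup (mainTerm_bdd d) ⟨n, h1, h2, rfl⟩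

theorem mainTerm_le {d : ℕ} (hd : 1 ≤ d) {c : ℝ}
    (h : ∀ n : ℕ, 1 ≤ n → n ≤ d → n.primeFactors.card * (Real.log d - Real.log n) ≤ c) :
    mainTerm d ≤ c := by
  refine csSup_le ⟨_, 1, le_refl 1, hd, rfl⟩ ?_
  rintro x ⟨n, h1, h2, rfl⟩
  exact h n h1 h2

theorem mainTerm_nonneg {d : ℕ} (hd : 1 ≤ d) : 0 ≤ mainTerm d := by
  have := le_mainTerm (d := d) (n := 1) (le_refl 1) hd
  simpa using this

theorem pr_le_prod (S : Finset ℕ) (hS : ∀ q ∈ S, q.Prime) : pr S.card ≤ ∏ q ∈ S, q := by
  induction hn : S.card generalizing S with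
  | zero =>
    rw [Finset.card_eq_zero] at hn
    subst hn
    simp [pr]
  | succ w ih =>
    have hne : S.Nonempty := by
      rw [← Finset.card_pos]
      omega
    set m := S.max' hne with hm
    have hmS : m ∈ S := S.max'_mem hne
    have h1 := ih (S.erase m) (fun q hq => hS q (Finset.mem_of_mem_erase hq))
      (by rw [Finset.card_erase_of_mem hmS, hn]; rfl)
    have h2 : pr (w + 1) = pr w * Nat.nth Nat.Prime w := by
      rw [pr, Finset.prod_range_succ, ← pr]
    rw [h2, ← Finset.prod_erase_mul S _ hmS]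
    refine Nat.mul_le_mul h1 ?_
    -- `w` primes are below `m`
    have h3 : w ≤ Nat.count Nat.Prime m := by
      rw [Nat.count_eq_card_filter_range]
      have h4 : S.erase m ⊆ (range m).filter Nat.Prime := by
        intro x hx
        rw [Finset.mem_erase] at hx
        rw [Finset.mem_filter, Finset.mem_range]
        exact ⟨lt_of_le_of_ne (S.le_max' x hx.2) hx.1, hS x hx.2⟩
      have h5 := Finset.card_le_card h4
      rwa [Finset.card_erase_of_mem hmS, hn] at h5
    have h4 : Nat.nth Nat.Prime w ≤ Nat.nth Nat.Prime (Nat.count Nat.Prime m) :=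
      Nat.nth_monotone Nat.infinite_setOfPred_prime h3
    rwa [Nat.nth_count (hS m hmS)] at h4

/-- A number with `w` distinct prime factors is at least the product of the first `w` primes. -/
theorem pr_le {n : ℕ} (hn : 1 ≤ n) : pr n.primeFactors.card ≤ n := by
  refine (pr_le_prod n.primeFactors fun q hq => Nat.prime_of_mem_primeFactors hq).trans ?_
  exact Nat.le_of_dvd (by omega) (Nat.prod_primeFactors_dvd n)

theorem primeFactors_pr (w : ℕ) : (pr w).primeFactors = (range w).image (Nat.nth Nat.Prime) := by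
  ext p
  rw [Nat.mem_primeFactors, Finset.mem_image]
  constructor
  · rintro ⟨hp, hd, -⟩
    rw [pr, hp.prime.dvd_finsetProd_iff] at hd
    obtain ⟨i, hi, hd⟩ := hd
    exact ⟨i, hi, ((Nat.prime_dvd_prime_iff_eq hp (Nat.prime_nth_prime i)).mp hd).symm⟩
  · rintro ⟨i, hi, rfl⟩
    exact ⟨Nat.prime_nth_prime i, Finset.dvd_prod_of_mem _ hi, (pr_pos w).ne'⟩

theorem card_primeFactors_pr (w : ℕ) : (pr w).primeFactors.card = w := by
  rw [primeFactors_pr, Finset.card_image_of_injective _
    (Nat.nth_strictMono Nat.infinite_setOfPred_prime).injective, Finset.card_range]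

/-- The product of the primes `≤ x` is `pr (π(x))`. -/
theorem primorial_eq_pr (x : ℕ) : primorial x = pr (Nat.primeCounting x) := by
  have h1 : (range (x + 1)).filter Nat.Prime =
      (range (Nat.count Nat.Prime (x + 1))).image (Nat.nth Nat.Prime) := by
    ext p
    rw [Finset.mem_filter, Finset.mem_range, Finset.mem_image]
    constructor
    · rintro ⟨h2, hp⟩
      exact ⟨Nat.count Nat.Prime p, Finset.mem_range.mpr (Nat.count_strict_mono hp h2),
        Nat.nth_count hp⟩
    · rintro ⟨i, hi, rfl⟩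
      exact ⟨Nat.nth_lt_of_lt_count (Finset.mem_range.mp hi), Nat.prime_nth_prime i⟩
  rw [primorial, h1, Finset.prod_image
    (fun a _ b _ h => (Nat.nth_strictMono Nat.infinite_setOfPred_prime).injective h)]
  rfl

/-- `w! ≤ p_1 ⋯ p_w`, even `(w+1)! ≤ p_1 ⋯ p_w`. -/
theorem factorial_le_pr (w : ℕ) : (w + 1).factorial ≤ pr w := by
  induction w with
  | zero => simp [pr]
  | succ w ih =>
    have h1 : pr (w + 1) = pr w * Nat.nth Nat.Prime w := by
      rw [pr, Finset.prod_range_succ, ← pr]
    rw [h1, Nat.factorial_succ, Nat.mul_comm]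
    refine Nat.mul_le_mul ih ?_
    exact Nat.add_two_le_nth_prime w

end Pool.Agent.TPer
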