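import Pool.Agent.TPer.Low1
import Pool.Agent.TPer.Low3
import Pool.Agent.TPer.Main

/-! The construction for `P` = the first `u` primes, `n = pr u`. `K_g = 1 + n (t + j(g))`,
`j : P → {1..u}` injective (`p_i` gets `i + 1`): pairwise coprime (a common prime divides `n (j - j')`, it does not
divide `n`, so it divides `j - j' < u`, but all primes `< u` divide `n`), `K_g ≥ 3`.
`low_tile`, `low_union`: `A = u Y`, diameter `d1 ≤ u * ∑ n K_g ≤ u^2 n (1 + n (t + u))`. Let
`L = 2 (Nat.log 2 d + 1)`; `t` the largest with `L (u^2 n (1 + n (t + u)) + 1) ≤ d` (true for `t = 0` by the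
hypothesis). Then `d < L (u^2 n (1 + n (t + 1 + u)) + 1)` and `1 + n (t+1+u) ≤ (u + 1) (1 + n (t+1)) ≤ (u+1) K_g`,
`L ≤ d / 2`, so `K_g ≥ d / (2 L u^2 (u+1) n)`. `small_nondivisor` and `low_diam` give the diameter exactly
`d`; `m ≥ ∏ K_g`. Errors: `u log (u+1) = O(log d)` (`(u+1)! ≤ pr u ≤ d`), `u log L = O(log d)` (if
`u ≤ √(log d)` clear, otherwise `log log d ≤ 2 log u`). -/

namespace Pool.Agent.TPer

open Finset

private theorem l4_step (u t : ℕ) (hu : 1 ≤ u) : ∃ (A : Finset ℤ) (B : Set ℤ) (d1 : ℕ),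
    Pool.Agent.TilePer.Tiles A B ∧
      ((∃ a ∈ A, ∃ a' ∈ A, a' - a = d1) ∧ ∀ a ∈ A, ∀ a' ∈ A, a' - a ≤ d1) ∧
      d1 ≤ u ^ 2 * pr u * (1 + pr u * (t + u)) ∧
      ∀ m, Pool.Agent.TilePer.IsPeriod B m → (1 + pr u * (t + 1)) ^ u ≤ m := by
  classical
  have hinj : Function.Injective (Nat.nth Nat.Prime) :=
    (Nat.nth_strictMono Nat.infinite_setOfPred_prime).injective
  set P : Finset ℕ := (range u).image (Nat.nth Nat.Prime) with hPdef
  have hprim : pr u = ∏ p ∈ P, p := by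
    rw [hPdef, prod_image (fun a _ b _ h => hinj h)]; rfl
  set n := pr u with hn
  have hnpos : 0 < n := pr_pos u
  have hcount : ∀ i, Nat.count Nat.Prime (Nat.nth Nat.Prime i) = i := fun i =>
    Nat.count_nth_of_infinite Nat.infinite_setOfPred_prime i
  have hPp : ∀ g ∈ P, g.Prime := by
    intro g hg
    rw [hPdef, mem_image] at hg
    obtain ⟨i, -, rfl⟩ := hg
    exact Nat.prime_nth_prime i
  have hPc : ∀ g ∈ P, Nat.count Nat.Prime g < u ∧ Nat.nth Nat.Prime (Nat.count Nat.Prime g) = g := by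
    intro g hg
    rw [hPdef, mem_image] at hg
    obtain ⟨i, hi, rfl⟩ := hg
    rw [hcount]
    exact ⟨mem_range.mp hi, rfl⟩
  have hne : P.Nonempty := by
    rw [hPdef]; exact (nonempty_range_iff.mpr (by omega)).image _
  have hcard : P.card = u := by
    rw [hPdef, card_image_of_injective _ hinj, card_range]
  have hn2 : 2 ≤ n := by
    obtain ⟨g, hg⟩ := hne
    have h1 : g ∣ n := by rw [hprim]; exact dvd_prod_of_mem _ hg
    exact (hPp g hg).two_le.trans (Nat.le_of_dvd hnpos h1)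
  set K : ℕ → ℕ := fun g => 1 + n * (t + (Nat.count Nat.Prime g + 1)) with hKdef
  have hKlow : ∀ g, 1 + n * (t + 1) ≤ K g := by
    intro g
    show 1 + n * (t + 1) ≤ 1 + n * (t + (Nat.count Nat.Prime g + 1))
    gcongr; omega
  have hK : ∀ g ∈ P, 3 ≤ K g := by
    intro g hg
    have h1 := hKlow g
    have : 2 * 1 ≤ n * (t + 1) := Nat.mul_le_mul hn2 (by omega)
    omega
  have hKup : ∀ g ∈ P, K g ≤ 1 + n * (t + u) := by
    intro g hg
    show 1 + n * (t + (Nat.count Nat.Prime g + 1)) ≤ 1 + n * (t + u)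
    have := (hPc g hg).1
    gcongr; omega
  have hco : ∀ g ∈ P, (K g).Coprime (∏ q ∈ P, q) := by
    intro g hg
    rw [← hprim]
    show (1 + n * (t + (Nat.count Nat.Prime g + 1))).Coprime n
    simp
  have hcop : ∀ g ∈ P, ∀ g' ∈ P, g ≠ g' → (K g).Coprime (K g') := by
    intro g hg g' hg' hne'
    rw [Nat.coprime_iff_gcd_eq_one]
    by_contra hc
    obtain ⟨q, hq, hqd⟩ := Nat.exists_prime_and_dvd hc
    have hq1 : q ∣ 1 + n * (t + (Nat.count Nat.Prime g + 1)) := (hqd.trans (Nat.gcd_dvd_left _ _))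
    have hq2 : q ∣ 1 + n * (t + (Nat.count Nat.Prime g' + 1)) := (hqd.trans (Nat.gcd_dvd_right _ _))
    have hqn : ¬ q ∣ n := by
      intro h
      have h1 : q ∣ n * (t + (Nat.count Nat.Prime g + 1)) := dvd_mul_of_dvd_left h _
      have := (Nat.dvd_add_left h1).mp hq1
      exact hq.one_lt.ne' (Nat.dvd_one.mp this)
    have hz1 : (q : ℤ) ∣ (n : ℤ) * ((Nat.count Nat.Prime g : ℤ) - Nat.count Nat.Prime g') := by
      have e1 : (q : ℤ) ∣ ((1 + n * (t + (Nat.count Nat.Prime g + 1)) : ℕ) : ℤ) := by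
        exact_mod_cast hq1
      have e2 : (q : ℤ) ∣ ((1 + n * (t + (Nat.count Nat.Prime g' + 1)) : ℕ) : ℤ) := by
        exact_mod_cast hq2
      have := dvd_sub e1 e2
      have e3 : ((1 + n * (t + (Nat.count Nat.Prime g + 1)) : ℕ) : ℤ) -
          ((1 + n * (t + (Nat.count Nat.Prime g' + 1)) : ℕ) : ℤ) =
          (n : ℤ) * ((Nat.count Nat.Prime g : ℤ) - Nat.count Nat.Prime g') := by
        push_cast; ring
      rwa [e3] at this
    have hqZ : Prime (q : ℤ) := Nat.prime_iff_prime_int.mp hq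
    rcases hqZ.dvd_or_dvd hz1 with h | h
    · exact hqn (by exact_mod_cast h)
    · obtain ⟨hg1, hg2⟩ := hPc g hg
      obtain ⟨hg1', hg2'⟩ := hPc g' hg'
      have hle : (q : ℤ) < u := by
        have hne0 : (Nat.count Nat.Prime g : ℤ) - Nat.count Nat.Prime g' ≠ 0 := by
          intro h0; apply hne'
          have : Nat.count Nat.Prime g = Nat.count Nat.Prime g' := by omega
          rw [← hg2, this, hg2']
        have := Int.le_of_dvd (abs_pos.mpr hne0) ((dvd_abs _ _).mpr h)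
        have h2 : |(Nat.count Nat.Prime g : ℤ) - Nat.count Nat.Prime g'| < u := by
          rw [abs_lt]; constructor <;> omega
        linarith
      have hqP : q ∈ P := by
        rw [hPdef, mem_image]
        refine ⟨Nat.count Nat.Prime q, mem_range.mpr ?_, Nat.nth_count hq⟩
        have := Nat.count_le (p := Nat.Prime) (n := q)
        omega
      exact hqn (by rw [hprim]; exact dvd_prod_of_mem _ hqP)
  obtain ⟨Y, hY1, hY0, hY2⟩ := low_tile P hPp hne K hK hco
  obtain ⟨B, hB1, hB2⟩ := low_union Y P hne K hcop hY2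
  set A := Y.image (fun y => (P.card : ℤ) * y) with hA
  have h0A : (0 : ℤ) ∈ A := by
    rw [hA, mem_image]; exact ⟨0, hY0, by simp⟩
  have hAne : A.Nonempty := ⟨0, h0A⟩
  have hApos : ∀ a ∈ A, 0 ≤ a := by
    intro a ha
    rw [hA, mem_image] at ha
    obtain ⟨y, hy, rfl⟩ := ha
    have := (hY1 y hy).1
    positivity
  set M := A.max' hAne with hM
  have hMA : M ∈ A := A.max'_mem hAne
  have hM0 : 0 ≤ M := hApos M hMA
  obtain ⟨d1, hd1⟩ := Int.eq_ofNat_of_zero_le hM0
  refine ⟨A, B, d1, hB1, ⟨⟨0, h0A, M, hMA, by rw [hd1]; simp⟩, ?_⟩, ?_, ?_⟩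
  · intro a ha a' ha'
    have h1 := hApos a ha
    have h2 := A.le_max' a' ha'
    rw [← hM] at h2
    omega
  · have : (d1 : ℤ) ≤ u ^ 2 * n * (1 + n * (t + u)) := by
      rw [← hd1]
      rw [hA, mem_image] at hMA
      obtain ⟨y, hy, hyM⟩ := hMA
      rw [← hyM]
      have h1 := (hY1 y hy).2
      rw [← hprim] at h1
      have hsum : ∑ g ∈ P, (n : ℤ) * K g ≤ u * (n * (1 + n * (t + u))) := by
        calc ∑ g ∈ P, (n : ℤ) * K g ≤ ∑ g ∈ P, ((n : ℤ) * (1 + n * (t + u))) := by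
              apply sum_le_sum
              intro g hg
              have : ((K g : ℕ) : ℤ) ≤ 1 + n * (t + u) := by exact_mod_cast hKup g hg
              gcongr
          _ = _ := by rw [sum_const, nsmul_eq_mul, hcard]
      rw [hcard]
      calc (u : ℤ) * y ≤ u * (u * (n * (1 + n * (t + u)))) :=
            mul_le_mul_of_nonneg_left (h1.trans hsum) (by positivity)
        _ = u ^ 2 * n * (1 + n * (t + u)) := by ring
    exact_mod_cast this
  · intro m hm
    have h1 := hB2 m hm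
    have h2 := Nat.le_of_dvd hm.1 h1
    calc (1 + n * (t + 1)) ^ u = ∏ g ∈ P, (1 + n * (t + 1)) := by rw [prod_const, hcard]
      _ ≤ ∏ g ∈ P, K g := prod_le_prod' fun g _ => hKlow g
      _ ≤ m := h2

private theorem l4_err (u : ℕ) (hu : 1 ≤ u) {L : ℝ} (h : Real.log (pr u) ≤ L) :
    (u : ℝ) ≤ 2 * L ∧ (u : ℝ) * Real.log (u + 1) ≤ 5 * L := by
  have hlog2 := Real.log_two_gt_d9
  have hfac : Real.log ((u + 1).factorial) ≤ L := by
    refine le_trans (Real.log_le_log ?_ ?_) h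
    · exact_mod_cast Nat.factorial_pos _
    · exact_mod_cast factorial_le_pr u
  have h2 : (u : ℝ) * Real.log 2 ≤ L := by
    refine le_trans ?_ hfac
    rw [← Real.log_pow]
    apply Real.log_le_log (by positivity)
    have : ∀ k : ℕ, 2 ^ k ≤ (k + 1).factorial := by
      intro k
      induction k with
      | zero => decide
      | succ k ih =>
        rw [Nat.factorial_succ, pow_succ, Nat.mul_comm]
        exact Nat.mul_le_mul (by omega) ih
    exact_mod_cast this u
  have hu0 : (0:ℝ) ≤ u := by positivity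
  have h3 : (u : ℝ) ≤ 2 * L := by nlinarith
  refine ⟨h3, ?_⟩
  have h6 : 0 ≤ Real.log ((u : ℝ) + 1) := Real.log_nonneg (by linarith)
  have h4 : ((u : ℝ) + 1) * Real.log (u + 1) - (u + 1) ≤ Real.log ((u + 1).factorial) := by
    have h5 := Stirling.le_log_factorial_stirling (n := u + 1) (by omega)
    push_cast at h5
    have h8 : 0 ≤ Real.log (2 * Real.pi) := Real.log_nonneg (by
      have := Real.pi_gt_three; linarith)
    linarith
  have h7 : (1:ℝ) ≤ u := by exact_mod_cast hu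
  nlinarith

theorem low_prim : ∃ C : ℝ, ∀ d u : ℕ, 2 ≤ d → 1 ≤ u →
    16 * (Nat.log 2 d + 1) * u ^ 3 * (pr u) ^ 2 ≤ d →
    ∃ (A : Finset ℤ) (B : Set ℤ), Pool.Agent.TilePer.Tiles A B ∧
      ((∃ a ∈ A, ∃ a' ∈ A, a' - a = d) ∧ ∀ a ∈ A, ∀ a' ∈ A, a' - a ≤ d) ∧
      ∀ m, Pool.Agent.TilePer.IsPeriod B m →
        u * (Real.log d - Real.log (pr u)) - C * Real.log d ≤ Real.log m := by
  refine ⟨40, fun d u hd2 hu hdu => ?_⟩
  obtain ⟨l, hl2, hld, hlL⟩ := small_nondivisor d (by omega)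
  set n := pr u with hn
  have hnpos : 1 ≤ n := pr_pos u
  set Λ := Nat.log 2 d + 1 with hΛ
  have hΛ1 : 1 ≤ Λ := by omega
  -- the choice of `t`
  obtain ⟨t, ht1, ht2⟩ : ∃ t : ℕ, 2 * Λ * (u ^ 2 * n * (1 + n * (t + u)) + 1) ≤ d ∧
      d < 2 * Λ * (u ^ 2 * n * (1 + n * (t + 1 + u)) + 1) := by
    by_contra hc
    push Not at hc
    have hall : ∀ t : ℕ, 2 * Λ * (u ^ 2 * n * (1 + n * (t + u)) + 1) ≤ d := by
      intro t
      induction t with
      | zero =>
        refine le_trans ?_ hdu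
        have h1 : 1 ≤ n * u := Nat.mul_pos hnpos hu
        have h2 : 1 + n * (0 + u) ≤ 2 * (n * u) := by rw [zero_add]; omega
        have h3 : u ^ 2 * n * (1 + n * (0 + u)) ≤ 2 * (u ^ 3 * n ^ 2) := by
          calc u ^ 2 * n * (1 + n * (0 + u)) ≤ u ^ 2 * n * (2 * (n * u)) :=
                Nat.mul_le_mul_left _ h2
            _ = 2 * (u ^ 3 * n ^ 2) := by ring
        have h4 : 1 ≤ u ^ 3 * n ^ 2 := Nat.mul_pos (by positivity) (by positivity)
        calc 2 * Λ * (u ^ 2 * n * (1 + n * (0 + u)) + 1)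
            ≤ 2 * Λ * (8 * (u ^ 3 * n ^ 2)) := Nat.mul_le_mul_left _ (by omega)
          _ = 16 * Λ * u ^ 3 * n ^ 2 := by ring
      | succ t ih => exact hc t ih
    have h1 := hall d
    have h2 : d < 2 * Λ * (u ^ 2 * n * (1 + n * (d + u)) + 1) := by
      have h3 : d ≤ n * (d + u) := by nlinarith
      have h4 : 1 ≤ u ^ 2 * n := Nat.mul_pos (by positivity) hnpos
      have h5 : 1 + n * (d + u) ≤ u ^ 2 * n * (1 + n * (d + u)) := Nat.le_mul_of_pos_left _ h4
      have h6 : u ^ 2 * n * (1 + n * (d + u)) + 1 ≤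
          2 * Λ * (u ^ 2 * n * (1 + n * (d + u)) + 1) := Nat.le_mul_of_pos_left _ (by omega)
      omega
    omega
  obtain ⟨A, B, d1, hAB, hdiam, hd1U, hper⟩ := l4_step u t hu
  rw [← hn] at hd1U hper
  have hld' : l * (d1 + 1) ≤ d + 1 := by
    calc l * (d1 + 1) ≤ (2 * Λ) * (u ^ 2 * n * (1 + n * (t + u)) + 1) :=
          Nat.mul_le_mul hlL (by omega)
      _ ≤ d := ht1
      _ ≤ d + 1 := by omega
  obtain ⟨A', B', hAB', hdiam', hper'⟩ := low_diam hAB hdiam hld hl2 hld'
  refine ⟨A', B', hAB', hdiam', fun m hm => ?_⟩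
  obtain ⟨m', hm', hmm⟩ := hper' m hm
  have hpm := hper m' hm'
  set κ := 1 + n * (t + 1) with hκ
  -- lower bound for `κ`
  have hκ1 : d ≤ 4 * Λ * u ^ 2 * (u + 1) * n * κ := by
    have h1 : 1 + n * (t + 1 + u) ≤ (u + 1) * κ := by
      rw [hκ]; nlinarith [Nat.zero_le (u * (n * t)), Nat.zero_le (u * n)]
    have h2 : u ^ 2 * n * (1 + n * (t + 1 + u)) ≤ u ^ 2 * n * ((u + 1) * κ) :=
      Nat.mul_le_mul_left _ h1
    have h3 : 1 ≤ u ^ 2 * n * ((u + 1) * κ) := by
      have : 0 < u ^ 2 * n := Nat.mul_pos (by positivity) hnpos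
      exact Nat.mul_pos this (Nat.mul_pos (by omega) (by omega))
    calc d ≤ 2 * Λ * (u ^ 2 * n * (1 + n * (t + 1 + u)) + 1) := ht2.le
      _ ≤ 2 * Λ * (2 * (u ^ 2 * n * ((u + 1) * κ))) := Nat.mul_le_mul_left _ (by omega)
      _ = 4 * Λ * u ^ 2 * (u + 1) * n * κ := by ring
  have hdpos : (0:ℝ) < d := by positivity
  have hnpos' : (0:ℝ) < n := by exact_mod_cast hnpos
  have hupos : (0:ℝ) < u := by exact_mod_cast hu
  have hΛpos : (0:ℝ) < Λ := by exact_mod_cast hΛ1
  have hκpos : (0:ℝ) < κ := by positivity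
  set L := Real.log d with hL
  have hlogκ : L ≤ Real.log 4 + Real.log Λ + 2 * Real.log u + Real.log (u + 1) +
      Real.log n + Real.log κ := by
    have h1 : (d : ℝ) ≤ 4 * Λ * u ^ 2 * (u + 1) * n * κ := by exact_mod_cast hκ1
    have h2 := Real.log_le_log hdpos h1
    rw [Real.log_mul (by positivity) (by positivity), Real.log_mul (by positivity) (by positivity),
      Real.log_mul (by positivity) (by positivity), Real.log_mul (by positivity) (by positivity),
      Real.log_mul (by positivity) (by positivity), Real.log_pow] at h2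
    push_cast at h2
    exact h2
  have hnL : Real.log n ≤ L := by
    apply Real.log_le_log hnpos'
    have : n ≤ d := by
      refine le_trans ?_ hdu
      calc n = 1 * n := by ring
        _ ≤ (16 * Λ * u ^ 3 * n) * n := Nat.mul_le_mul_right _ (by
            have : 0 < 16 * Λ * u ^ 3 * n := by positivity
            omega)
        _ = 16 * Λ * u ^ 3 * n ^ 2 := by ring
    exact_mod_cast this
  obtain ⟨he1, he2⟩ := l4_err u hu hnL
  have hLpos : 0 < L := Real.log_pos (by exact_mod_cast hd2)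
  -- `u log Λ`
  have hΛL : (Λ : ℝ) ≤ 4 * L := by
    have h1 : (Nat.log 2 d : ℝ) * Real.log 2 ≤ L := by
      rw [← Real.log_pow]
      apply Real.log_le_log (by positivity)
      have := Nat.pow_log_le_self 2 (show d ≠ 0 by omega)
      exact_mod_cast this
    have h2 : Real.log 2 ≤ L := Real.log_le_log (by norm_num) (by exact_mod_cast hd2)
    have h3 := Real.log_two_gt_d9
    have h4 : (0:ℝ) ≤ Nat.log 2 d := by positivity
    rw [hΛ]; push_cast
    nlinarith
  have he3 : (u : ℝ) * Real.log Λ ≤ 2 * (u * Real.log (u + 1)) + 4 * L := by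
    have h1 : (Λ : ℝ) ≤ ((u : ℝ) + 1) ^ 2 * (1 + Λ / ((u : ℝ) + 1) ^ 2) := by
      have : ((u : ℝ) + 1) ^ 2 * (1 + Λ / ((u : ℝ) + 1) ^ 2) = ((u : ℝ) + 1) ^ 2 + Λ := by
        field_simp
      rw [this]; nlinarith
    have h2 := Real.log_le_log hΛpos h1
    rw [Real.log_mul (by positivity) (by positivity), Real.log_pow] at h2
    have h3 : Real.log (1 + Λ / ((u : ℝ) + 1) ^ 2) ≤ Λ / ((u : ℝ) + 1) ^ 2 := by
      have := Real.log_le_sub_one_of_pos (show 0 < 1 + (Λ : ℝ) / ((u : ℝ) + 1) ^ 2 by positivity)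
      linarith
    have h4 : (u : ℝ) * (Λ / ((u : ℝ) + 1) ^ 2) ≤ Λ := by
      rw [mul_div_assoc', div_le_iff₀ (by positivity)]
      nlinarith [mul_pos hΛpos hupos, mul_pos hΛpos (mul_pos hupos hupos)]
    push_cast at h2
    have h5 : (u : ℝ) * Real.log Λ ≤ u * (2 * Real.log (u + 1) + Λ / ((u : ℝ) + 1) ^ 2) :=
      mul_le_mul_of_nonneg_left (by linarith) hupos.le
    nlinarith
  have he4 : (u : ℝ) * Real.log u ≤ u * Real.log (u + 1) := by
    apply mul_le_mul_of_nonneg_left _ hupos.le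
    exact Real.log_le_log hupos (by linarith)
  have he5 : (u : ℝ) * Real.log 4 ≤ 4 * L := by
    have : Real.log 4 ≤ 2 := by
      have h1 : (4:ℝ) = 2 ^ 2 := by norm_num
      rw [h1, Real.log_pow]
      have := Real.log_two_lt_d9
      push_cast; linarith
    have h2 : 0 ≤ Real.log 4 := Real.log_nonneg (by norm_num)
    nlinarith
  have hfin : (u : ℝ) * Real.log κ ≤ Real.log m := by
    have h1 : ((κ : ℝ)) ^ u ≤ (m' : ℝ) := by exact_mod_cast hpm
    have h2 : (m' : ℝ) ≤ m := by exact_mod_cast hmm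
    have h3 := Real.log_le_log (by positivity) (h1.trans h2)
    rwa [Real.log_pow] at h3
  have hmain := mul_le_mul_of_nonneg_left hlogκ hupos.le
  nlinarith

end Pool.Agent.TPer
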