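import Pool.Agent.TPer.Eqd
import Pool.Agent.CMT.Sec
import Pool.Agent.CMT.T1

/-! Level facts and the two types of the key lemma.
* `lev_or`, `lev_not_both`: `CMT.root_or`, `CMT.not_both`.
* `lev_dvd`: T1 count: `q^(#levels of A)` divides `|A|` (`CMT.t1_pow_dvd`), same for `T`,
  `|A||T| = M` (`CMT.til_card`) and every level `j` with `q^(j+1) ∣ M` is a level of `A` or of `T`.
* `typeA`, `typeB`: `CMT.dich` with the section `y ↦ y + s(y) p^k`; the wrong alternative makes all
  sections of the other set of equal size, so it would have the level too (`CMT.lift_one`), against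
  `lev_not_both`.
* `lev_cut_A`: by `lev_dvd`, `lev_or`, `lev_not_both` for both tilings. -/

namespace Pool.Agent.TPer

open Finset Pool.Agent.CMT

theorem lev_or {M : ℕ} {A T : Finset ℕ} (h : Til M A T) {q j : ℕ} (hq : q.Prime)
    (hM : q ^ (j + 1) ∣ M) : Lev A q j ∨ Lev T q j :=
  root_or h hM (Nat.one_lt_pow (by omega) hq.one_lt).ne'

theorem lev_not_both {M : ℕ} {A T : Finset ℕ} (h : Til M A T) {q j : ℕ} (hq : q.Prime)
    (hM : q ^ (j + 1) ∣ M) (hA : Lev A q j) : ¬ Lev T q j := fun hT =>
  not_both h (hq.isPrimePow.pow (by omega)) hM hA hT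

private theorem cards {M : ℕ} {A T : Finset ℕ} (h : Til M A T) {q : ℕ} (hq : q.Prime)
    (JA JT : Finset ℕ) (hA : ∀ j ∈ JA, Lev A q j) (hT : ∀ j ∈ JT, Lev T q j) :
    JA.card ≤ A.card.factorization q ∧ JT.card ≤ T.card.factorization q ∧
      A.card.factorization q + T.card.factorization q = M.factorization q := by
  have hc := til_card h
  have hM := h.1
  have hA0 : A.card ≠ 0 := by
    rintro h0
    rw [h0, zero_mul] at hc
    omega
  have hT0 : T.card ≠ 0 := by
    rintro h0
    rw [h0, mul_zero] at hc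
    omega
  refine ⟨?_, ?_, ?_⟩
  · exact (hq.pow_dvd_iff_le_factorization hA0).1 (t1_pow_dvd hq A JA hA)
  · exact (hq.pow_dvd_iff_le_factorization hT0).1 (t1_pow_dvd hq T JT hT)
  · rw [← hc, Nat.factorization_mul hA0 hT0]
    rfl

private theorem cover {M : ℕ} {A T : Finset ℕ} (h : Til M A T) {q : ℕ} (hq : q.Prime)
    (i : ℕ) (hi : i < M.factorization q) : Lev A q i ∨ Lev T q i := by
  apply lev_or h hq
  exact (hq.pow_dvd_iff_le_factorization h.1.ne').2 hi

theorem lev_dvd {M : ℕ} {A T : Finset ℕ} (h : Til M A T) {q j : ℕ} (hq : q.Prime)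
    (hA : Lev A q j) : q ^ (j + 1) ∣ M := by
  classical
  rw [hq.pow_dvd_iff_le_factorization h.1.ne']
  by_contra hlt
  push Not at hlt
  set v := M.factorization q with hv
  set JA : Finset ℕ := insert j ((range v).filter (fun i => Lev A q i)) with hJA
  set JT : Finset ℕ := (range v).filter (fun i => Lev T q i) with hJT
  have h1 := cards h hq JA JT (by
    intro i hi
    rw [hJA, mem_insert, mem_filter] at hi
    rcases hi with rfl | hi
    · exact hA
    · exact hi.2) (by
    intro i hi
    rw [hJT, mem_filter] at hi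
    exact hi.2)
  have h2 : JA.card = ((range v).filter (fun i => Lev A q i)).card + 1 := by
    rw [hJA, card_insert_of_notMem]
    rw [mem_filter, mem_range]
    omega
  have h3 : v ≤ ((range v).filter (fun i => Lev A q i)).card + JT.card := by
    calc v = (range v).card := (card_range v).symm
      _ ≤ (((range v).filter (fun i => Lev A q i)) ∪ JT).card := by
          apply card_le_card
          intro i hi
          rw [mem_union, mem_filter, hJT, mem_filter]
          rcases cover h hq i (mem_range.1 hi) with h4 | h4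
          · exact Or.inl ⟨hi, h4⟩
          · exact Or.inr ⟨hi, h4⟩
      _ ≤ _ := card_union_le _ _
  omega

private theorem sec_eq_cut {p k : ℕ} (hp : p.Prime) (A : Finset ℕ) (s : ℕ → ℕ)
    (hs : ∀ x, s x < p) :
    sec p k (fun y => ((y.val + s y.val * p ^ k : ℕ) : ZMod (p ^ (k + 1)))) A = cut p k s A := by
  unfold sec cut dig
  refine filter_congr fun a _ => ?_
  have hpk : 0 < p ^ k := pow_pos hp.pos k
  beta_reduce
  rw [ZMod.val_natCast, ZMod.natCast_eq_natCast_iff, Nat.ModEq]
  set x := a % p ^ k with hx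
  have hxlt : x < p ^ k := Nat.mod_lt _ hpk
  have h1 : x + s x * p ^ k < p ^ (k + 1) := by
    have h2 : s x + 1 ≤ p := hs x
    calc x + s x * p ^ k < p ^ k + s x * p ^ k := by omega
      _ = (s x + 1) * p ^ k := by ring
      _ ≤ p * p ^ k := Nat.mul_le_mul_right _ h2
      _ = p ^ (k + 1) := by rw [pow_succ]; ring
  rw [Nat.mod_eq_of_lt h1, Nat.mod_pow_succ, ← hx]
  constructor
  · intro h
    have h3 : p ^ k * (a / p ^ k % p) = p ^ k * s x := by
      rw [mul_comm (s x)] at h
      omega
    exact Nat.eq_of_mul_eq_mul_left hpk h3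
  · intro h
    rw [h, mul_comm]

theorem typeA {p k n : ℕ} (hp : p.Prime) (hn : n.Coprime p) {A T : Finset ℕ}
    (h : Til (p ^ (k + 1) * n) A T) (hL : Lev A p k) (s : ℕ → ℕ) (hs : ∀ x, s x < p) :
    Til (p ^ k * n) (cut p k s A) T := by
  have hpk : 0 < p ^ k := pow_pos hp.pos k
  have : NeZero (p ^ k) := ⟨hpk.ne'⟩
  rcases dich hp hn h with h1 | h1
  · rw [← sec_eq_cut hp A s hs]
    apply h1
    intro y
    rw [kap_nat, Nat.cast_add, Nat.cast_mul, ZMod.natCast_self, mul_zero, add_zero,
      ZMod.natCast_zmod_val]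
  · exfalso
    have hcA := til_card h
    have hA0 : 0 < A.card := by
      rcases Nat.eq_zero_or_pos A.card with h0 | h0
      · rw [h0, zero_mul] at hcA
        have := h.1
        omega
      · exact h0
    apply lev_not_both h hp (Dvd.intro _ rfl) hL
    apply lift_one hp T (p ^ k * n / A.card)
    intro σ hσ
    have h2 := til_card (h1 σ hσ)
    exact (Nat.div_eq_of_eq_mul_right hA0 h2.symm).symm

theorem typeB {p k n : ℕ} (hp : p.Prime) (hn : n.Coprime p) {A T : Finset ℕ}
    (h : Til (p ^ (k + 1) * n) A T) (hL : Lev T p k) (s : ℕ → ℕ) (hs : ∀ x, s x < p) :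
    Til (p ^ k * n) A (cut p k s T) :=
  (typeA hp hn h.symm hL s hs).symm

theorem lev_cut_A {p k n : ℕ} (hp : p.Prime) (hn : n.Coprime p) {A T : Finset ℕ}
    (h : Til (p ^ (k + 1) * n) A T) (hL : Lev A p k) (s : ℕ → ℕ) (hs : ∀ x, s x < p)
    {q j : ℕ} (hq : q.Prime) :
    Lev (cut p k s A) q j ↔ Lev A q j ∧ ¬ (q = p ∧ j = k) := by
  have h' := typeA hp hn h hL s hs
  have hpk : 0 < p ^ k := pow_pos hp.pos k
  have hMM : p ^ k * n ∣ p ^ (k + 1) * n := Nat.mul_dvd_mul_right (pow_dvd_pow p (Nat.le_succ k)) n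
  have hnp : ¬ p ∣ n := by
    intro hd
    have h3 : p ∣ 1 := by
      rw [← hn]
      exact Nat.dvd_gcd hd dvd_rfl
    exact hp.one_lt.ne' (Nat.dvd_one.1 h3)
  constructor
  · intro hl
    have h1 := lev_dvd h' hq hl
    refine ⟨?_, ?_⟩
    · rcases lev_or h hq (h1.trans hMM) with h2 | h2
      · exact h2
      · exact absurd h2 (lev_not_both h' hq h1 hl)
    · rintro ⟨rfl, rfl⟩
      rw [pow_succ] at h1
      exact hnp (Nat.dvd_of_mul_dvd_mul_left hpk h1)
  · rintro ⟨hl, hne⟩
    have h1 := lev_dvd h hq hl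
    have h2 : q ^ (j + 1) ∣ p ^ k * n := by
      by_cases hqp : q = p
      · subst hqp
        have hjk : j ≠ k := fun h3 => hne ⟨rfl, h3⟩
        have hj : j + 1 ≤ k + 1 := by
          by_contra hgt
          push Not at hgt
          have h4 : q ^ (k + 1) * q ∣ q ^ (k + 1) * n := by
            rw [← pow_succ]
            exact (pow_dvd_pow q (by omega)).trans h1
          exact hnp (Nat.dvd_of_mul_dvd_mul_left (pow_pos hq.pos _) h4)
        exact (pow_dvd_pow q (by omega)).trans (Dvd.intro _ rfl)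
      · have h3 : (q ^ (j + 1)).Coprime (p ^ (k + 1)) :=
          Nat.Coprime.pow _ _ ((Nat.coprime_primes hq hp).2 hqp)
        exact (h3.dvd_of_dvd_mul_left h1).trans (Dvd.intro_left _ rfl)
    rcases lev_or h' hq h2 with h5 | h5
    · exact h5
    · exact absurd h5 (lev_not_both h hq h1 hl)

theorem lev_cut_B {p k n : ℕ} (hp : p.Prime) (hn : n.Coprime p) {A T : Finset ℕ}
    (h : Til (p ^ (k + 1) * n) A T) (hL : Lev T p k) (s : ℕ → ℕ) (hs : ∀ x, s x < p)
    {q j : ℕ} (hq : q.Prime) :
    Lev (cut p k s T) q j ↔ Lev T q j ∧ ¬ (q = p ∧ j = k) :=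
  lev_cut_A hp hn h.symm hL s hs hq

/-- The number of elements: `|A| = ∏ q^(number of levels of A at q)`. -/
theorem card_levels {M : ℕ} {A T : Finset ℕ} (h : Til M A T) {q : ℕ} (hq : q.Prime)
    (J : Finset ℕ) (hJ : ∀ j, j ∈ J ↔ Lev A q j) : A.card.factorization q = J.card := by
  classical
  set v := M.factorization q with hv
  set JT : Finset ℕ := (range v).filter (fun i => Lev T q i) with hJT
  have h1 := cards h hq J JT (fun i hi => (hJ i).1 hi) (by
    intro i hi
    rw [hJT, mem_filter] at hi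
    exact hi.2)
  have h3 : v ≤ J.card + JT.card := by
    calc v = (range v).card := (card_range v).symm
      _ ≤ (J ∪ JT).card := by
          apply card_le_card
          intro i hi
          rw [mem_union, hJT, mem_filter]
          rcases cover h hq i (mem_range.1 hi) with h4 | h4
          · exact Or.inl ((hJ i).2 h4)
          · exact Or.inr ⟨hi, h4⟩
      _ ≤ _ := card_union_le _ _
  omega

end Pool.Agent.TPer
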