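import Pool.Agent.TPer.Lvl
import Pool.Agent.CMT.Ind

/-! The primes of type (a): by `CMT.t2` the cyclotomic polynomial of `∏ p^(k p + 1)` divides the mask of
`A`, which has degree at most `d` (and is not zero), so `φ(∏ p^(k p + 1)) ≤ d`. -/

namespace Pool.Agent.TPer

open Finset Pool.Agent.CMT

private theorem pow_le_two_totient {p j : ℕ} (hp : p.Prime) :
    p ^ (j + 1) ≤ 2 * Nat.totient (p ^ (j + 1)) := by
  rw [Nat.totient_prime_pow_succ hp, pow_succ]
  have h2 := hp.two_le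
  have h : p ≤ 2 * (p - 1) := by omega
  calc p ^ j * p ≤ p ^ j * (2 * (p - 1)) := Nat.mul_le_mul_left _ h
    _ = 2 * (p ^ j * (p - 1)) := by ring

private theorem coprime_prod {P : Finset ℕ} (hP : ∀ q ∈ P, q.Prime) {p : ℕ} (hp : p.Prime)
    (hpP : p ∉ P) (k : ℕ → ℕ) : (p ^ (k p + 1)).Coprime (∏ q ∈ P, q ^ (k q + 1)) := by
  refine Nat.Coprime.prod_right fun q hq => ?_
  refine Nat.Coprime.pow _ _ ((Nat.coprime_primes hp (hP q hq)).2 ?_)
  rintro rfl
  exact hpP hq

private theorem prod_le_totient (P : Finset ℕ) (hP : ∀ p ∈ P, p.Prime) (k : ℕ → ℕ) :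
    ∏ p ∈ P, p ^ (k p + 1) ≤ 2 ^ P.card * Nat.totient (∏ p ∈ P, p ^ (k p + 1)) := by
  induction P using Finset.induction_on with
  | empty => simp
  | insert p P hpP ih =>
    have hp : p.Prime := hP p (mem_insert_self p P)
    have hP' : ∀ q ∈ P, q.Prime := fun q hq => hP q (mem_insert_of_mem hq)
    rw [prod_insert hpP, card_insert_of_notMem hpP, Nat.totient_mul (coprime_prod hP' hp hpP k)]
    calc p ^ (k p + 1) * ∏ q ∈ P, q ^ (k q + 1)
        ≤ (2 * Nat.totient (p ^ (k p + 1))) *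
            (2 ^ P.card * Nat.totient (∏ q ∈ P, q ^ (k q + 1))) :=
          Nat.mul_le_mul (pow_le_two_totient hp) (ih hP')
      _ = 2 ^ (P.card + 1) * (Nat.totient (p ^ (k p + 1)) *
            Nat.totient (∏ q ∈ P, q ^ (k q + 1))) := by
          rw [pow_succ]
          ring

private theorem mask_ne {A : Finset ℕ} (hA : A.Nonempty) : mask A ≠ 0 := by
  intro h0
  have h1 : (mask A).eval 1 = (A.card : ℤ) := by
    unfold mask
    rw [Polynomial.eval_finsetSum]
    simp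
  rw [h0, Polynomial.eval_zero] at h1
  have h2 : 0 < A.card := hA.card_pos
  omega

private theorem mask_deg {A : Finset ℕ} {d : ℕ} (hd : ∀ a ∈ A, a ≤ d) :
    (mask A).natDegree ≤ d := by
  unfold mask
  refine Polynomial.natDegree_sum_le_of_forall_le A _ fun a ha => ?_
  rw [Polynomial.natDegree_X_pow]
  exact hd a ha

theorem typeA_prod {M d : ℕ} {A T : Finset ℕ} (h : Til M A T) (hd : ∀ a ∈ A, a ≤ d)
    (h1 : 1 ≤ d) (P : Finset ℕ) (hP : ∀ p ∈ P, p.Prime) (k : ℕ → ℕ)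
    (hk : ∀ p ∈ P, Lev A p (k p)) :
    ∏ p ∈ P, p ^ (k p + 1) ≤ 2 ^ P.card * d := by
  rcases P.eq_empty_or_nonempty with rfl | hne
  · simpa using h1
  have hA0 : 0 < A.card := by
    have h1 := til_card h
    refine Nat.pos_of_ne_zero fun h0 => ?_
    rw [h0, zero_mul] at h1
    exact h.1.ne' h1.symm
  have hinj : ∀ p ∈ P, ∀ q ∈ P, p ^ (k p + 1) = q ^ (k q + 1) → p = q := by
    intro p hp q hq he
    have h2 : p ∣ q ^ (k q + 1) := he ▸ dvd_pow_self p (Nat.succ_ne_zero _)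
    exact (Nat.prime_dvd_prime_iff_eq (hP p hp) (hP q hq)).1 ((hP p hp).dvd_of_dvd_pow h2)
  have hprod : ∏ s ∈ P.image (fun p => p ^ (k p + 1)), s = ∏ p ∈ P, p ^ (k p + 1) :=
    prod_image (g := fun p => p ^ (k p + 1)) (f := fun s => s) (fun p hp q hq he => hinj p hp q hq he)
  have hdvd : Polynomial.cyclotomic (∏ p ∈ P, p ^ (k p + 1)) ℤ ∣ mask A := by
    rw [← hprod]
    refine t2 h _ (hne.image _) ?_ ?_ ?_ ?_
    · intro s hs
      obtain ⟨p, hp, rfl⟩ := mem_image.1 hs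
      exact (hP p hp).isPrimePow.pow (Nat.succ_ne_zero _)
    · intro s hs
      obtain ⟨p, hp, rfl⟩ := mem_image.1 hs
      exact lev_dvd h (hP p hp) (hk p hp)
    · intro s hs
      obtain ⟨p, hp, rfl⟩ := mem_image.1 hs
      exact hk p hp
    · intro s hs r hr hsr
      obtain ⟨p, hp, rfl⟩ := mem_image.1 (mem_coe.1 hs)
      obtain ⟨q, hq, rfl⟩ := mem_image.1 (mem_coe.1 hr)
      refine Nat.Coprime.pow _ _ ((Nat.coprime_primes (hP p hp) (hP q hq)).2 ?_)
      rintro rfl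
      exact hsr rfl
  have hle : Nat.totient (∏ p ∈ P, p ^ (k p + 1)) ≤ d := by
    have h2 := Polynomial.natDegree_le_of_dvd hdvd (mask_ne (card_pos.1 hA0))
    rw [Polynomial.natDegree_cyclotomic] at h2
    exact h2.trans (mask_deg hd)
  exact (prod_le_totient P hP k).trans (Nat.mul_le_mul_left _ hle)

end Pool.Agent.TPer
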