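import Pool.Agent.TPer.Lvl

/-! Partial reduction and the window theorem. `red`: strong induction on `M / M'`: if `M' = M` both
windows are empty conditions (`lev_dvd`). Otherwise take a prime `q` with `v_q(M') < v_q(M) = k + 1`,
`M = q^(k+1) n`; if `Lev A q k` use `typeA` with `s q k`, else `Lev T q k` and `typeB` with `t q k`;
then the induction hypothesis for `(cut .., ..)` and `lev_cut_A`, `lev_cut_B` (the levels of the other
set do not change; `q^(k+1) ∤ M'`). `win_card`: `red` with `M' = 1`. -/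

namespace Pool.Agent.TPer

open Finset Pool.Agent.CMT

/-- all data of a partial reduction -/
private def RP (M' : ℕ) (s t : ℕ → ℕ → ℕ → ℕ) (A T : Finset ℕ) : Prop :=
  Til M' (win (fun q j => Lev A q j ∧ ¬ q ^ (j + 1) ∣ M') s A)
      (win (fun q j => Lev T q j ∧ ¬ q ^ (j + 1) ∣ M') t T) ∧
    (∀ q j, q.Prime → (Lev (win (fun q j => Lev A q j ∧ ¬ q ^ (j + 1) ∣ M') s A) q j ↔
      Lev A q j ∧ q ^ (j + 1) ∣ M')) ∧
    ∀ q j, q.Prime → (Lev (win (fun q j => Lev T q j ∧ ¬ q ^ (j + 1) ∣ M') t T) q j ↔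
      Lev T q j ∧ q ^ (j + 1) ∣ M')

private theorem RP_symm {M' : ℕ} {s t : ℕ → ℕ → ℕ → ℕ} {A T : Finset ℕ} (h : RP M' s t A T) :
    RP M' t s T A := ⟨h.1.symm, h.2.2, h.2.1⟩

private theorem rd_win_cut {q k : ℕ} (hq : q.Prime) (S : ℕ → ℕ → Prop) (s : ℕ → ℕ → ℕ → ℕ)
    (A : Finset ℕ) (hS : S q k) :
    win (fun r j => S r j ∧ ¬ (r = q ∧ j = k)) s (cut q k (s q k) A) = win S s A := by
  classical
  ext a
  unfold win cut
  rw [mem_filter, mem_filter, mem_filter]
  constructor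
  · rintro ⟨⟨h1, h2⟩, h3⟩
    refine ⟨h1, fun r j hr hS' => ?_⟩
    by_cases h : r = q ∧ j = k
    · obtain ⟨rfl, rfl⟩ := h
      exact h2
    · exact h3 r j hr ⟨hS', h⟩
  · rintro ⟨h1, h2⟩
    exact ⟨⟨h1, h2 q k hq hS⟩, fun r j hr h => h2 r j hr h.1⟩

private theorem rd_win_congr {S S' : ℕ → ℕ → Prop} (s : ℕ → ℕ → ℕ → ℕ) (A : Finset ℕ)
    (h : ∀ r j, r.Prime → (S r j ↔ S' r j)) : win S s A = win S' s A := by
  classical
  ext a
  unfold win
  rw [mem_filter, mem_filter]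
  refine and_congr_right fun _ => ?_
  exact ⟨fun h1 r j hr h2 => h1 r j hr ((h r j hr).2 h2),
    fun h1 r j hr h2 => h1 r j hr ((h r j hr).1 h2)⟩

private theorem rd_win_none {S : ℕ → ℕ → Prop} (s : ℕ → ℕ → ℕ → ℕ) (A : Finset ℕ)
    (h : ∀ r j, r.Prime → ¬ S r j) : win S s A = A := by
  classical
  ext a
  unfold win
  rw [mem_filter]
  exact ⟨fun h1 => h1.1, fun h1 => ⟨h1, fun r j hr h2 => absurd h2 (h r j hr)⟩⟩

private theorem rd_step {M' q k n : ℕ} {A T : Finset ℕ} {s t : ℕ → ℕ → ℕ → ℕ} (hs : Adm s)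
    (hq : q.Prime) (hn : n.Coprime q) (h : Til (q ^ (k + 1) * n) A T) (hL : Lev A q k)
    (hM' : ¬ q ^ (k + 1) ∣ M') (hr : RP M' s t (cut q k (s q k) A) T) : RP M' s t A T := by
  have hlev : ∀ r j, r.Prime → (Lev (cut q k (s q k) A) r j ↔ Lev A r j ∧ ¬ (r = q ∧ j = k)) :=
    fun r j hr => lev_cut_A hq hn h hL (s q k) (fun x => hs q k x hq) hr
  have hwin : win (fun r j => Lev (cut q k (s q k) A) r j ∧ ¬ r ^ (j + 1) ∣ M') s
      (cut q k (s q k) A) = win (fun r j => Lev A r j ∧ ¬ r ^ (j + 1) ∣ M') s A := by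
    rw [← rd_win_cut hq (fun r j => Lev A r j ∧ ¬ r ^ (j + 1) ∣ M') s A ⟨hL, hM'⟩]
    refine rd_win_congr s _ fun r j hr => ?_
    rw [hlev r j hr]
    constructor
    · rintro ⟨⟨h1, h2⟩, h3⟩
      exact ⟨⟨h1, h3⟩, h2⟩
    · rintro ⟨⟨h1, h3⟩, h2⟩
      exact ⟨⟨h1, h2⟩, h3⟩
  unfold RP at hr
  rw [hwin] at hr
  refine ⟨hr.1, fun r j hrp => ?_, hr.2.2⟩
  rw [hr.2.1 r j hrp, hlev r j hrp]
  constructor
  · rintro ⟨⟨h1, _⟩, h2⟩
    exact ⟨h1, h2⟩
  · rintro ⟨h1, h2⟩
    refine ⟨⟨h1, ?_⟩, h2⟩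
    rintro ⟨rfl, rfl⟩
    exact hM' h2

private theorem rd_all (M' : ℕ) : ∀ (M : ℕ) (A T : Finset ℕ) (s t : ℕ → ℕ → ℕ → ℕ), Adm s →
    Adm t → Til M A T → M' ∣ M → RP M' s t A T := by
  intro M
  induction M using Nat.strong_induction_on with
  | _ M ih =>
    intro A T s t hs ht h hM'
    by_cases hMM : M' = M
    · subst hMM
      have e1 := rd_win_none (S := fun q j => Lev A q j ∧ ¬ q ^ (j + 1) ∣ M') s A
        (fun r j hr hh => hh.2 (lev_dvd h hr hh.1))
      have e2 := rd_win_none (S := fun q j => Lev T q j ∧ ¬ q ^ (j + 1) ∣ M') t T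
        (fun r j hr hh => hh.2 (lev_dvd h.symm hr hh.1))
      unfold RP
      rw [e1, e2]
      exact ⟨h, fun q j hq => ⟨fun hl => ⟨hl, lev_dvd h hq hl⟩, fun hl => hl.1⟩,
        fun q j hq => ⟨fun hl => ⟨hl, lev_dvd h.symm hq hl⟩, fun hl => hl.1⟩⟩
    · have hM0 : M ≠ 0 := h.1.ne'
      obtain ⟨c, hc⟩ := hM'
      have hM'0 : M' ≠ 0 := by
        rintro rfl
        rw [zero_mul] at hc
        exact hM0 hc
      have hc1 : c ≠ 1 := by
        rintro rfl
        rw [mul_one] at hc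
        exact hMM hc.symm
      have hc0 : c ≠ 0 := by
        rintro rfl
        rw [mul_zero] at hc
        exact hM0 hc
      obtain ⟨q, hq, hqc⟩ := Nat.exists_prime_and_dvd hc1
      -- the exact power of `q`
      obtain ⟨e, n, hqn, hMe⟩ := Nat.exists_eq_pow_mul_and_not_dvd hM0 q hq.one_lt.ne'
      have hqM : q ∣ M := by
        rw [hc]
        exact hqc.trans (Dvd.intro_left _ rfl)
      have he : e ≠ 0 := by
        rintro rfl
        rw [pow_zero, one_mul] at hMe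
        rw [hMe] at hqM
        exact hqn hqM
      obtain ⟨k, rfl⟩ : ∃ k, e = k + 1 := ⟨e - 1, by omega⟩
      have hn : n.Coprime q := ((Nat.Prime.coprime_iff_not_dvd hq).2 hqn).symm
      have hn0 : 0 < n := by
        rcases Nat.eq_zero_or_pos n with h0 | h0
        · rw [h0, mul_zero] at hMe
          exact absurd hMe hM0
        · exact h0
      have hqk : 0 < q ^ k := pow_pos hq.pos k
      -- `M'` divides `q ^ k * n`
      have hnd : ¬ q ^ (k + 1) ∣ M' := by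
        intro hd
        have h1 : q ^ (k + 1) * q ∣ q ^ (k + 1) * n := by
          rw [← hMe, hc]
          exact Nat.mul_dvd_mul hd hqc
        exact hqn (Nat.dvd_of_mul_dvd_mul_left (pow_pos hq.pos _) h1)
      have hd1 : M' ∣ q ^ k * n := by
        obtain ⟨c', rfl⟩ := hqc
        refine ⟨c', ?_⟩
        have h1 : q * (q ^ k * n) = q * (M' * c') := by
          calc q * (q ^ k * n) = q ^ (k + 1) * n := by ring
            _ = M' * (q * c') := by rw [← hMe, hc]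
            _ = q * (M' * c') := by ring
        exact Nat.eq_of_mul_eq_mul_left hq.pos h1
      have hlt : q ^ k * n < M := by
        rw [hMe, pow_succ]
        have h2 : 1 < q := hq.one_lt
        have h3 : 0 < q ^ k * n := Nat.mul_pos hqk hn0
        calc q ^ k * n < q ^ k * n * q := lt_mul_of_one_lt_right h3 h2
          _ = q ^ k * q * n := by ring
      rw [hMe] at h
      rcases lev_or h hq (Dvd.intro _ rfl) with hL | hL
      · exact rd_step hs hq hn h hL hnd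
          (ih _ hlt _ _ s t hs ht (typeA hq hn h hL (s q k) fun x => hs q k x hq) hd1)
      · refine RP_symm (rd_step ht hq hn h.symm hL hnd ?_)
        exact ih _ hlt _ _ t s ht hs (typeA hq hn h.symm hL (t q k) fun x => ht q k x hq) hd1

theorem red {M M' : ℕ} {A T : Finset ℕ} (h : Til M A T) (hM' : M' ∣ M)
    (s t : ℕ → ℕ → ℕ → ℕ) (hs : Adm s) (ht : Adm t) :
    Til M' (win (fun q j => Lev A q j ∧ ¬ q ^ (j + 1) ∣ M') s A)
      (win (fun q j => Lev T q j ∧ ¬ q ^ (j + 1) ∣ M') t T) :=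
  (rd_all M' M A T s t hs ht h hM').1

private theorem adm_zero : Adm (fun _ _ _ => 0) := fun _ _ _ hq => hq.pos

theorem win_card {M : ℕ} {A T : Finset ℕ} (h : Til M A T) (s : ℕ → ℕ → ℕ → ℕ) (hs : Adm s) :
    (win (Lev A) s A).card = 1 := by
  have h1 := til_card (red h (one_dvd M) s _ hs adm_zero)
  have h2 := Nat.eq_one_of_mul_eq_one_right h1
  have e : win (fun q j => Lev A q j ∧ ¬ q ^ (j + 1) ∣ 1) s A = win (Lev A) s A := by
    refine rd_win_congr s A fun r j hr => ⟨fun hh => hh.1, fun hh => ⟨hh, fun hd => ?_⟩⟩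
    have h3 := Nat.dvd_one.1 hd
    exact (Nat.one_lt_pow (by omega) hr.one_lt).ne' h3
  rw [e] at h2
  exact h2

/-- Levels survive a reduction which keeps them. -/
theorem lev_red {M M' : ℕ} {A T : Finset ℕ} (h : Til M A T) (hM' : M' ∣ M)
    (s : ℕ → ℕ → ℕ → ℕ) (hs : Adm s) {q j : ℕ} (hq : q.Prime) :
    Lev (win (fun q j => Lev A q j ∧ ¬ q ^ (j + 1) ∣ M') s A) q j ↔
      Lev A q j ∧ q ^ (j + 1) ∣ M' :=
  (rd_all M' M A T s _ hs adm_zero h hM').2.1 q j hq

private theorem rd_inj {M : ℕ} {A T : Finset ℕ} (h : Til M A T) {b b' : ℕ} (hb : b ∈ T)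
    (hb' : b' ∈ T) (hbb : b ≡ b' [MOD M]) : b = b' := by
  have hc := til_card h
  have hA : 0 < A.card := by
    rcases Nat.eq_zero_or_pos A.card with h0 | h0
    · rw [h0, zero_mul] at hc
      have := h.1
      omega
    · exact h0
  obtain ⟨a, ha⟩ := card_pos.1 hA
  have h1 := h.2 ((a + b : ℕ) : ZMod M)
  have h2 := card_le_one.1 h1.le (a, b) (by
    rw [mem_filter, mem_product]
    exact ⟨⟨ha, hb⟩, rfl⟩) (a, b') (by
    rw [mem_filter, mem_product]
    refine ⟨⟨ha, hb'⟩, ?_⟩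
    have h3 : ((b : ℕ) : ZMod M) = ((b' : ℕ) : ZMod M) := (ZMod.natCast_eq_natCast_iff _ _ _).2 hbb
    push_cast
    rw [h3])
  exact (Prod.mk.inj h2).2

/-- reduction to `M'` which keeps `T` -/
private theorem rd_keep {M M' : ℕ} {A T : Finset ℕ} (h : Til M A T) (hM' : M' ∣ M)
    (hT : ∀ q j, q.Prime → Lev T q j → q ^ (j + 1) ∣ M') {b b' : ℕ} (hb : b ∈ T) (hb' : b' ∈ T)
    (hbb : b ≡ b' [MOD M']) : b = b' := by
  have h1 := red h hM' _ _ adm_zero adm_zero
  rw [rd_win_none (S := fun q j => Lev T q j ∧ ¬ q ^ (j + 1) ∣ M') _ T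
    (fun r j hr hh => hh.2 (hT r j hr hh.1))] at h1
  exact rd_inj h1 hb hb' hbb

private theorem rd_fac {M r k : ℕ} (hM : M ≠ 0) (h1 : r.Prime) (hM1 : r ^ (k + 1) ∣ M)
    (hM1' : ¬ r ^ (k + 2) ∣ M) : M.factorization r = k + 1 := by
  rw [h1.pow_dvd_iff_le_factorization hM] at hM1 hM1'
  omega

/-- `T` injects modulo `M / (r1 r2)` if the top levels at `r1`, `r2` are levels of `A`. -/
theorem inj_two {M r1 r2 k1 k2 : ℕ} {A T : Finset ℕ} (h : Til M A T) (h1 : r1.Prime)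
    (h2 : r2.Prime) (h12 : r1 ≠ r2) (hM1 : r1 ^ (k1 + 1) ∣ M) (hM1' : ¬ r1 ^ (k1 + 2) ∣ M)
    (hM2 : r2 ^ (k2 + 1) ∣ M) (hM2' : ¬ r2 ^ (k2 + 2) ∣ M) (hA1 : Lev A r1 k1)
    (hA2 : Lev A r2 k2) {b b' : ℕ} (hb : b ∈ T) (hb' : b' ∈ T)
    (hbb : b ≡ b' [MOD M / (r1 * r2)]) : b = b' := by
  have hM0 : M ≠ 0 := h.1.ne'
  have hr1 : r1 ∣ M := (dvd_pow_self r1 (by omega)).trans hM1
  have hr2 : r2 ∣ M := (dvd_pow_self r2 (by omega)).trans hM2
  have hr : r1 * r2 ∣ M := Nat.Coprime.mul_dvd_of_dvd_of_dvd ((Nat.coprime_primes h1 h2).2 h12) hr1 hr2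
  obtain ⟨M', hM'⟩ := hr
  have hpos : 0 < r1 * r2 := Nat.mul_pos h1.pos h2.pos
  have hdiv : M / (r1 * r2) = M' := by
    rw [hM']
    exact Nat.mul_div_cancel_left _ hpos
  rw [hdiv] at hbb
  have hM'0 : M' ≠ 0 := by
    rintro rfl
    rw [mul_zero] at hM'
    exact hM0 hM'
  have hf1 := rd_fac hM0 h1 hM1 hM1'
  have hf2 := rd_fac hM0 h2 hM2 hM2'
  refine rd_keep h ⟨r1 * r2, by rw [hM', mul_comm]⟩ (fun q j hq hl => ?_) hb hb' hbb
  have hqM := lev_dvd h.symm hq hl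
  rw [hq.pow_dvd_iff_le_factorization hM0] at hqM
  rw [hq.pow_dvd_iff_le_factorization hM'0]
  have hfac : M.factorization q = (r1.factorization q + r2.factorization q) + M'.factorization q := by
    rw [hM', Nat.factorization_mul hpos.ne' hM'0, Nat.factorization_mul h1.ne_zero h2.ne_zero]
    rfl
  by_cases hq1 : q = r1
  · subst hq1
    rw [h1.factorization_self, h2.factorization, Finsupp.single_eq_of_ne h12] at hfac
    have hj : j ≠ k1 := by
      rintro rfl
      exact lev_not_both h h1 hM1 hA1 hl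
    omega
  · by_cases hq2 : q = r2
    · subst hq2
      rw [h2.factorization_self, h1.factorization, Finsupp.single_eq_of_ne h12.symm] at hfac
      have hj : j ≠ k2 := by
        rintro rfl
        exact lev_not_both h h2 hM2 hA2 hl
      omega
    · rw [h1.factorization, h2.factorization, Finsupp.single_eq_of_ne hq1,
        Finsupp.single_eq_of_ne hq2] at hfac
      omega

/-- `T` injects modulo `M / r` if the top level at `r` is a level of `A`. -/
theorem inj_one {M r k : ℕ} {A T : Finset ℕ} (h : Til M A T) (h1 : r.Prime)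
    (hM1 : r ^ (k + 1) ∣ M) (hM1' : ¬ r ^ (k + 2) ∣ M) (hA1 : Lev A r k)
    {b b' : ℕ} (hb : b ∈ T) (hb' : b' ∈ T) (hbb : b ≡ b' [MOD M / r]) : b = b' := by
  have hM0 : M ≠ 0 := h.1.ne'
  obtain ⟨M', hM'⟩ : r ∣ M := (dvd_pow_self r (by omega)).trans hM1
  have hdiv : M / r = M' := by
    rw [hM']
    exact Nat.mul_div_cancel_left _ h1.pos
  rw [hdiv] at hbb
  have hM'0 : M' ≠ 0 := by
    rintro rfl
    rw [mul_zero] at hM'
    exact hM0 hM'
  have hf1 := rd_fac hM0 h1 hM1 hM1'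
  refine rd_keep h ⟨r, by rw [hM', mul_comm]⟩ (fun q j hq hl => ?_) hb hb' hbb
  have hqM := lev_dvd h.symm hq hl
  rw [hq.pow_dvd_iff_le_factorization hM0] at hqM
  rw [hq.pow_dvd_iff_le_factorization hM'0]
  have hfac : M.factorization q = r.factorization q + M'.factorization q := by
    rw [hM', Nat.factorization_mul h1.ne_zero hM'0]
    rfl
  by_cases hq1 : q = r
  · subst hq1
    rw [h1.factorization_self] at hfac
    have hj : j ≠ k := by
      rintro rfl
      exact lev_not_both h h1 hM1 hA1 hl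
    omega
  · rw [h1.factorization, Finsupp.single_eq_of_ne hq1] at hfac
    omega

end Pool.Agent.TPer
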