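import Pool.Agent.TPer.Cnt
import Pool.Agent.TPer.Ma

/-! The upper bound for tilings of `Z_M` (note 2688 (5), (7)): `n = |A|`, `w` the number of primes of `n`.
`M = ∏_{p ∣ M} p^(k_p + 1)`; the primes with `Lev A p k_p` contribute at most `2^w d` (`typeA_prod`; they
divide `n`); every other prime `p ∣ M` has `Lev T p k_p`, choose `g(p)` by `exists_cst` (`g(p) ∣ n`); for a
value `g` let `K_g = ∏ p^(k_p + 1)` over the `p` with `g(p) = g`: `Cst A g l K_g` (`l` the top level),
`cnt`: `K_g n ≤ 2 (w+1) d n_g`, `∏ n_g ≤ n`. -/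

namespace Pool.Agent.TPer

open Finset Pool.Agent.CMT

/-- a prime with a level divides the number of elements -/
private lemma upper_dvd {A : Finset ℕ} {q j : ℕ} (hq : q.Prime) (hA : Lev A q j) : q ∣ A.card := by
  have := t1_pow_dvd hq A {j} (by
    intro i hi
    rw [Finset.mem_singleton] at hi
    rw [hi]
    exact hA)
  simpa using this

/-- congruence modulo a product of powers of different primes -/
private lemma upper_modEq (S : Finset ℕ) (hS : ∀ p ∈ S, p.Prime) (e : ℕ → ℕ) {a b : ℕ}
    (h : ∀ p ∈ S, a ≡ b [MOD p ^ e p]) : a ≡ b [MOD ∏ p ∈ S, p ^ e p] := by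
  classical
  induction S using Finset.induction_on with
  | empty => simpa using Nat.modEq_one
  | insert p S hp ih =>
    rw [Finset.prod_insert hp]
    have h1 : a ≡ b [MOD ∏ p ∈ S, p ^ e p] :=
      ih (fun q hq => hS q (Finset.mem_insert_of_mem hq)) (fun q hq => h q (Finset.mem_insert_of_mem hq))
    have h2 : a ≡ b [MOD p ^ e p] := h p (Finset.mem_insert_self _ _)
    have hc : Nat.Coprime (p ^ e p) (∏ p ∈ S, p ^ e p) := by
      apply Nat.Coprime.prod_right
      intro q hq
      apply Nat.Coprime.pow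
      rw [Nat.coprime_primes (hS p (Finset.mem_insert_self _ _)) (hS q (Finset.mem_insert_of_mem hq))]
      rintro rfl
      exact hp hq
    exact (Nat.modEq_and_modEq_iff_modEq_mul hc).mp ⟨h2, h1⟩

theorem upper {M d : ℕ} {A T : Finset ℕ} (h : Til M A T) (hd : ∀ a ∈ A, a ≤ d) (h1 : 1 ≤ d)
    (hn : A.card ≤ 2 * d) (hNP : ∀ p, p.Prime → p ∣ M → NP T M p) :
    Real.log M ≤ A.card.primeFactors.card * Real.log 2 + Real.log d + Real.log A.card +
      A.card.primeFactors.card *
        (Real.log 2 + Real.log (A.card.primeFactors.card + 1) + Real.log d - Real.log A.card) := by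
  classical
  have hM0 : M ≠ 0 := h.1.ne'
  set n : ℕ := A.card with hnA
  have hcard : n * T.card = M := til_card h
  have hn0 : n ≠ 0 := by
    intro h0
    rw [h0] at hcard
    exact hM0 (by rw [← hcard]; simp)
  set w : ℕ := n.primeFactors.card with hw
  set k : ℕ → ℕ := fun p => M.factorization p - 1 with hk
  have hk1 : ∀ p, p.Prime → p ∣ M → k p + 1 = M.factorization p := by
    intro p hp hpM
    have := hp.factorization_pos_of_dvd hM0 hpM
    simp only [hk]; omega
  have hkM : ∀ p, p.Prime → p ∣ M → p ^ (k p + 1) ∣ M := by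
    intro p hp hpM
    rw [hk1 p hp hpM]
    exact Nat.ordProj_dvd M p
  set Pa : Finset ℕ := M.primeFactors.filter (fun p => Lev A p (k p)) with hPa
  set Pb : Finset ℕ := M.primeFactors.filter (fun p => ¬ Lev A p (k p)) with hPb
  have hPap : ∀ p ∈ Pa, p.Prime ∧ p ∣ M ∧ Lev A p (k p) := by
    intro p hp
    rw [hPa, Finset.mem_filter, Nat.mem_primeFactors] at hp
    exact ⟨hp.1.1, hp.1.2.1, hp.2⟩
  have hPbp : ∀ p ∈ Pb, p.Prime ∧ p ∣ M ∧ ¬ Lev A p (k p) := by
    intro p hp
    rw [hPb, Finset.mem_filter, Nat.mem_primeFactors] at hp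
    exact ⟨hp.1.1, hp.1.2.1, hp.2⟩
  -- type (a)
  have hA1 := typeA_prod h hd h1 Pa (fun p hp => (hPap p hp).1) k (fun p hp => (hPap p hp).2.2)
  have hPaw : Pa.card ≤ w := by
    apply Finset.card_le_card
    intro p hp
    rw [Nat.mem_primeFactors]
    exact ⟨(hPap p hp).1, upper_dvd (hPap p hp).1 (hPap p hp).2.2, hn0⟩
  have hd0 : (0 : ℝ) < d := by exact_mod_cast h1
  have hnR : (0 : ℝ) < n := by exact_mod_cast Nat.pos_of_ne_zero hn0
  have hlog2 : 0 ≤ Real.log 2 := Real.log_nonneg (by norm_num)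
  have hla : ∑ p ∈ Pa, ((k p + 1 : ℕ) : ℝ) * Real.log p ≤ w * Real.log 2 + Real.log d := by
    have e : Real.log ((∏ p ∈ Pa, p ^ (k p + 1) : ℕ) : ℝ) = ∑ p ∈ Pa, ((k p + 1 : ℕ) : ℝ) * Real.log p := by
      rw [Nat.cast_prod, Real.log_prod]
      · apply Finset.sum_congr rfl
        intro p hp
        rw [Nat.cast_pow, Real.log_pow]
      · intro p hp
        have := (hPap p hp).1.pos
        positivity
    have hpos : 0 < ∏ p ∈ Pa, p ^ (k p + 1) := Finset.prod_pos (fun p hp => pow_pos (hPap p hp).1.pos _)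
    calc ∑ p ∈ Pa, ((k p + 1 : ℕ) : ℝ) * Real.log p = Real.log ((∏ p ∈ Pa, p ^ (k p + 1) : ℕ) : ℝ) := e.symm
      _ ≤ Real.log ((2 ^ Pa.card * d : ℕ) : ℝ) := by
          apply Real.log_le_log (by exact_mod_cast hpos) (by exact_mod_cast hA1)
      _ = Pa.card * Real.log 2 + Real.log d := by
          push_cast
          rw [Real.log_mul (by positivity) (by positivity), Real.log_pow]
      _ ≤ w * Real.log 2 + Real.log d := by gcongr
  -- type (b)
  have hex : ∀ p ∈ Pb, ∃ g l, g.Prime ∧ g ≠ p ∧ Lev A g l ∧ (∀ j, Lev A g j → j ≤ l) ∧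
      Cst A g l (p ^ (k p + 1)) := by
    intro p hp
    obtain ⟨hpp, hpM, hpA⟩ := hPbp p hp
    have hT : Lev T p (k p) := by
      rcases lev_or h hpp (hkM p hpp hpM) with h' | h'
      · exact absurd h' hpA
      · exact h'
    have hMe : p ^ (k p + 1) * (M / p ^ (k p + 1)) = M := Nat.mul_div_cancel' (hkM p hpp hpM)
    have hcop : (M / p ^ (k p + 1)).Coprime p := by
      rw [hk1 p hpp hpM]
      exact (Nat.coprime_ordCompl hpp hM0).symm
    have h' : Til (p ^ (k p + 1) * (M / p ^ (k p + 1))) A T := by rw [hMe]; exact h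
    have hN : NP T (p ^ (k p + 1) * (M / p ^ (k p + 1))) p := by rw [hMe]; exact hNP p hpp hpM
    exact exists_cst hpp hcop h' hT hN
  choose! G L hG using hex
  set Gs : Finset ℕ := Pb.image G with hGs
  set K : ℕ → ℕ := fun g => ∏ p ∈ Pb.filter (fun p => G p = g), p ^ (k p + 1) with hK
  set N : ℕ → ℕ := fun g => ∏ q ∈ n.primeFactors.filter (fun q => q ∣ K g), q ^ (n.factorization q) with hN
  have hKdvd : ∀ g q, q.Prime → q ∣ K g → q ∈ Pb ∧ G q = g := by
    intro g q hq hqK
    simp only [hK] at hqK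
    obtain ⟨p, hp, hqp⟩ := (Prime.dvd_finsetProd_iff hq.prime _).mp hqK
    rw [Finset.mem_filter] at hp
    have h2 : q ∣ p := hq.dvd_of_dvd_pow hqp
    have h3 : q = p := (Nat.prime_dvd_prime_iff_eq hq (hPbp p hp.1).1).mp h2
    rw [h3]; exact hp
  have hKpos : ∀ g, 0 < K g := by
    intro g
    exact Finset.prod_pos (fun p hp => pow_pos (hPbp p (Finset.mem_filter.mp hp).1).1.pos _)
  have hcnt : ∀ g ∈ Gs, K g * n ≤ 2 * (w + 1) * d * N g := by
    intro g hg
    rw [hGs, Finset.mem_image] at hg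
    obtain ⟨p0, hp0, hp0g⟩ := hg
    obtain ⟨hgp, _, hgl, hgmax, _⟩ := hG p0 hp0
    rw [hp0g] at hgp hgl hgmax
    -- the top level is the same for all p
    have hC : Cst A g (L p0) (K g) := by
      intro a ha a' ha' hcoll
      apply upper_modEq _ (fun p hp => (hPbp p (Finset.mem_filter.mp hp).1).1) (fun p => k p + 1)
      intro p hp
      rw [Finset.mem_filter] at hp
      obtain ⟨_, _, hl2, hmax2, hc2⟩ := hG p hp.1
      rw [hp.2] at hl2 hmax2 hc2
      have hLL : L p = L p0 := le_antisymm (hgmax _ hl2) (hmax2 _ hgl)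
      rw [hLL] at hc2
      exact hc2 a ha a' ha' hcoll
    have hgK : ¬ g ∣ K g := by
      intro hgK
      obtain ⟨hgPb, hGg⟩ := hKdvd g g hgp hgK
      exact (hG g hgPb).2.1 hGg
    have hKl : ∀ q j, q.Prime → q ∣ K g → Lev A q j → q ^ (j + 1) ∣ K g := by
      intro q j hq hqK hqA
      obtain ⟨hqPb, hGq⟩ := hKdvd g q hq hqK
      have hqM := lev_dvd h hq hqA
      have hle : j + 1 ≤ M.factorization q := (hq.pow_dvd_iff_le_factorization hM0).mp hqM
      rw [← hk1 q hq (hPbp q hqPb).2.1] at hle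
      refine (pow_dvd_pow q hle).trans ?_
      simp only [hK]
      exact Finset.dvd_prod_of_mem (fun p => p ^ (k p + 1)) (Finset.mem_filter.mpr ⟨hqPb, hGq⟩)
    exact cnt h hgp hgl hgmax hC (hKpos g) hgK hKl hd
  have hlK : ∀ g, Real.log (K g) = ∑ p ∈ Pb.filter (fun p => G p = g), ((k p + 1 : ℕ) : ℝ) * Real.log p := by
    intro g
    simp only [hK]
    rw [Nat.cast_prod, Real.log_prod]
    · apply Finset.sum_congr rfl
      intro p hp
      rw [Nat.cast_pow, Real.log_pow]
    · intro p hp
      have := (hPbp p (Finset.mem_filter.mp hp).1).1.pos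
      positivity
  have hlN : ∀ g, Real.log (N g) = ∑ q ∈ n.primeFactors, if q ∣ K g then (n.factorization q : ℝ) * Real.log q else 0 := by
    intro g
    simp only [hN]
    rw [Nat.cast_prod, Real.log_prod, Finset.sum_filter]
    · apply Finset.sum_congr rfl
      intro p hp
      split_ifs with h'
      · rw [Nat.cast_pow, Real.log_pow]
      · rfl
    · intro p hp
      have := (Nat.prime_of_mem_primeFactors (Finset.mem_filter.mp hp).1).pos
      positivity
  have hNpos : ∀ g, 0 < N g := by
    intro g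
    exact Finset.prod_pos (fun p hp => pow_pos (Nat.prime_of_mem_primeFactors (Finset.mem_filter.mp hp).1).pos _)
  have hlog1 : ∀ g ∈ Gs, Real.log (K g) ≤ (Real.log 2 + Real.log (w + 1) + Real.log d - Real.log n) + Real.log (N g) := by
    intro g hg
    have h2 := hcnt g hg
    have h3 : Real.log ((K g * n : ℕ) : ℝ) ≤ Real.log ((2 * (w + 1) * d * N g : ℕ) : ℝ) := by
      apply Real.log_le_log
      · exact_mod_cast Nat.mul_pos (hKpos g) (Nat.pos_of_ne_zero hn0)
      · exact_mod_cast h2
    have hKR : (0 : ℝ) < K g := by exact_mod_cast hKpos g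
    have hNR : (0 : ℝ) < N g := by exact_mod_cast hNpos g
    push_cast at h3
    rw [Real.log_mul (by positivity) (by positivity), Real.log_mul (by positivity) (by positivity),
      Real.log_mul (by positivity) (by positivity), Real.log_mul (by positivity) (by positivity)] at h3
    linarith
  have hlogn : Real.log n = ∑ q ∈ n.primeFactors, (n.factorization q : ℝ) * Real.log q := by
    rw [Real.log_nat_eq_sum_factorization]; rfl
  have hlogM : Real.log M = ∑ q ∈ M.primeFactors, (M.factorization q : ℝ) * Real.log q := by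
    rw [Real.log_nat_eq_sum_factorization]; rfl
  have hsumN : ∑ g ∈ Gs, Real.log (N g) ≤ Real.log n := by
    rw [Finset.sum_congr rfl (fun g _ => hlN g), Finset.sum_comm, hlogn]
    apply Finset.sum_le_sum
    intro q hq
    have hqp := Nat.prime_of_mem_primeFactors hq
    have hnn : 0 ≤ (n.factorization q : ℝ) * Real.log q :=
      mul_nonneg (by positivity) (Real.log_nonneg (by exact_mod_cast hqp.one_lt.le))
    calc ∑ g ∈ Gs, (if q ∣ K g then (n.factorization q : ℝ) * Real.log q else 0)
        ≤ ∑ g ∈ Gs, (if g = G q then (n.factorization q : ℝ) * Real.log q else 0) := by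
          apply Finset.sum_le_sum
          intro g _
          by_cases hqK : q ∣ K g
          · have := (hKdvd g q hqp hqK).2
            rw [if_pos hqK, if_pos this.symm]
          · rw [if_neg hqK]
            split_ifs <;> simp [hnn]
      _ ≤ (n.factorization q : ℝ) * Real.log q := by
          rw [Finset.sum_ite_eq']
          split_ifs <;> simp [hnn]
  have hGsw : Gs.card ≤ w := by
    apply Finset.card_le_card
    intro g hg
    rw [hGs, Finset.mem_image] at hg
    obtain ⟨p, hp, rfl⟩ := hg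
    obtain ⟨hgp, _, hgl, _, _⟩ := hG p hp
    rw [Nat.mem_primeFactors]
    exact ⟨hgp, upper_dvd hgp hgl, hn0⟩
  have hnn2 : 0 ≤ Real.log 2 + Real.log (w + 1) + Real.log d - Real.log n := by
    have : Real.log n ≤ Real.log 2 + Real.log d := by
      rw [← Real.log_mul (by norm_num) (by positivity)]
      apply Real.log_le_log hnR
      exact_mod_cast hn
    have h2 : 0 ≤ Real.log ((w : ℝ) + 1) := Real.log_nonneg (by
      have : (0 : ℝ) ≤ w := Nat.cast_nonneg w
      linarith)
    linarith
  have hlb : ∑ p ∈ Pb, ((k p + 1 : ℕ) : ℝ) * Real.log p ≤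
      Real.log n + w * (Real.log 2 + Real.log (w + 1) + Real.log d - Real.log n) := by
    rw [← Finset.sum_fiberwise_of_maps_to (t := Gs) (g := G) (fun p hp => Finset.mem_image_of_mem G hp)]
    calc ∑ g ∈ Gs, ∑ p ∈ Pb.filter (fun p => G p = g), ((k p + 1 : ℕ) : ℝ) * Real.log p
        = ∑ g ∈ Gs, Real.log (K g) := Finset.sum_congr rfl (fun g _ => (hlK g).symm)
      _ ≤ ∑ g ∈ Gs, ((Real.log 2 + Real.log (w + 1) + Real.log d - Real.log n) + Real.log (N g)) := Finset.sum_le_sum hlog1
      _ = Gs.card * (Real.log 2 + Real.log (w + 1) + Real.log d - Real.log n) + ∑ g ∈ Gs, Real.log (N g) := by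
          rw [Finset.sum_add_distrib, Finset.sum_const, nsmul_eq_mul]
      _ ≤ w * (Real.log 2 + Real.log (w + 1) + Real.log d - Real.log n) + Real.log n := by
          gcongr
      _ = _ := by ring
  have hsplit : Real.log M = ∑ p ∈ Pa, ((k p + 1 : ℕ) : ℝ) * Real.log p + ∑ p ∈ Pb, ((k p + 1 : ℕ) : ℝ) * Real.log p := by
    rw [hlogM, hPa, hPb, Finset.sum_filter_add_sum_filter_not]
    apply Finset.sum_congr rfl
    intro p hp
    rw [Nat.mem_primeFactors] at hp
    rw [hk1 p hp.1 hp.2.1]
  rw [hsplit]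
  linarith

end Pool.Agent.TPer
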